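import Pool.Agent.E8G.Defs
import Pool.Agent.E8X.F3

/-!
# [E8G] rows A0, A, I: theta identities, the parametrisation of the curve
-/

set_option autoImplicit false

open PowerSeries
open N19 (ex psi phs)
open E8X

namespace E8G

/-! ## The derivation -/

theorem A_D_eq (f : PowerSeries ℤ) : D f = X * PowerSeries.derivative ℤ f := by
  ext n
  rw [D, coeff_mk]
  rcases n with _ | n
  · simp
  · rw [coeff_succ_X_mul, PowerSeries.coeff_derivative]
    push_cast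
    ring

theorem A_D_add (f g : PowerSeries ℤ) : D (f + g) = D f + D g := by
  simp only [A_D_eq, map_add, mul_add]

theorem A_D_sub (f g : PowerSeries ℤ) : D (f - g) = D f - D g := by
  simp only [A_D_eq, map_sub, mul_sub]

theorem A_D_mul (f g : PowerSeries ℤ) : D (f * g) = f * D g + D f * g := by
  simp only [A_D_eq, Derivation.leibniz, smul_eq_mul]
  ring

theorem A_D_two (f : PowerSeries ℤ) : D (2 * f) = 2 * D f := by
  have : (2 : PowerSeries ℤ) * f = f + f := two_mul f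
  rw [this, A_D_add, two_mul]

theorem A_D_sq (f : PowerSeries ℤ) : D (f ^ 2) = 2 * (f * D f) := by
  rw [sq, A_D_mul]
  ring

theorem A_D_ex {k : ℕ} (hk : 0 < k) (f : PowerSeries ℤ) : D (ex k f) = (k : PowerSeries ℤ) * ex k (D f) := by
  have h : (k : PowerSeries ℤ) * ex k (D f) = (k : ℤ) • ex k (D f) := by
    rw [zsmul_eq_mul]
    push_cast
    rfl
  ext n
  rw [h, D, coeff_mk, map_zsmul, ex, ex, coeff_mk, coeff_mk, smul_eq_mul]
  split_ifs with hd
  · obtain ⟨m, rfl⟩ := hd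
    rw [Nat.mul_div_cancel_left _ hk, D, coeff_mk]
    push_cast
    ring
  · simp

/-! ## Names for the series -/

/-- `w = X ψ(X⁸)` -/
noncomputable def w : PowerSeries ℤ := X * ex 8 psi

/-- `E = φ(X⁴)` -/
noncomputable def Ee : PowerSeries ℤ := ex 4 phs

/-- `w₂ = X² ψ(X¹⁶)` -/
noncomputable def w2 : PowerSeries ℤ := X ^ 2 * ex 16 psi

theorem A_phs : phs = Ee + 2 * w := by
  have h : phs = ex 4 phs + 2 * X * Cc := r0
  rw [Cc] at h
  rw [Ee, w]
  linear_combination h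

theorem A_phm : phm = Ee - 2 * w := rfl

theorem A_ex_w : ex 2 w = w2 := by
  rw [w, w2, ex_mul (by norm_num), ex_X (by norm_num), ex_ex (by norm_num) (by norm_num)]

theorem A_ex_Ee : ex 2 Ee = ex 8 phs := by
  rw [Ee, ex_ex (by norm_num) (by norm_num)]

theorem A_ex_w2 : ex 2 w2 = Bb := by
  rw [w2, Bb, ex_mul (by norm_num), ex_pow (by norm_num), ex_X (by norm_num),
    ex_ex (by norm_num) (by norm_num)]
  norm_num
  left
  ring

theorem A_ex8 : ex 2 (ex 8 phs) = Aa := by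
  rw [ex_ex (by norm_num) (by norm_num), Aa]

/-- `w² = φ(X⁸) w₂` -/
theorem A_h1 : w ^ 2 = ex 8 phs * w2 := by
  have a1 : ex 8 psi ^ 2 = ex 8 phs * ex 16 psi := by
    have := congrArg (ex 8) r1
    rw [ex_pow (by norm_num), ex_mul (by norm_num), ex_ex (by norm_num) (by norm_num)] at this
    norm_num at this
    exact this
  rw [w, w2, mul_pow, a1]
  ring

/-- `φ(X⁴)² = φ(X⁸)² + 4 w₂²` -/
theorem A_h2 : Ee ^ 2 = ex 8 phs ^ 2 + 4 * w2 ^ 2 := by
  have := congrArg (ex 4) r2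
  rw [ex_pow (by norm_num), ex_add, ex_mul (by norm_num), ex_mul (by norm_num), ex_pow (by norm_num),
    ex_pow (by norm_num), ex_X (by norm_num), ex_ex (by norm_num) (by norm_num),
    ex_ex (by norm_num) (by norm_num), F2c_ex4] at this
  norm_num at this
  rw [Ee, w2]
  linear_combination this

theorem A_h1' : w2 ^ 2 = Aa * Bb := by
  have := congrArg (ex 2) A_h1
  rw [ex_pow (by norm_num), ex_mul (by norm_num), A_ex_w, A_ex_w2, A_ex8] at this
  exact this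

theorem A_h2' : ex 8 phs ^ 2 = Aa ^ 2 + 4 * Bb ^ 2 := r3

theorem A_Ee : Ee = Aa + 2 * Bb := ex4_phs

theorem A_ex2_phm : ex 2 phm = ex 8 phs - 2 * w2 := by
  have h : phm + 2 * w = Ee := by rw [A_phm]; ring
  have := congrArg (ex 2) h
  rw [ex_add, ex_mul (by norm_num), F2c_ex2, A_ex_w, A_ex_Ee] at this
  linear_combination this

theorem A_ex4_phm : ex 4 phm = Aa - 2 * Bb := by
  have h : ex 2 phm + 2 * w2 = ex 8 phs := by rw [A_ex2_phm]; ring
  have := congrArg (ex 2) h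
  rw [ex_add, ex_mul (by norm_num), F2c_ex2, A_ex_w2, A_ex8, ex_ex (by norm_num) (by norm_num)] at this
  norm_num at this
  linear_combination this

/-- `φ(X) φ(-X) = φ(-X²)²` -/
theorem A_h3 : phs * phm = ex 2 phm ^ 2 := by
  have h1 := A_phs
  have h2 := A_phm
  have h3 := A_ex2_phm
  linear_combination phm * h1 + (Ee + 2 * w) * h2 - (ex 2 phm + ex 8 phs - 2 * w2) * h3 +
    A_h2 - 4 * A_h1

theorem A_e2 : ex 8 phm ^ 2 = Ee * ex 4 phm := by
  have := congrArg (ex 4) A_h3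
  rw [ex_mul (by norm_num), ex_pow (by norm_num), ex_ex (by norm_num) (by norm_num)] at this
  norm_num at this
  rw [Ee]
  exact this.symm

/-! ## The derivative identity, by doubling -/

theorem A_dbl {a b f : PowerSeries ℤ} (ha : coeff 0 a = 1) (h0 : coeff 0 f = 0) (h1 : coeff 1 f = 0)
    (h : X * a * f = b * ex 2 f) : f = 0 := by
  ext n
  rw [map_zero]
  induction n using Nat.strong_induction_on with
  | _ n ih =>
    rcases n with _ | _ | n
    · exact h0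
    · exact h1
    · have e := congrArg (coeff (n + 2 + 1)) h
      rw [mul_assoc, coeff_succ_X_mul, coeff_mul, coeff_mul] at e
      rw [Finset.sum_eq_single (0, n + 2), ha, one_mul] at e
      · rw [e]
        refine Finset.sum_eq_zero fun x hx => ?_
        have hx' := Finset.HasAntidiagonal.mem_antidiagonal.1 hx
        rw [ex, coeff_mk]
        split_ifs with hd
        · rw [ih (x.2 / 2) (by omega), mul_zero]
        · rw [mul_zero]
      · intro x hx hne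
        have hx' := Finset.HasAntidiagonal.mem_antidiagonal.1 hx
        have : x.1 ≠ 0 := by
          intro h0
          apply hne
          ext
          · exact h0
          · omega
        rw [ih x.2 (by omega), mul_zero]
      · intro hn
        exact absurd (Finset.HasAntidiagonal.mem_antidiagonal.2 (by simp)) hn

theorem A_coeff_phs0 : coeff 0 phs = 1 := F2a_phs_coeff_zero

theorem A_coeff_ex0 (k : ℕ) (f : PowerSeries ℤ) : coeff 0 (ex k f) = coeff 0 f := by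
  rw [ex, coeff_mk, if_pos (dvd_zero k), Nat.zero_div]

theorem A_psi0 : coeff 0 psi = 1 := by
  rw [psi, coeff_mk, if_pos ⟨0, by norm_num⟩]

theorem A_two_ne : (2 : PowerSeries ℤ) ≠ 0 := fun h => by
  have := congrArg (coeff 0) h
  rw [show (2 : PowerSeries ℤ) = C 2 by simp, coeff_C] at this
  simp at this

theorem A_hD1 : w * D w = ex 8 phs * ex 2 (D w) + w2 * ex 2 (D Ee) := by
  have := congrArg D A_h1
  rw [A_D_sq, A_D_mul, ← A_ex_w, ← A_ex_Ee, A_D_ex (by norm_num), A_D_ex (by norm_num)] at this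
  rw [← A_ex_w, ← A_ex_Ee]
  push_cast at this
  refine mul_left_cancel₀ A_two_ne ?_
  linear_combination this

theorem A_hD2 : Ee * D Ee = 2 * (ex 8 phs * ex 2 (D Ee)) + 8 * (w2 * ex 2 (D w)) := by
  have := congrArg D A_h2
  have e4 : (4 : PowerSeries ℤ) * w2 ^ 2 = w2 ^ 2 + w2 ^ 2 + (w2 ^ 2 + w2 ^ 2) := by ring
  rw [e4, A_D_add, A_D_add, A_D_add, A_D_sq, A_D_sq, A_D_sq, ← A_ex_w, ← A_ex_Ee,
    A_D_ex (by norm_num), A_D_ex (by norm_num)] at this
  rw [← A_ex_w, ← A_ex_Ee]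
  push_cast at this
  refine mul_left_cancel₀ A_two_ne ?_
  linear_combination this

theorem A_Ee0 : constantCoeff Ee = 1 := by
  rw [← coeff_zero_eq_constantCoeff_apply, Ee, A_coeff_ex0, A_coeff_phs0]

theorem A_ps0 : constantCoeff (ex 8 psi) = 1 := by
  rw [← coeff_zero_eq_constantCoeff_apply, A_coeff_ex0, A_psi0]

theorem A_w0 : constantCoeff w = 0 := by
  rw [w, map_mul, constantCoeff_X, zero_mul]

theorem A_w1 : constantCoeff (PowerSeries.derivative ℤ w) = 1 := by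
  rw [w, Derivation.leibniz, smul_eq_mul, smul_eq_mul, map_add, map_mul, map_mul,
    constantCoeff_X, zero_mul, zero_add, PowerSeries.derivative_X, map_one, mul_one, A_ps0]

theorem A_star : Ee * D w - w * D Ee = w * Ee * (Ee ^ 4 - 16 * w ^ 4) := by
  have hD1 := A_hD1
  have hD2 := A_hD2
  have h1 := A_h1
  have h2 := A_h2
  have key : X * (ex 8 psi * Ee) * (Ee * D w - w * D Ee - w * Ee * (Ee ^ 4 - 16 * w ^ 4)) =
      (ex 8 phs ^ 2 - 4 * w2 ^ 2) *
        ex 2 (Ee * D w - w * D Ee - w * Ee * (Ee ^ 4 - 16 * w ^ 4)) := by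
    have e0 : X * (ex 8 psi * Ee) = w * Ee := by rw [w]; ring
    have e1 : ex 2 (Ee * D w - w * D Ee - w * Ee * (Ee ^ 4 - 16 * w ^ 4)) =
        ex 8 phs * ex 2 (D w) - w2 * ex 2 (D Ee) - w2 * ex 8 phs *
          (ex 8 phs ^ 4 - 16 * w2 ^ 4) := by
      have e2 : Ee * D w - w * D Ee - w * Ee * (Ee ^ 4 - 16 * w ^ 4) + w * D Ee +
        w * Ee * Ee ^ 4 = Ee * D w + 4 * (4 * (w * Ee * w ^ 4)) := by ring
      have e3 := congrArg (ex 2) e2
      simp only [ex_add, ex_mul (show 0 < 2 by norm_num), ex_pow (show 0 < 2 by norm_num),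
        F2c_ex4, A_ex_w, A_ex_Ee] at e3
      linear_combination e3
    have e2 : w * Ee * (Ee * D w - w * D Ee - w * Ee * (Ee ^ 4 - 16 * w ^ 4)) =
        Ee ^ 2 * (w * D w) - w ^ 2 * (Ee * D Ee) -
          w ^ 2 * Ee ^ 2 * ((Ee ^ 2) ^ 2 - 16 * (w ^ 2) ^ 2) := by ring
    rw [e0, e1, e2, hD1, hD2, h1, h2]
    ring
  have e : Ee * D w - w * D Ee - w * Ee * (Ee ^ 4 - 16 * w ^ 4) =
      X * (Ee * PowerSeries.derivative ℤ w - ex 8 psi * (X * PowerSeries.derivative ℤ Ee) -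
        ex 8 psi * Ee * (Ee ^ 4 - 16 * w ^ 4)) := by
    rw [A_D_eq w, A_D_eq Ee]
    nth_rw 2 [w]
    nth_rw 2 [w]
    ring
  have h := A_dbl (a := ex 8 psi * Ee) (by
    rw [coeff_zero_eq_constantCoeff_apply, map_mul, A_ps0, A_Ee0, one_mul]) (by
      rw [e, coeff_zero_eq_constantCoeff_apply, map_mul, constantCoeff_X, zero_mul]) (by
      rw [e, show (1 : ℕ) = 0 + 1 from rfl, coeff_succ_X_mul, coeff_zero_eq_constantCoeff_apply]
      simp only [map_sub, map_mul, map_pow, A_Ee0, A_ps0, A_w0, A_w1, constantCoeff_X]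
      norm_num) key
  linear_combination h

/-- **Row A0.** -/
theorem dlog_phs : D phs * phm - phs * D phm = 4 * (F * (phs * phm)) := by
  have h := A_star
  have hF : F = w * Ee * (Ee ^ 2 + 4 * w ^ 2) := by
    rw [F_eq, w, Ee, Cc]
  have e1 : D phs = D Ee + 2 * D w := by
    nth_rw 1 [A_phs]
    rw [A_D_add, A_D_two]
  have e2 : D phm = D Ee - 2 * D w := by
    rw [A_phm, A_D_sub, A_D_two]
  rw [e1, e2, hF, A_phm]
  have h3 := A_phs
  linear_combination 4 * h - (D Ee - 2 * D w) * h3 -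
    4 * (w * Ee * (Ee ^ 2 + 4 * w ^ 2)) * (Ee - 2 * w) * h3

/-! ## Row I -/

theorem A_w_eq : w = X * Cc := rfl

theorem A_cls_w : Cls 1 w := cls_u

theorem A_cls_w2 : Cls 2 w2 := by
  have := (f3_X 8 2).mul (f3_ex (M := 8) (k := 16) (by norm_num) psi)
  exact this

theorem A_cls_e : Cls 0 (ex 8 phm) := f3_ex (M := 8) (k := 8) (by norm_num) phm

theorem A_cls_a : Cls 0 (ex 8 phs) := f3_ex (M := 8) (k := 8) (by norm_num) phs

theorem A_zero {r n : ℕ} {f : PowerSeries ℤ} (hf : Cls r f) (hn : n % 8 = 7) (hr : r % 8 ≠ 7) :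
    coeff n f = 0 := hf n (by omega)

/-- `w₈ = X⁸ ψ(X⁶⁴)` -/
theorem A_ae : ex 8 phs - ex 8 phm = 4 * (X ^ 8 * ex 64 psi) := by
  have h : phs = phm + (2 * w + 2 * w) := by
    have := A_phs
    rw [A_phm]
    linear_combination this
  have := congrArg (ex 8) h
  rw [ex_add, ex_add, ex_mul (by norm_num), F2c_ex2, w, ex_mul (by norm_num), ex_X (by norm_num),
    ex_ex (by norm_num) (by norm_num)] at this
  norm_num at this
  linear_combination this

theorem A_R : R = w * w2 * Bb * (X ^ 8 * ex 64 psi) := by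
  rw [R, w, w2, Bb]

theorem A_Ff : Ff = w * ex 8 phm * (ex 8 phs * ex 4 phm - 2 * (w2 * Ee)) := by
  rw [Ff, w, w2, Ee]
  ring

theorem A_zsmul (a : ℤ) (f : PowerSeries ℤ) (n : ℕ) : coeff n ((a : PowerSeries ℤ) * f) = a * coeff n f := by
  have : (a : PowerSeries ℤ) * f = a • f := by rw [zsmul_eq_mul]
  rw [this, map_zsmul, smul_eq_mul]

theorem A_Ff7 {n : ℕ} (hn : n % 8 = 7) :
    coeff n Ff = -4 * coeff n (w * ex 8 phm * w2 * Bb) := by
  have e : Ff = w * ex 8 phm * ex 8 phs * Aa + ((-2 : ℤ) : PowerSeries ℤ) *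
      (w * ex 8 phm * ex 8 phs * Bb) + ((-2 : ℤ) : PowerSeries ℤ) * (w * ex 8 phm * w2 * Aa) +
      ((-4 : ℤ) : PowerSeries ℤ) * (w * ex 8 phm * w2 * Bb) := by
    rw [A_Ff, A_ex4_phm, A_Ee]
    push_cast
    ring
  rw [e, map_add, map_add, map_add, A_zsmul, A_zsmul, A_zsmul,
    A_zero (((A_cls_w.mul A_cls_e).mul A_cls_a).mul cls_A) hn (by norm_num),
    A_zero (((A_cls_w.mul A_cls_e).mul A_cls_a).mul cls_B) hn (by norm_num),
    A_zero (((A_cls_w.mul A_cls_e).mul A_cls_w2).mul cls_A) hn (by norm_num)]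
  ring

theorem A_F : F = w * Ee * (Ee ^ 2 + 4 * w ^ 2) := by
  rw [F_eq, w, Ee, Cc]

theorem A_F7 {n : ℕ} (hn : n % 8 = 7) : coeff n F = 8 * coeff n (w * ex 8 phs * w2 * Bb) := by
  have e : F = w * Aa ^ 3 + ((6 : ℤ) : PowerSeries ℤ) * (w * Aa ^ 2 * Bb) +
      ((12 : ℤ) : PowerSeries ℤ) * (w * Aa * Bb ^ 2) + ((8 : ℤ) : PowerSeries ℤ) * (w * Bb ^ 3) +
      ((4 : ℤ) : PowerSeries ℤ) * (w ^ 3 * Aa) +
      ((8 : ℤ) : PowerSeries ℤ) * (w * ex 8 phs * w2 * Bb) := by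
    rw [A_F, A_Ee]
    have := A_h1
    push_cast
    linear_combination 8 * w * Bb * this
  rw [e, map_add, map_add, map_add, map_add, map_add, A_zsmul, A_zsmul, A_zsmul, A_zsmul, A_zsmul,
    A_zero (A_cls_w.mul (cls_A.pow 3)) hn (by norm_num),
    A_zero ((A_cls_w.mul (cls_A.pow 2)).mul cls_B) hn (by norm_num),
    A_zero ((A_cls_w.mul cls_A).mul (cls_B.pow 2)) hn (by norm_num),
    A_zero (A_cls_w.mul (cls_B.pow 3)) hn (by norm_num),
    A_zero ((A_cls_w.pow 3).mul cls_A) hn (by norm_num)]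
  ring

/-- **Row I.** -/
theorem coeff_R {n : ℕ} (hn : n % 8 = 7) :
    32 * coeff n R = coeff n F + 2 * coeff n Ff := by
  rw [A_Ff7 hn, A_F7 hn]
  have e : ((4 : ℤ) : PowerSeries ℤ) * R = w * ex 8 phs * w2 * Bb - w * ex 8 phm * w2 * Bb := by
    rw [A_R]
    have := A_ae
    push_cast
    linear_combination -(w * w2 * Bb) * this
  have := congrArg (coeff n) e
  rw [A_zsmul, map_sub] at this
  linear_combination 8 * this

/-! ## Row A -/

theorem A_alg1 {R : Type*} [CommRing R] (w e a w2 c w4 : R) (h0 : w ^ 2 = a * w2)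
    (he : e ^ 2 = (c + 2 * w4) * (c - 2 * w4)) (h1 : w2 ^ 2 = c * w4)
    (h2 : a ^ 2 = c ^ 2 + 4 * w4 ^ 2) :
    (w * e) ^ 2 * ((a + 2 * w2) * c) = (c - 2 * w4) * w2 * (2 * ((c - 2 * w4) * w2) ^ 2 -
      2 * ((c - 2 * w4) * w2) * ((a + 2 * w2) * c) + ((a + 2 * w2) * c) ^ 2) := by
  linear_combination (e ^ 2 * ((a + 2 * w2) * c)) * h0 + (a * w2 * ((a + 2 * w2) * c)) * he +
    (c - 2 * w4) * w2 * ((-2 * (c - 2 * w4) ^ 2 + 4 * (c - 2 * w4) * c - 4 * c ^ 2) * h1 +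
      ((c + 2 * w4) * c - c ^ 2) * h2)

theorem A_alg2 {R : Type*} [CommRing R] (a w2 c w4 Da Dw2 Dc Dw4 : R) (h1 : w2 ^ 2 = c * w4)
    (h2 : a ^ 2 = c ^ 2 + 4 * w4 ^ 2) (h3 : 2 * (w2 * Dw2) = c * Dw4 + w4 * Dc)
    (h4 : a * Da = c * Dc + 4 * (w4 * Dw4))
    (h5 : c * Dw4 - w4 * Dc = 4 * (w4 * c * (c ^ 4 - 16 * w4 ^ 4))) :
    2 * (a * w2) * (((c - 2 * w4) * Dw2 + (Dc - 2 * Dw4) * w2) * ((a + 2 * w2) * c) -
      (c - 2 * w4) * w2 * ((a + 2 * w2) * Dc + (Da + 2 * Dw2) * c)) =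
    2 * (a * w2) * (2 * (a * w2 * ((c + 2 * w4) * (c - 2 * w4))) *
      (a * (c - 2 * w4) - 2 * (w2 * (c + 2 * w4))) * ((a + 2 * w2) * c)) := by
  have e1 : 2 * (a * w2) * (((c - 2 * w4) * Dw2 + (Dc - 2 * Dw4) * w2) * ((a + 2 * w2) * c) -
      (c - 2 * w4) * w2 * ((a + 2 * w2) * Dc + (Da + 2 * Dw2) * c)) =
      a ^ 2 * ((c - 2 * w4) * c) * (2 * (w2 * Dw2)) - 2 * (c - 2 * w4) * w2 ^ 2 * c * (a * Da) -
        4 * (a ^ 2 * w2 ^ 2 + 2 * (a * w2) * w2 ^ 2) * (c * Dw4 - w4 * Dc) := by ring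
  have e2 : 2 * (a * w2) * (2 * (a * w2 * ((c + 2 * w4) * (c - 2 * w4))) *
      (a * (c - 2 * w4) - 2 * (w2 * (c + 2 * w4))) * ((a + 2 * w2) * c)) =
      4 * (a ^ 2 * w2 ^ 2) * ((c + 2 * w4) * (c - 2 * w4) * c) *
        (a ^ 2 * (c - 2 * w4) - 8 * (a * w2) * w4 - 4 * w2 ^ 2 * (c + 2 * w4)) := by ring
  rw [e1, e2, h3, h4, h1, h2]
  linear_combination ((c - 2 * w4) * c * (c ^ 2 - 4 * w4 ^ 2) - 4 * ((c ^ 2 + 4 * w4 ^ 2) * (c * w4) +
    2 * (a * w2) * (c * w4))) * h5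

theorem A_D4w : D Bb = 4 * ex 4 (D w) := by
  have h : ex 4 w = Bb := by
    rw [← A_ex_w2, ← A_ex_w, ex_ex (by norm_num) (by norm_num)]
  rw [← h, A_D_ex (by norm_num)]
  push_cast
  rfl

theorem A_D4E : D Aa = 4 * ex 4 (D Ee) := by
  have h : ex 4 Ee = Aa := by
    rw [Ee, ex_ex (by norm_num) (by norm_num), Aa]
  rw [← h, A_D_ex (by norm_num)]
  push_cast
  rfl

theorem A_h5 : Aa * D Bb - Bb * D Aa = 4 * (Bb * Aa * (Aa ^ 4 - 16 * Bb ^ 4)) := by
  have h : ex 4 w = Bb := by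
    rw [← A_ex_w2, ← A_ex_w, ex_ex (by norm_num) (by norm_num)]
  have h' : ex 4 Ee = Aa := by
    rw [Ee, ex_ex (by norm_num) (by norm_num), Aa]
  have e0 : Ee * D w + 4 * (4 * (w * Ee * w ^ 4)) = w * D Ee + w * Ee * Ee ^ 4 := by
    linear_combination A_star
  have e1 := congrArg (ex 4) e0
  simp only [ex_add, ex_mul (show 0 < 4 by norm_num), ex_pow (show 0 < 4 by norm_num),
    F2c_ex4, h, h'] at e1
  rw [A_D4w, A_D4E]
  linear_combination 4 * e1

theorem A_h3' : 2 * (w2 * D w2) = Aa * D Bb + Bb * D Aa := by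
  have := congrArg D A_h1'
  rw [A_D_sq, A_D_mul] at this
  linear_combination this

theorem A_h4' : ex 8 phs * D (ex 8 phs) = Aa * D Aa + 4 * (Bb * D Bb) := by
  have := congrArg D A_h2'
  have e4 : Aa ^ 2 + 4 * Bb ^ 2 = Aa ^ 2 + (Bb ^ 2 + Bb ^ 2 + (Bb ^ 2 + Bb ^ 2)) := by ring
  rw [e4, A_D_add, A_D_add, A_D_add, A_D_sq, A_D_sq, A_D_sq] at this
  refine mul_left_cancel₀ A_two_ne ?_
  linear_combination this

theorem A_ne {f : PowerSeries ℤ} (h : constantCoeff f = 1) : f ≠ 0 := fun h0 => by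
  rw [h0, map_zero] at h
  exact zero_ne_one h

theorem A_cc_ex (k : ℕ) (f : PowerSeries ℤ) : constantCoeff (ex k f) = constantCoeff f := by
  rw [← coeff_zero_eq_constantCoeff_apply, ← coeff_zero_eq_constantCoeff_apply, A_coeff_ex0]

theorem A_cc_phs : constantCoeff phs = 1 := by
  rw [← coeff_zero_eq_constantCoeff_apply, A_coeff_phs0]

theorem A_cc_psi : constantCoeff psi = 1 := by
  rw [← coeff_zero_eq_constantCoeff_apply, A_psi0]

theorem A_cc_phm : constantCoeff phm = 1 := by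
  rw [A_phm, map_sub, map_mul, A_w0, A_Ee0, mul_zero, sub_zero]

theorem A_cc_w2 : constantCoeff w2 = 0 := by
  rw [w2, map_mul, map_pow, constantCoeff_X]
  norm_num

theorem A_w2_ne : w2 ≠ 0 := by
  rw [w2]
  exact mul_ne_zero (pow_ne_zero _ X_ne_zero) (A_ne (by rw [A_cc_ex, A_cc_psi]))

/-- The denominator. -/
noncomputable def Wd : PowerSeries ℤ := (ex 8 phs + 2 * w2) * Aa

theorem A_cc_Wd : constantCoeff Wd = 1 := by
  rw [Wd, map_mul, map_add, map_mul, A_cc_w2, A_cc_ex, Aa, A_cc_ex, A_cc_phs]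
  norm_num

/-- **Row A.** -/
theorem param : ∃ u v : PowerSeries ℤ, coeff 0 u = 0 ∧ coeff 0 v = 0 ∧ coeff 1 v = 1 ∧
    v ^ 2 = u * (2 * u ^ 2 - 2 * u + 1) ∧ D u = 2 * (Ff * v) := by
  obtain ⟨i, hi⟩ : ∃ i : PowerSeries ℤ, Wd * i = 1 :=
    ⟨invOfUnit Wd 1, mul_invOfUnit Wd 1 (by rw [A_cc_Wd, Units.val_one])⟩
  have hi0 : constantCoeff i = 1 := by
    have := congrArg constantCoeff hi
    rwa [map_mul, A_cc_Wd, one_mul, map_one] at this
  have hW : Wd ≠ 0 := A_ne A_cc_Wd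
  obtain ⟨u, hu⟩ : ∃ u, u = (Aa - 2 * Bb) * w2 * i := ⟨_, rfl⟩
  obtain ⟨v, hv⟩ : ∃ v, v = w * ex 8 phm * i := ⟨_, rfl⟩
  have huW : u * Wd = (Aa - 2 * Bb) * w2 := by
    rw [hu]
    linear_combination ((Aa - 2 * Bb) * w2) * hi
  have hvW : v * Wd = w * ex 8 phm := by
    rw [hv]
    linear_combination (w * ex 8 phm) * hi
  have he : ex 8 phm ^ 2 = (Aa + 2 * Bb) * (Aa - 2 * Bb) := by
    rw [A_e2, A_Ee, A_ex4_phm]
  refine ⟨u, v, ?_, ?_, ?_, ?_, ?_⟩
  · rw [coeff_zero_eq_constantCoeff_apply, hu, map_mul, map_mul, A_cc_w2]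
    ring
  · rw [coeff_zero_eq_constantCoeff_apply, hv, map_mul, map_mul, A_w0]
    ring
  · have : v = X * (ex 8 psi * ex 8 phm * i) := by rw [hv, w]; ring
    rw [this, show (1 : ℕ) = 0 + 1 from rfl, coeff_succ_X_mul, coeff_zero_eq_constantCoeff_apply,
      map_mul, map_mul, A_ps0, A_cc_ex, A_cc_phm, hi0]
    norm_num
  · have h := A_alg1 w (ex 8 phm) (ex 8 phs) w2 Aa Bb A_h1 he A_h1' A_h2'
    refine mul_right_cancel₀ (pow_ne_zero 3 hW) ?_
    rw [← Wd, ← hvW, ← huW] at h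
    linear_combination h
  · have h := A_alg2 (ex 8 phs) w2 Aa Bb (D (ex 8 phs)) (D w2) (D Aa) (D Bb) A_h1' A_h2' A_h3' A_h4' A_h5
    have h2 := mul_left_cancel₀ (mul_ne_zero A_two_ne (mul_ne_zero
      (A_ne (by rw [A_cc_ex, A_cc_phs])) A_w2_ne)) h
    have h3 := congrArg D huW
    rw [A_D_mul, A_D_mul, A_D_sub, A_D_two] at h3
    have h4 : D Wd = (ex 8 phs + 2 * w2) * D Aa + (D (ex 8 phs) + 2 * D w2) * Aa := by
      rw [Wd, A_D_mul, A_D_add, A_D_two]
    have h5 : Ff = w * ex 8 phm * (ex 8 phs * (Aa - 2 * Bb) - 2 * (w2 * (Aa + 2 * Bb))) := by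
      rw [A_Ff, A_ex4_phm, A_Ee]
    have h6 := A_h1
    rw [← h4, ← Wd] at h2
    refine mul_right_cancel₀ (pow_ne_zero 2 hW) ?_
    obtain ⟨Q, hQ⟩ : ∃ Q, Q = ex 8 phs * (Aa - 2 * Bb) - 2 * (w2 * (Aa + 2 * Bb)) := ⟨_, rfl⟩
    rw [← hQ] at h2 h5
    rw [h5]
    linear_combination Wd * h3 - (D Wd) * huW + h2 - (2 * (w * ex 8 phm) * Q * Wd) * hvW -
      (2 * ex 8 phm ^ 2 * Q * Wd) * h6 - (2 * (ex 8 phs * w2) * Q * Wd) * he

end E8G
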