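import Pool.Agent.E8G.Defs

/-!
# [E8G] row B: power series modulo `p`
-/

set_option autoImplicit false

open PowerSeries
open N19 (ex psi phs)

namespace E8G

theorem B_coeff_D (f : PowerSeries ℤ) (n : ℕ) : coeff n (D f) = (n : ℤ) * coeff n f := by
  rw [D, coeff_mk]

theorem B_D_eq (f : PowerSeries ℤ) : D f = X * derivative ℤ f := by
  ext n
  rw [B_coeff_D]
  cases n with
  | zero => simp
  | succ n =>
    rw [coeff_succ_X_mul, coeff_derivative]
    push_cast
    ring

/-- Frobenius: `f^p = f(X^p)` modulo `p`, coefficientwise -/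
theorem B_frob {p : ℕ} (hp : p.Prime) (f : PowerSeries ℤ) (n : ℕ) :
    (p : ℤ) ∣ coeff n (f ^ p) - coeff n (ex p f) := by
  have : Fact p.Prime := ⟨hp⟩
  rw [← ZMod.intCast_eq_intCast_iff_dvd_sub]
  symm
  set g : PowerSeries (ZMod p) := PowerSeries.map (Int.castRingHom (ZMod p)) f with hg
  have h1 : (((coeff n (f ^ p) : ℤ)) : ZMod p) = coeff n (g ^ p) := by
    rw [hg, ← map_pow, coeff_map]
    rfl
  have h2 : (((coeff n (ex p f) : ℤ)) : ZMod p) = if p ∣ n then coeff (n / p) g else 0 := by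
    rw [ex, coeff_mk]
    split_ifs
    · rw [hg, coeff_map]
      rfl
    · simp
  rw [h1, h2]
  have h3 : coeff n (g ^ p) =
      coeff n (((trunc (n + 1) g : Polynomial (ZMod p)) : PowerSeries (ZMod p)) ^ p) := by
    have e1 : coeff n (g ^ p) = (trunc (n + 1) (g ^ p)).coeff n := by
      rw [coeff_trunc, if_pos (Nat.lt_succ_self n)]
    rw [e1, ← trunc_trunc_pow, coeff_trunc, if_pos (Nat.lt_succ_self n)]
  rw [h3, ← Polynomial.coe_pow, Polynomial.coeff_coe, ← ZMod.expand_card,
    Polynomial.coeff_expand hp.pos]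
  split_ifs with h
  · rw [coeff_trunc, if_pos]
    have := Nat.div_le_self n p
    omega
  · rfl

theorem B_Dpow (u : PowerSeries ℤ) (k : ℕ) : D (u ^ (k + 1)) = ((k + 1 : ℕ) : PowerSeries ℤ) * (u ^ k * D u) := by
  rw [B_D_eq, B_D_eq, derivative_pow]
  simp only [Nat.add_sub_cancel]
  ring

theorem B_coeff_pow (u : PowerSeries ℤ) (k n : ℕ) :
    ((k : ℤ) + 1) * coeff n (u ^ k * D u) = (n : ℤ) * coeff n (u ^ (k + 1)) := by
  have h := congrArg (coeff n) (B_Dpow u k)
  rw [B_coeff_D] at h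
  rw [h]
  have e : ((k + 1 : ℕ) : PowerSeries ℤ) = C ((k : ℤ) + 1) := by
    push_cast
    simp
  rw [e, coeff_C_mul]

theorem B_other {p : ℕ} (hp : p.Prime) (u : PowerSeries ℤ) {k : ℕ} (hk : ¬ p ∣ k + 1) (n : ℕ) :
    (p : ℤ) ∣ coeff (p * n) (u ^ k * D u) := by
  have h := B_coeff_pow u k (p * n)
  have h1 : (p : ℤ) ∣ ((k : ℤ) + 1) * coeff (p * n) (u ^ k * D u) := by
    rw [h]
    push_cast
    exact ⟨(n : ℤ) * coeff (p * n) (u ^ (k + 1)), by ring⟩
  rcases (Nat.prime_iff_prime_int.1 hp).dvd_or_dvd h1 with h2 | h2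
  · exfalso
    apply hk
    have : (p : ℤ) ∣ ((k + 1 : ℕ) : ℤ) := by
      push_cast
      exact h2
    exact_mod_cast this
  · exact h2

theorem B_same {p : ℕ} (hp : p.Prime) (u : PowerSeries ℤ) (n : ℕ) :
    (p : ℤ) ∣ coeff (p * n) (u ^ (p - 1) * D u) - coeff n (D u) := by
  have h := B_coeff_pow u (p - 1) (p * n)
  have hp1 : p - 1 + 1 = p := Nat.succ_pred_eq_of_pos hp.pos
  rw [hp1] at h
  have e : ((p - 1 : ℕ) : ℤ) + 1 = (p : ℤ) := by
    exact_mod_cast hp1
  rw [e] at h
  have hp0 : (p : ℤ) ≠ 0 := by exact_mod_cast hp.ne_zero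
  have h2 : coeff (p * n) (u ^ (p - 1) * D u) = (n : ℤ) * coeff (p * n) (u ^ p) := by
    apply mul_left_cancel₀ hp0
    rw [h]
    push_cast
    ring
  have h3 : coeff (p * n) (ex p u) = coeff n u := by
    rw [ex, coeff_mk, if_pos (Dvd.intro _ rfl), Nat.mul_div_cancel_left _ hp.pos]
  obtain ⟨c, hc⟩ := B_frob hp u (p * n)
  rw [h3] at hc
  rw [h2, B_coeff_D]
  exact ⟨n * c, by linear_combination (n : ℤ) * hc⟩

/-- the shape of a series with `v = X + ...` -/
theorem B_shape {v : PowerSeries ℤ} (hv0 : coeff 0 v = 0) (hv : coeff 1 v = 1) :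
    ∃ w : PowerSeries ℤ, v = X + X ^ 2 * w := by
  refine ⟨mk fun n => coeff (n + 2) v, ?_⟩
  ext n
  rcases n with _ | _ | n
  · simp [hv0]
  · simp [coeff_X_pow_mul', hv]
  · rw [map_add, coeff_X_pow_mul' , if_pos (by omega), coeff_mk, coeff_X, if_neg (by omega)]
    simp

theorem B_ex_shape {p : ℕ} (hp : p.Prime) (w : PowerSeries ℤ) :
    ex p (X + X ^ 2 * w) = X ^ p + X ^ (2 * p) * ex p w := by
  ext n
  have e0 : coeff n (ex p (X + X ^ 2 * w)) = if p ∣ n then coeff (n / p) (X + X ^ 2 * w) else 0 := by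
    rw [ex, coeff_mk]
  rw [e0, map_add (coeff n), coeff_X_pow, coeff_X_pow_mul']
  by_cases h : p ∣ n
  · obtain ⟨m, rfl⟩ := h
    rw [if_pos (Dvd.intro _ rfl), Nat.mul_div_cancel_left _ hp.pos, map_add, coeff_X_pow_mul', coeff_X]
    have e1 : (m = 1) ↔ (p * m = p) := by
      constructor
      · rintro rfl
        ring
      · intro h
        exact Nat.eq_of_mul_eq_mul_left hp.pos (by rw [h, mul_one])
    have e2 : (2 ≤ m) ↔ (2 * p ≤ p * m) := by
      rw [mul_comm 2 p]
      exact (Nat.mul_le_mul_left_iff hp.pos).symm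
    by_cases h1 : m = 1
    · subst h1
      have := hp.two_le
      simp only [mul_one, if_true]
      rw [if_neg (by omega), if_neg (by omega)]
    · rw [if_neg h1, if_neg (fun h => h1 (e1.2 h))]
      by_cases h2 : 2 ≤ m
      · rw [if_pos h2, if_pos (e2.1 h2), ex, coeff_mk]
        have e3 : p * m - 2 * p = p * (m - 2) := by
          rw [Nat.mul_sub, mul_comm 2 p]
        rw [e3, if_pos (Dvd.intro _ rfl), Nat.mul_div_cancel_left _ hp.pos]
      · rw [if_neg h2, if_neg (fun h => h2 (e2.2 h))]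
  · rw [if_neg h, if_neg (fun e => h (by rw [e]))]
    split_ifs with h2
    · rw [ex, coeff_mk, if_neg]
      · simp
      · intro h3
        apply h
        have e : n = (n - 2 * p) + 2 * p := by omega
        rw [e]
        exact dvd_add h3 (Dvd.intro_left _ rfl)
    · simp

theorem hasse_mod {p : ℕ} (hp : p.Prime) (hp2 : p ≠ 2) {u v f : PowerSeries ℤ}
    (hu : coeff 0 u = 0) (hv0 : coeff 0 v = 0) (hv : coeff 1 v = 1)
    (h1 : v ^ 2 = u * (2 * u ^ 2 - 2 * u + 1)) (h2 : D u = 2 * (f * v)) :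
    (p : ℤ) ∣ coeff p f - hc p * coeff 1 f := by
  obtain ⟨w, hw⟩ := B_shape hv0 hv
  have hodd : p % 2 = 1 := hp.eq_two_or_odd.resolve_left hp2
  have hp3 : 3 ≤ p := by
    have := hp.two_le
    omega
  -- `f` has no constant term
  have hu1 : coeff 1 u = 0 := by
    have e := congrArg (coeff 1) h1
    have e1 : coeff 1 (v ^ 2) = 0 := by
      rw [hw]
      have : (X + X ^ 2 * w) ^ 2 = X ^ 2 * (1 + X * w) ^ 2 := by ring
      rw [this, coeff_X_pow_mul', if_neg (by norm_num)]
    have hu' : constantCoeff u = 0 := by simpa using hu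
    rw [e1, coeff_mul, Finset.Nat.antidiagonal_succ] at e
    simp [hu'] at e
    exact e.symm
  have hf0 : coeff 0 f = 0 := by
    have e := congrArg (coeff 1) h2
    rw [B_coeff_D, hu1, hw] at e
    have e1 : 2 * (f * (X + X ^ 2 * w)) = X * (2 * f * (1 + X * w)) := by ring
    rw [e1] at e
    have e2 : coeff 1 (X * (2 * f * (1 + X * w))) = coeff 0 (2 * f * (1 + X * w)) := coeff_succ_X_mul 0 _
    have e3 : (2 : PowerSeries ℤ) = C (2 : ℤ) := by simp
    rw [e2, mul_assoc, e3, coeff_C_mul] at e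
    have e4 : coeff 0 (f * (1 + X * w)) = coeff 0 f := by simp
    rw [e4] at e
    push_cast at e
    linarith
  have hfv : coeff 2 (D u) = 2 * coeff 1 f := by
    rw [h2, hw]
    have e1 : 2 * (f * (X + X ^ 2 * w)) = X * (C (2 : ℤ) * f) + X ^ 2 * (C (2 : ℤ) * (f * w)) := by
      have : (C (2 : ℤ) : PowerSeries ℤ) = 2 := by simp
      rw [this]
      ring
    have e2 : coeff 2 (X * (C (2 : ℤ) * f)) = coeff 1 (C (2 : ℤ) * f) := coeff_succ_X_mul 1 _
    have hf0' : constantCoeff f = 0 := by simpa using hf0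
    rw [e1, map_add, coeff_X_pow_mul', if_pos (le_refl 2), e2, coeff_C_mul, Nat.sub_self, coeff_C_mul]
    simp [hf0']
  -- the polynomial
  set m : ℕ := (p - 1) / 2 with hm
  have hm2 : 2 * m = p - 1 := by omega
  set G : Polynomial ℤ := (Polynomial.X * (2 * Polynomial.X ^ 2 - 2 * Polynomial.X + 1) : Polynomial ℤ) ^ m
    with hG
  have hGu : Polynomial.aeval u G = v ^ (p - 1) := by
    rw [hG, ← hm2, pow_mul, h1, map_pow]
    have e20 : Polynomial.aeval u (2 : Polynomial ℤ) = 2 := map_ofNat _ 2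
    rw [map_mul, map_add, map_sub, map_mul, map_mul, map_pow, Polynomial.aeval_X, map_one, e20]
  have hdeg : G.natDegree ≤ 3 * m := by
    have e : (Polynomial.X * (2 * Polynomial.X ^ 2 - 2 * Polynomial.X + 1) : Polynomial ℤ).natDegree ≤ 3 := by
      compute_degree
    calc G.natDegree ≤ m * (Polynomial.X * (2 * Polynomial.X ^ 2 - 2 * Polynomial.X + 1) : Polynomial ℤ).natDegree :=
          Polynomial.natDegree_pow_le
      _ ≤ m * 3 := Nat.mul_le_mul_left _ e
      _ = 3 * m := by ring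
  have hsum : v ^ (p - 1) * D u = ∑ k ∈ Finset.range (3 * m + 1), C (G.coeff k) * (u ^ k * D u) := by
    rw [← hGu, Polynomial.aeval_eq_sum_range' (Nat.lt_succ_of_le hdeg), Finset.sum_mul]
    apply Finset.sum_congr rfl
    intro k _
    rw [smul_eq_C_mul, mul_assoc]
  have hL : v ^ (p - 1) * D u = C (2 : ℤ) * (f * v ^ p) := by
    have e3 : (C (2 : ℤ) : PowerSeries ℤ) = 2 := by simp
    have e4 : v ^ p = v ^ (p - 1) * v := by
      rw [← pow_succ, Nat.sub_add_cancel hp.pos]
    rw [h2, e3, e4]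
    ring
  have hmod : (p : ℤ) ∣ coeff (p * 2) (v ^ (p - 1) * D u) - hc p * coeff 2 (D u) := by
    rw [hsum, map_sum]
    have hmem : p - 1 ∈ Finset.range (3 * m + 1) := by
      rw [Finset.mem_range]
      omega
    rw [← Finset.add_sum_erase _ _ hmem]
    have e5 : coeff (p * 2) (C (G.coeff (p - 1)) * (u ^ (p - 1) * D u)) =
        hc p * coeff (p * 2) (u ^ (p - 1) * D u) := by
      rw [coeff_C_mul, hc]
    rw [e5]
    have e6 : (p : ℤ) ∣ ∑ k ∈ (Finset.range (3 * m + 1)).erase (p - 1),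
        coeff (p * 2) (C (G.coeff k) * (u ^ k * D u)) := by
      apply Finset.dvd_sum
      intro k hk
      rw [Finset.mem_erase, Finset.mem_range] at hk
      rw [coeff_C_mul]
      apply Dvd.dvd.mul_left
      apply B_other hp
      intro hd
      obtain ⟨c, hc⟩ := hd
      have hc1 : c < 2 := by
        by_contra h
        have : p * 2 ≤ p * c := Nat.mul_le_mul_left _ (by omega)
        omega
      interval_cases c
      · omega
      · apply hk.1
        omega
    have e7 := B_same hp u 2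
    have e8 : hc p * coeff (p * 2) (u ^ (p - 1) * D u) +
        ∑ k ∈ (Finset.range (3 * m + 1)).erase (p - 1), coeff (p * 2) (C (G.coeff k) * (u ^ k * D u)) -
        hc p * coeff 2 (D u) = hc p * (coeff (p * 2) (u ^ (p - 1) * D u) - coeff 2 (D u)) +
        ∑ k ∈ (Finset.range (3 * m + 1)).erase (p - 1), coeff (p * 2) (C (G.coeff k) * (u ^ k * D u)) := by
      ring
    rw [e8]
    exact dvd_add (Dvd.dvd.mul_left e7 _) e6
  rw [hL, coeff_C_mul, hfv] at hmod
  -- the left hand side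
  have hleft : (p : ℤ) ∣ coeff (p * 2) (f * v ^ p) - coeff p f := by
    have e9 : coeff (p * 2) (f * ex p v) = coeff p f := by
      rw [hw, B_ex_shape hp, mul_add, map_add]
      have e10 : coeff (p * 2) (f * X ^ p) = coeff p f := by
        rw [coeff_mul_X_pow', if_pos (by omega)]
        congr 2
        omega
      have e11 : coeff (p * 2) (f * (X ^ (2 * p) * ex p w)) = 0 := by
        have hf0' : constantCoeff f = 0 := by simpa using hf0
        rw [show f * (X ^ (2 * p) * ex p w) = X ^ (2 * p) * (f * ex p w) by ring, coeff_X_pow_mul',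
          if_pos (by omega), show p * 2 - 2 * p = 0 by omega]
        simp [hf0']
      rw [e10, e11, add_zero]
    rw [← e9, ← map_sub, ← mul_sub, coeff_mul]
    apply Finset.dvd_sum
    intro ij _
    apply Dvd.dvd.mul_left
    rw [map_sub]
    exact B_frob hp v _
  have hfin : (p : ℤ) ∣ 2 * (coeff p f - hc p * coeff 1 f) := by
    have e12 : 2 * (coeff p f - hc p * coeff 1 f) = (2 * coeff (p * 2) (f * v ^ p) - hc p * (2 * coeff 1 f)) -
        2 * (coeff (p * 2) (f * v ^ p) - coeff p f) := by ring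
    rw [e12]
    exact dvd_sub hmod (Dvd.dvd.mul_left hleft _)
  rcases (Nat.prime_iff_prime_int.1 hp).dvd_or_dvd hfin with h | h
  · exfalso
    have := Int.le_of_dvd (by norm_num) h
    omega
  · exact h

end E8G
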