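import Pool.Agent.E8G.Defs

/-!
# [E8G] row C: the character sum modulo `p`
-/

set_option autoImplicit false

open Polynomial

namespace E8G

/-- Power sums over `ZMod p`. -/
theorem rowC_sum_pow (p : ℕ) [Fact p.Prime] (k : ℕ) :
    ∑ x : ZMod p, x ^ k = if k ≠ 0 ∧ p - 1 ∣ k then -1 else 0 := by
  classical
  rcases Nat.eq_zero_or_pos k with hk | hk
  · subst hk
    simp
  · have h1 : ∑ x : ZMod p, x ^ k = ∑ x : (ZMod p)ˣ, ((x : ZMod p)) ^ k := by
      rw [← Finset.sum_subset (Finset.subset_univ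
        (Finset.univ.map ⟨fun u : (ZMod p)ˣ => (u : ZMod p), Units.val_injective⟩))]
      · simp [Finset.sum_map]
      · intro x _ hx
        have hx0 : x = 0 := by
          by_contra h0
          exact hx (Finset.mem_map.2 ⟨Units.mk0 x h0, Finset.mem_univ _, rfl⟩)
        rw [hx0, zero_pow hk.ne']
    rw [h1]
    have h2 := FiniteField.sum_pow_units (ZMod p) k
    rw [ZMod.card] at h2
    have h3 : ∑ x : (ZMod p)ˣ, ((x : ZMod p)) ^ k = ∑ x : (ZMod p)ˣ, ((x ^ k : (ZMod p)ˣ) : ZMod p) := by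
      refine Finset.sum_congr rfl fun x _ => ?_
      push_cast
      rfl
    rw [h3]
    simp only [hk.ne', ne_eq, not_false_eq_true, true_and]
    exact h2

theorem rowC_char (p : ℕ) [Fact p.Prime] (hp2 : p ≠ 2) (a : ZMod p) :
    ((quadraticChar (ZMod p) a : ℤ) : ZMod p) = a ^ ((p - 1) / 2) := by
  have h := quadraticChar_eq_pow_of_char_ne_two' (F := ZMod p) (by
    rw [ZMod.ringChar_zmod_n]; exact hp2) a
  rw [ZMod.card] at h
  have hodd : p / 2 = (p - 1) / 2 := by
    have := (Nat.Prime.eq_two_or_odd (Fact.out : p.Prime)).resolve_left hp2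
    omega
  rw [h, hodd]

/-- The sum of a polynomial of degree `< 2 (p - 1)` over `ZMod p`. -/
theorem rowC_sum_eval (p : ℕ) [Fact p.Prime] (P : (ZMod p)[X]) (hP : P.natDegree < 2 * (p - 1)) :
    ∑ x : ZMod p, P.eval x = - P.coeff (p - 1) := by
  classical
  have hp1 : 1 ≤ p - 1 := by
    have := (Fact.out : p.Prime).two_le
    omega
  have h1 : ∀ x : ZMod p, P.eval x = ∑ k ∈ Finset.range (2 * (p - 1)), P.coeff k * x ^ k := by
    intro x
    exact Polynomial.eval_eq_sum_range' hP x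
  simp only [h1]
  rw [Finset.sum_comm]
  have h2 : ∀ k ∈ Finset.range (2 * (p - 1)), ∑ x : ZMod p, P.coeff k * x ^ k =
      if k = p - 1 then - P.coeff (p - 1) else 0 := by
    intro k hk
    rw [← Finset.mul_sum, rowC_sum_pow]
    have hk' := Finset.mem_range.1 hk
    by_cases hkp : k = p - 1
    · have : k ≠ 0 ∧ p - 1 ∣ k := ⟨by omega, by rw [hkp]⟩
      rw [if_pos this, if_pos hkp, hkp, mul_neg, mul_one]
    · rw [if_neg hkp, if_neg, mul_zero]
      rintro ⟨hk0, ⟨c, hc⟩⟩
      have hc0 : c ≠ 0 := by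
        rintro rfl
        exact hk0 (by simpa using hc)
      have hc1 : c ≠ 1 := by
        rintro rfl
        exact hkp (by simpa using hc)
      have hc2 : 2 ≤ c := by omega
      have : (p - 1) * 2 ≤ (p - 1) * c := Nat.mul_le_mul_left _ hc2
      omega
  rw [Finset.sum_congr rfl h2, Finset.sum_ite_eq' , if_pos (Finset.mem_range.2 (by omega))]

theorem ap_mod (p : ℕ) [Fact p.Prime] (hp2 : p ≠ 2) : (p : ℤ) ∣ ap p - hc p := by
  classical
  have hp := (Fact.out : p.Prime)
  have hodd := (Nat.Prime.eq_two_or_odd hp).resolve_left hp2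
  have hp3 : 3 ≤ p := by
    have := hp.two_le
    omega
  rw [← ZMod.intCast_zmod_eq_zero_iff_dvd]
  set Q : ℤ[X] := (Polynomial.X * (2 * Polynomial.X ^ 2 - 2 * Polynomial.X + 1) : ℤ[X]) with hQ
  set P : (ZMod p)[X] := (Q ^ ((p - 1) / 2)).map (Int.castRingHom (ZMod p)) with hPdef
  have hdegQ : Q.natDegree ≤ 3 := by
    rw [hQ]
    compute_degree
  have hdegP : P.natDegree < 2 * (p - 1) := by
    have h1 : P.natDegree ≤ (Q ^ ((p - 1) / 2)).natDegree := Polynomial.natDegree_map_le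
    have h2 : (Q ^ ((p - 1) / 2)).natDegree ≤ (p - 1) / 2 * Q.natDegree := Polynomial.natDegree_pow_le
    have h3 : (p - 1) / 2 * Q.natDegree ≤ (p - 1) / 2 * 3 := Nat.mul_le_mul_left _ hdegQ
    omega
  have heval : ∀ x : ZMod p, P.eval x = (x * (2 * x ^ 2 - 2 * x + 1)) ^ ((p - 1) / 2) := by
    intro x
    rw [hPdef, Polynomial.map_pow, Polynomial.eval_pow, hQ]
    simp
  have hcoef : P.coeff (p - 1) = ((hc p : ℤ) : ZMod p) := by
    rw [hPdef, Polynomial.coeff_map]
    rfl
  have hs := rowC_sum_eval p P hdegP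
  rw [hcoef] at hs
  have hap : ((ap p : ℤ) : ZMod p) = - ∑ x : ZMod p, P.eval x := by
    rw [ap]
    push_cast
    congr 1
    refine Finset.sum_congr rfl fun x _ => ?_
    rw [heval, rowC_char p hp2]
  rw [Int.cast_sub, hap, hs]
  ring

theorem ap_abs (p : ℕ) [Fact p.Prime] : |ap p| ≤ p := by
  classical
  rw [ap, abs_neg]
  refine (Finset.abs_sum_le_sum_abs _ _).trans ?_
  have h1 : ∀ a : ZMod p, |quadraticChar (ZMod p) a| ≤ 1 := by
    intro a
    rcases quadraticChar_isQuadratic (ZMod p) a with h | h | h <;> rw [h] <;> norm_num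
  calc ∑ x : ZMod p, |quadraticChar (ZMod p) (x * (2 * x ^ 2 - 2 * x + 1))|
      ≤ ∑ _x : ZMod p, (1 : ℤ) := Finset.sum_le_sum fun x _ => h1 _
    _ = p := by simp [ZMod.card]

end E8G
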