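import Pool.Agent.E8G.Defs
import Pool.Agent.T5X.A3
import Pool.Agent.E8T.X1

/-!
# [E8G-C1] `∑_{n odd} σ(n) X^n = F = X ψ(X²)⁴`

From `D Δ = (1 - 24 ∑ σ(n) X^n) Δ` at `X`, `X²`, `X⁴`, all three written with `t = X ψ(X⁸)` and
`E = φ(X⁴)`, and the derivative law `dlog_phs`.
-/

set_option autoImplicit false

open PowerSeries
open N19 (ex psi phs)
open E8X (Sg Dl F Cc)

namespace E8G

theorem c1_D (f : PowerSeries ℤ) : NC11.D f = D f := rfl

theorem c1_mul (f g : PowerSeries ℤ) : D (f * g) = D f * g + f * D g := T5X.Dg_mul f g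

theorem c1_add (f g : PowerSeries ℤ) : D (f + g) = D f + D g := by
  ext n
  simp only [D, coeff_mk, map_add]
  ring

theorem c1_C (c : ℤ) : D (C c) = 0 := by
  ext n
  simp only [D, coeff_mk, coeff_C, map_zero]
  split_ifs with h
  · rw [h]
    simp
  · simp

/-- `E D f = (n D E + E a) f` -/
def c1L (E f : PowerSeries ℤ) (n : ℕ) (a : PowerSeries ℤ) : Prop :=
  E * D f = ((n : PowerSeries ℤ) * D E + E * a) * f

theorem c1L_mul {E f g a b : PowerSeries ℤ} {n m : ℕ} (hf : c1L E f n a) (hg : c1L E g m b) :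
    c1L E (f * g) (n + m) (a + b) := by
  unfold c1L at *
  rw [c1_mul]
  push_cast
  linear_combination g * hf + f * hg

theorem c1L_pow {E f a : PowerSeries ℤ} {n : ℕ} (hf : c1L E f n a) (k : ℕ) :
    c1L E (f ^ k) (k * n) ((k : PowerSeries ℤ) * a) := by
  induction k with
  | zero =>
    unfold c1L
    have h : D (1 : PowerSeries ℤ) = 0 := T5X.Dg_one
    simp [h]
  | succ k ih =>
    have h := c1L_mul ih hf
    rw [pow_succ]
    have e1 : k * n + n = (k + 1) * n := by ring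
    have e2 : (k : PowerSeries ℤ) * a + a = ((k + 1 : ℕ) : PowerSeries ℤ) * a := by push_cast; ring
    rw [e1, e2] at h
    exact h

/-- the conclusion for a homogeneous polynomial of degree `24` -/
theorem c1L_fin {E G a p : PowerSeries ℤ} {n : ℕ} (h : c1L E G n a) (hG : G ≠ 0) (hD : D G = p * G) :
    E * p = (n : PowerSeries ℤ) * D E + E * a := by
  unfold c1L at h
  rw [hD] at h
  apply mul_right_cancel₀ hG
  linear_combination h

theorem c1_alg {E t W p1 p2 p4 u : PowerSeries ℤ} (hE : E ≠ 0)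
    (hW : W = (E ^ 2 + 4 * t ^ 2) * (E ^ 2 - 4 * t ^ 2))
    (e1 : E * p1 = 24 * u + E * (W + 8 * t ^ 2 * (E ^ 2 - 4 * t ^ 2) + 4 * (2 * t * (E ^ 2 + 4 * t ^ 2) * (E - 2 * t))
      + 16 * (-(2 * t * (E ^ 2 + 4 * t ^ 2) * (E + 2 * t)))))
    (e2 : E * (2 * p2) = 24 * u + E * (2 * W + 2 * (8 * t ^ 2 * (E ^ 2 - 4 * t ^ 2)) + 8 * (-(8 * t ^ 2 * (E ^ 2 + 4 * t ^ 2)))))
    (e4 : E * (4 * p4) = 24 * u + E * (4 * W + 4 * (8 * t ^ 2 * (E ^ 2 - 4 * t ^ 2)) + 4 * (-(8 * t ^ 2 * (E ^ 2 + 4 * t ^ 2))))) :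
    2 * p1 - 6 * p2 + 4 * p4 = -48 * (t * E * (E ^ 2 + 4 * t ^ 2)) := by
  apply mul_left_cancel₀ hE
  subst hW
  linear_combination 2 * e1 - 3 * e2 + e4


/-! ### the relations between `X`, `X²`, `X⁴` -/

theorem c1_X : phs = ex 4 phs + 2 * (X * Cc) := by
  calc phs = ex 4 phs + 2 * X * Cc := E8X.r0
    _ = _ := by ring

theorem c1_ex2phs : ex 2 phs ^ 2 = ex 4 phs ^ 2 + 4 * (X * Cc) ^ 2 := by
  have := congrArg (ex 2) E8X.r2
  rw [E8X.ex_pow (by norm_num), E8X.ex_add, E8X.ex_mul (by norm_num), E8X.ex_mul (by norm_num),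
    E8X.ex_pow (by norm_num), E8X.ex_pow (by norm_num), E8X.ex_X (by norm_num),
    E8X.ex_ex (by norm_num) (by norm_num), E8X.ex_ex (by norm_num) (by norm_num), E8X.F2c_ex4] at this
  norm_num at this
  rw [this, Cc]
  ring

theorem c1_ex2F : ex 2 F = (X * Cc * ex 4 phs) ^ 2 := by
  have a2 : ex 4 psi ^ 2 = ex 4 phs * Cc := by
    have := congrArg (ex 4) E8X.r1
    rw [E8X.ex_pow (by norm_num), E8X.ex_mul (by norm_num), E8X.ex_ex (by norm_num) (by norm_num)] at this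
    norm_num at this
    exact this
  rw [F, E8X.ex_mul (by norm_num), E8X.ex_X (by norm_num), E8X.ex_pow (by norm_num),
    E8X.ex_ex (by norm_num) (by norm_num)]
  norm_num
  have h4 : ex 4 psi ^ 4 = (ex 4 psi ^ 2) ^ 2 := by ring
  rw [h4, a2]
  ring

theorem c1_ex4F : ex 4 F = (X * Cc) ^ 4 := by
  rw [F, E8X.ex_mul (by norm_num), E8X.ex_X (by norm_num), E8X.ex_pow (by norm_num),
    E8X.ex_ex (by norm_num) (by norm_num)]
  norm_num
  rw [Cc]
  ring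

theorem c1_ex16 (k : ℕ) (hk : 0 < k) : ex k (16 : PowerSeries ℤ) = 16 := by
  have h := E8X.ex_ofNat hk 16
  simpa using h

theorem c1_sub (k : ℕ) (f g : PowerSeries ℤ) : ex k (f - g) = ex k f - ex k g := by
  have h := E8X.ex_add k (f - g) g
  rw [sub_add_cancel] at h
  rw [h]
  ring

theorem c1_Dl (k : ℕ) (hk : 0 < k) : ex k Dl = ex k F * ex k phs ^ 4 * (ex k phs ^ 4 - 16 * ex k F) ^ 4 := by
  rw [Dl, E8X.ex_mul hk, E8X.ex_mul hk, E8X.ex_pow hk, E8X.ex_pow hk, c1_sub, E8X.ex_mul hk, E8X.ex_pow hk,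
    c1_ex16 k hk]

theorem c1_G2 : ex 2 Dl = (ex 4 phs) ^ 2 * (X * Cc) ^ 2 * (ex 4 phs ^ 2 + 4 * (X * Cc) ^ 2) ^ 2 *
    ((ex 4 phs ^ 2 - 4 * (X * Cc) ^ 2)) ^ 8 := by
  rw [c1_Dl 2 (by norm_num), c1_ex2F]
  have h4 : ex 2 phs ^ 4 = (ex 2 phs ^ 2) ^ 2 := by ring
  rw [h4, c1_ex2phs]
  ring

theorem c1_G4 : ex 4 Dl = (X * Cc) ^ 4 * (ex 4 phs) ^ 4 * (ex 4 phs ^ 2 + 4 * (X * Cc) ^ 2) ^ 4 *
    ((ex 4 phs ^ 2 - 4 * (X * Cc) ^ 2)) ^ 4 := by
  rw [c1_Dl 4 (by norm_num), c1_ex4F]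
  ring

theorem c1_const {k : ℕ} (f : PowerSeries ℤ) : coeff 0 (ex k f) = coeff 0 f := by
  rw [ex, coeff_mk, if_pos (dvd_zero k), Nat.zero_div]

theorem c1_E0 : coeff 0 (ex 4 phs) = 1 := by
  rw [c1_const, E8X.F2a_phs_coeff_zero]

theorem c1_Ene : ex 4 phs ≠ 0 := by
  intro h
  have := c1_E0
  rw [h, map_zero] at this
  exact absurd this (by norm_num)

theorem c1_tne : (X * Cc : PowerSeries ℤ) ≠ 0 := by
  intro h
  have h2 := c1_ex2phs
  have h1 := congrArg (coeff 1) (c1_X)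
  rw [h, mul_zero, add_zero] at h1
  have h3 : coeff 1 phs = 2 := E8X.F2a_phs_coeff_sq (k := 1) one_ne_zero rfl
  have h4 : coeff 1 (ex 4 phs) = 0 := by
    rw [ex, coeff_mk, if_neg (by norm_num)]
  rw [h3, h4] at h1
  exact absurd h1 (by norm_num)

theorem c1_ne_of_coeff {f : PowerSeries ℤ} (h : coeff 0 f = 1) : f ≠ 0 := by
  intro h0
  rw [h0, map_zero] at h
  exact absurd h (by norm_num)

/-! ### the derivative law -/

theorem c1_nat (n : ℕ) (f : PowerSeries ℤ) : D ((n : PowerSeries ℤ) * f) = (n : PowerSeries ℤ) * D f := by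
  have h : ((n : ℕ) : PowerSeries ℤ) = C (n : ℤ) := by simp
  rw [h, c1_mul, c1_C]
  ring

theorem c1_two (f : PowerSeries ℤ) : D (2 * f) = 2 * D f := by exact_mod_cast c1_nat 2 f

theorem c1_four (f : PowerSeries ℤ) : D (4 * f) = 4 * D f := by exact_mod_cast c1_nat 4 f

theorem c1_neg (f : PowerSeries ℤ) : D (-f) = - D f := by
  ext n
  simp only [D, coeff_mk, map_neg]
  ring

theorem c1_subD (f g : PowerSeries ℤ) : D (f - g) = D f - D g := by
  rw [sub_eq_add_neg, c1_add, c1_neg, sub_eq_add_neg]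

theorem c1_sq (f : PowerSeries ℤ) : D (f ^ 2) = 2 * f * D f := by
  rw [pow_two, c1_mul]
  ring

theorem c1_star (hA : D phs * phm - phs * D phm = 4 * (F * (phs * phm))) :
    ex 4 phs * D (X * Cc) = (D (ex 4 phs) + ex 4 phs * ((ex 4 phs ^ 2 + 4 * (X * Cc) ^ 2) *
      (ex 4 phs ^ 2 - 4 * (X * Cc) ^ 2))) * (X * Cc) := by
  have hm : phm = ex 4 phs - 2 * (X * Cc) := rfl
  have hp : D phs = D (ex 4 phs) + 2 * D (X * Cc) := by
    conv_lhs => rw [c1_X]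
    rw [c1_add, c1_two]
  have hdm : D phm = D (ex 4 phs) - 2 * D (X * Cc) := by
    rw [hm, c1_subD, c1_two]
  rw [hp, hdm, hm, E8X.F_eq] at hA
  have hphs := c1_X
  have h4 : (4 : PowerSeries ℤ) ≠ 0 := by
    intro h
    have h1 := congrArg (coeff 0) h
    rw [show (4 : PowerSeries ℤ) = C 4 by simp, coeff_C] at h1
    simp at h1
  apply mul_left_cancel₀ h4
  generalize X * Cc = t at *
  generalize D t = dt at *
  generalize D (ex 4 phs) = de at *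
  generalize ex 4 phs = E at *
  rw [hphs] at hA
  linear_combination hA

theorem c1_laws {E t : PowerSeries ℤ}
    (hs : E * D t = (D E + E * ((E ^ 2 + 4 * t ^ 2) * (E ^ 2 - 4 * t ^ 2))) * t) :
    c1L E E 1 0 ∧ c1L E t 1 ((E ^ 2 + 4 * t ^ 2) * (E ^ 2 - 4 * t ^ 2)) ∧
    c1L E (E + 2 * t) 1 (2 * t * (E ^ 2 + 4 * t ^ 2) * (E - 2 * t)) ∧
    c1L E (E - 2 * t) 1 (-(2 * t * (E ^ 2 + 4 * t ^ 2) * (E + 2 * t))) ∧
    c1L E (E ^ 2 + 4 * t ^ 2) 2 (8 * t ^ 2 * (E ^ 2 - 4 * t ^ 2)) ∧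
    c1L E (E ^ 2 - 4 * t ^ 2) 2 (-(8 * t ^ 2 * (E ^ 2 + 4 * t ^ 2))) := by
  unfold c1L
  refine ⟨?_, ?_, ?_, ?_, ?_, ?_⟩
  · push_cast; ring
  · push_cast; linear_combination hs
  · rw [c1_add, c1_two]; push_cast; linear_combination 2 * hs
  · rw [c1_subD, c1_two]; push_cast; linear_combination -2 * hs
  · rw [c1_add, c1_four, c1_sq, c1_sq]; push_cast; linear_combination 8 * t * hs
  · rw [c1_subD, c1_four, c1_sq, c1_sq]; push_cast; linear_combination -8 * t * hs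

theorem c1_lin (hA : D phs * phm - phs * D phm = 4 * (F * (phs * phm))) :
    2 * T5X.P - 6 * ex 2 T5X.P + 4 * ex 4 T5X.P = -48 * F := by
  obtain ⟨LE, Lt, Lp, Lm, Lq, Lr⟩ := c1_laws (c1_star hA)
  have hD1 : D Dl = T5X.P * Dl := T5X.D_Dl
  have hex : ∀ k : ℕ, 0 < k → D (ex k Dl) = ((k : PowerSeries ℤ) * ex k T5X.P) * ex k Dl := by
    intro k hk
    have h : D (ex k Dl) = C (k : ℤ) * ex k (D Dl) := E8T.D_ex hk Dl
    rw [h, hD1, E8X.ex_mul hk]
    have h2 : (C (k : ℤ) : PowerSeries ℤ) = (k : PowerSeries ℤ) := by simp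
    rw [h2]
    ring
  have hE := c1_Ene
  have hDl : Dl ≠ 0 := by
    intro h
    have := E8X.G1aT_Dl.1
    have h1 : coeff 1 Dl = 1 := E8X.G1aT_Dl.2.1
    rw [h, map_zero] at h1
    exact absurd h1 (by norm_num)
  have hDk : ∀ k : ℕ, 0 < k → ex k Dl ≠ 0 := by
    intro k hk h
    have h1 : coeff 1 Dl = 1 := E8X.G1aT_Dl.2.1
    have h2 := congrArg (coeff (k * 1)) h
    rw [ex, coeff_mk, if_pos (dvd_mul_right _ _), Nat.mul_div_cancel_left _ hk, h1, map_zero] at h2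
    exact absurd h2 (by norm_num)
  have g1 := c1L_mul (c1L_mul (c1L_mul (c1L_mul Lt LE) Lq) (c1L_pow Lp 4)) (c1L_pow Lm 16)
  rw [← E8X.Dl_eq] at g1
  have g2 := c1L_mul (c1L_mul (c1L_mul (c1L_pow LE 2) (c1L_pow Lt 2)) (c1L_pow Lq 2)) (c1L_pow Lr 8)
  rw [← c1_G2] at g2
  have g4 := c1L_mul (c1L_mul (c1L_mul (c1L_pow Lt 4) (c1L_pow LE 4)) (c1L_pow Lq 4)) (c1L_pow Lr 4)
  rw [← c1_G4] at g4
  have f1 := c1L_fin g1 hDl hD1
  have f2 := c1L_fin g2 (hDk 2 (by norm_num)) (hex 2 (by norm_num))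
  have f4 := c1L_fin g4 (hDk 4 (by norm_num)) (hex 4 (by norm_num))
  have key := c1_alg (p1 := T5X.P) (p2 := ex 2 T5X.P) (p4 := ex 4 T5X.P) (u := D (ex 4 phs)) (t := X * Cc)
    hE rfl (by push_cast at f1; linear_combination f1)
    (by push_cast at f2; linear_combination f2) (by push_cast at f4; linear_combination f4)
  rw [key, E8X.F_eq]

/-- `∑_{n odd} σ(n) X^n = F` -/
theorem F_sigma (hA : D phs * phm - phs * D phm = 4 * (F * (phs * phm))) {n : ℕ} (hn : n % 2 = 1) :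
    coeff n F = (ArithmeticFunction.sigma 1 n : ℤ) := by
  have h := congrArg (coeff n) (c1_lin hA)
  have e2 : ∀ f : PowerSeries ℤ, coeff n (ex 2 f) = 0 := by
    intro f
    rw [ex, coeff_mk, if_neg (by omega)]
  have e4 : ∀ f : PowerSeries ℤ, coeff n (ex 4 f) = 0 := by
    intro f
    rw [ex, coeff_mk, if_neg (by omega)]
  have hc : ∀ (k : ℕ) (f : PowerSeries ℤ), coeff n ((k : PowerSeries ℤ) * f) = (k : ℤ) * coeff n f := by
    intro k f
    have h : ((k : ℕ) : PowerSeries ℤ) = C (k : ℤ) := by simp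
    rw [h, coeff_C_mul]
  have h2 := hc 2 T5X.P
  have h6 := hc 6 (ex 2 T5X.P)
  have h44 := hc 4 (ex 4 T5X.P)
  have h48 := hc 48 F
  rw [e2] at h6
  rw [e4] at h44
  have hP : coeff n T5X.P = -24 * (ArithmeticFunction.sigma 1 n : ℤ) := by
    rw [T5X.P, map_sub, coeff_one, if_neg (by omega)]
    have h24 := hc 24 (Sg 1)
    push_cast at h24
    rw [h24, Sg, coeff_mk]
    ring
  rw [hP] at h2
  push_cast at h2 h6 h44 h48
  rw [neg_mul, map_neg, map_add, map_sub, h2, h6, h44, h48] at h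
  linarith

theorem F_prime (hA : D phs * phm - phs * D phm = 4 * (F * (phs * phm))) {p : ℕ} (hp : p.Prime) (h2 : p ≠ 2) :
    coeff p F = (p : ℤ) + 1 := by
  have ho : p % 2 = 1 := hp.eq_two_or_odd.resolve_left h2
  rw [F_sigma hA ho]
  have := E8X.g2_sigma hp 1
  rw [this]
  ring

end E8G
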