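import Pool.Agent.E8G.C1
import Pool.Agent.E8X.F3

/-!
# [E8G-C2] the class `7 mod 8` of `F`: `F = 8 N + 16 R`, with `N`, `R` nonnegative
-/

set_option autoImplicit false

open PowerSeries
open N19 (ex psi phs)
open E8X (Sg Dl F Cc Aa Bb Cls)

namespace E8G

/-- nonnegative coefficients -/
def c2N (f : PowerSeries ℤ) : Prop := ∀ n, 0 ≤ coeff n f

theorem c2N_mul {f g : PowerSeries ℤ} (hf : c2N f) (hg : c2N g) : c2N (f * g) := by
  intro n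
  rw [coeff_mul]
  exact Finset.sum_nonneg fun p _ => mul_nonneg (hf _) (hg _)

theorem c2N_ex {f : PowerSeries ℤ} (hf : c2N f) (k : ℕ) : c2N (ex k f) := by
  intro n
  rw [ex, coeff_mk]
  split_ifs
  · exact hf _
  · exact le_rfl

theorem c2N_X (k : ℕ) : c2N (X ^ k) := by
  intro n
  rw [coeff_X_pow]
  split_ifs <;> norm_num

theorem c2N_X1 : c2N X := by
  intro n
  rw [coeff_X]
  split_ifs <;> norm_num

theorem c2N_psi : c2N psi := by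
  intro n
  rw [psi, coeff_mk]
  split_ifs <;> norm_num

theorem c2N_phs : c2N phs := by
  intro n
  rw [phs, coeff_mk]
  split_ifs <;> norm_num

theorem R_nonneg (n : ℕ) : 0 ≤ coeff n R :=
  c2N_mul (c2N_mul (c2N_mul (c2N_mul c2N_X1 (c2N_ex c2N_psi 8)) (c2N_mul (c2N_X 2) (c2N_ex c2N_psi 16)))
    (c2N_mul (c2N_X 4) (c2N_ex c2N_psi 32))) (c2N_mul (c2N_X 8) (c2N_ex c2N_psi 64)) n

/-- `X ψ(X⁸) X² ψ(X¹⁶) X⁴ ψ(X³²) φ(X³²)` -/
noncomputable def N3 : PowerSeries ℤ :=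
  (X * ex 8 psi) * (X ^ 2 * ex 16 psi) * (X ^ 4 * ex 32 psi) * ex 32 phs

theorem N3_nonneg (n : ℕ) : 0 ≤ coeff n N3 :=
  c2N_mul (c2N_mul (c2N_mul (c2N_mul c2N_X1 (c2N_ex c2N_psi 8)) (c2N_mul (c2N_X 2) (c2N_ex c2N_psi 16)))
    (c2N_mul (c2N_X 4) (c2N_ex c2N_psi 32))) (c2N_ex c2N_phs 32) n

theorem c2_Cc : Cc ^ 2 = ex 8 phs * ex 16 psi := by
  have := congrArg (ex 8) E8X.r1
  rw [E8X.ex_pow (by norm_num), E8X.ex_mul (by norm_num), E8X.ex_ex (by norm_num) (by norm_num)] at this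
  norm_num at this
  exact this

theorem c2_ex8 : ex 8 phs = ex 32 phs + 2 * (X ^ 8 * ex 64 psi) := by
  have e2 : ex 8 phs = ex 8 (ex 4 phs + 2 * (X * Cc)) := congrArg _ c1_X
  rw [e2, E8X.ex_add, E8X.ex_mul (by norm_num), E8X.ex_mul (by norm_num), E8X.ex_X (by norm_num),
    E8X.ex_ex (by norm_num) (by norm_num), Cc, E8X.ex_ex (by norm_num) (by norm_num), E8X.F2c_ex2]

/-- `(X ψ(X⁸))³ X⁴ ψ(X³²) = N₃ + 2 R` -/
theorem c2_split : (X * Cc) ^ 3 * Bb = N3 + 2 * R := by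
  have h1 : (X * Cc) ^ 3 * Bb = X * Cc * (X ^ 2 * Cc ^ 2) * Bb := by ring
  rw [h1, c2_Cc, c2_ex8, N3, R, Bb, Cc]
  ring

theorem c2_F {n : ℕ} (hn : n % 8 = 7) : coeff n F = 8 * coeff n ((X * Cc) ^ 3 * Bb) := by
  have h : F = ex 4 phs ^ 3 * (X * Cc) ^ 1 + (4 : ℕ) • (ex 4 phs ^ 1 * (X * Cc) ^ 3) := by
    rw [E8X.F_eq, nsmul_eq_mul]
    push_cast
    ring
  have hQ : Cls 0 (2 : PowerSeries ℤ) := E8X.F3Cl.ofNat 8 2
  rw [h, map_add, map_nsmul, E8X.coeff_other hn (by norm_num), zero_add,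
    E8X.coeff_three hn (by norm_num) Aa 2 (by ring) E8X.cls_A hQ]
  have h2 : Bb * 2 * (X * Cc) ^ 3 = (2 : ℕ) • ((X * Cc) ^ 3 * Bb) := by
    rw [nsmul_eq_mul]
    push_cast
    ring
  rw [h2, map_nsmul]
  simp only [nsmul_eq_mul]
  push_cast
  ring

/-- For `n ≡ 7 mod 8`: `[X^n] F = 8 [X^n] N₃ + 16 [X^n] R`. -/
theorem F_seven {n : ℕ} (hn : n % 8 = 7) : coeff n F = 8 * coeff n N3 + 16 * coeff n R := by
  rw [c2_F hn, c2_split, map_add]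
  have h2 : (2 : PowerSeries ℤ) * R = (2 : ℕ) • R := by
    rw [nsmul_eq_mul]
    push_cast
    ring
  rw [h2, map_nsmul, nsmul_eq_mul]
  push_cast
  ring

theorem R_le_F {n : ℕ} (hn : n % 8 = 7) : 16 * coeff n R ≤ coeff n F := by
  have h := F_seven hn
  have h1 := N3_nonneg n
  linarith

theorem c2_bound (hA : D phs * phm - phs * D phm = 4 * (F * (phs * phm))) {p : ℕ} (hp : p.Prime)
    (hp7 : p % 8 = 7) : 16 * coeff p R ≤ (p : ℤ) + 1 := by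
  have h2 : p ≠ 2 := by
    rintro rfl
    norm_num at hp7
  rw [← F_prime hA hp h2]
  exact R_le_F hp7

end E8G
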