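import Mathlib

/-!
# [E8G-CF] the primes `p = X⁴ - 4 X² + 2`: the type of `p` in closed form

The roots of `x⁴ - 4x² + 2` mod `p` are `±X`, `±(X³ - 3X)`; the quadratic characters of `1 ± X`,
`1 ± (X³ - 3X)` follow from quadratic reciprocity.
-/

set_option autoImplicit false

open NumberTheorySymbols

namespace E8G

theorem cf_two {p : ℕ} (h : p % 8 = 7) : J(2 | p) = 1 := by
  rw [jacobiSym.at_two (Nat.odd_iff.2 (by omega)), ZMod.χ₈_nat_eq_if_mod_eight, if_neg (by omega), if_pos (by omega)]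

theorem cf_two3 {p : ℕ} (h : p % 8 = 3) : J(2 | p) = -1 := by
  rw [jacobiSym.at_two (Nat.odd_iff.2 (by omega)), ZMod.χ₈_nat_eq_if_mod_eight, if_neg (by omega), if_neg (by omega)]

theorem cf_neg1 {a : ℕ} (h : a % 4 = 1) : J(-1 | a) = 1 := by
  rw [jacobiSym.at_neg_one (Nat.odd_iff.2 (by omega)), ZMod.χ₄_nat_one_mod_four h]

theorem cf_neg3 {a : ℕ} (h : a % 4 = 3) : J(-1 | a) = -1 := by
  rw [jacobiSym.at_neg_one (Nat.odd_iff.2 (by omega)), ZMod.χ₄_nat_three_mod_four h]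

theorem cf_cong {x y : ℤ} {a : ℕ} (h : (a : ℤ) ∣ x - y) : J(x | a) = J(y | a) :=
  jacobiSym.mod_left' (Int.ModEq.symm (Int.modEq_iff_dvd.2 h))

/-- if `a ∣ p + 1`, `p ≡ 7 mod 8`, then `(a / p) = 1` -/
theorem cf_one {p : ℕ} (hp : p % 8 = 7) (a : ℕ) (ha : 0 < a) (h : (a : ℤ) ∣ (p : ℤ) + 1) : J(a | p) = 1 := by
  induction a using Nat.strong_induction_on with
  | _ a ih =>
    have hc : J(p | a) = J(-1 | a) := cf_cong (by rwa [sub_neg_eq_add])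
    rcases Nat.even_or_odd' a with ⟨b, rfl | rfl⟩
    · have hb : 0 < b := by omega
      have h1 := ih b (by omega) hb (by
        refine Dvd.dvd.trans ?_ h
        push_cast
        exact dvd_mul_left _ _)
      push_cast
      rw [jacobiSym.mul_left, cf_two hp, h1, one_mul]
    · have hodd : Odd p := Nat.odd_iff.2 (by omega)
      rcases Nat.even_or_odd' b with ⟨c, rfl | rfl⟩
      · rw [jacobiSym.quadratic_reciprocity_one_mod_four (by omega) hodd, hc, cf_neg1 (by omega)]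
      · rw [jacobiSym.quadratic_reciprocity_three_mod_four (by omega) (by omega), hc, cf_neg3 (by omega)]
        norm_num

/-- the value of `p` modulo `8` -/
theorem cf_p8 {X p : ℕ} (hX : X % 2 = 1) (hp : (p : ℤ) = X ^ 4 - 4 * X ^ 2 + 2) : p % 8 = 7 := by
  obtain ⟨k, rfl⟩ : ∃ k, X = 2 * k + 1 := ⟨X / 2, by omega⟩
  have h : ∃ j : ℤ, (p : ℤ) = 8 * j - 1 := by
    obtain ⟨j, hj⟩ : ∃ j : ℤ, (k : ℤ) * (k + 1) = 2 * j := by
      rcases Int.even_or_odd' (k : ℤ) with ⟨c, hc | hc⟩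
      · exact ⟨c * (k + 1), by rw [hc]; ring⟩
      · exact ⟨k * (c + 1), by rw [hc]; ring⟩
    refine ⟨(8 * j ^ 2 - 2 * j), ?_⟩
    rw [hp]
    push_cast
    have e : ((2 * (k : ℤ) + 1) ^ 4 - 4 * (2 * k + 1) ^ 2 + 2) = 16 * (k * (k + 1)) ^ 2 - 8 * (k * (k + 1)) - 1 := by
      ring
    rw [e, hj]
    ring
  obtain ⟨j, hj⟩ := h
  omega

/-- `(1 + X / p) = 1` -/
theorem cf_a {X p : ℕ} (hX : X % 2 = 1) (hp : (p : ℤ) = X ^ 4 - 4 * X ^ 2 + 2) : J((1 + X : ℤ) | p) = 1 := by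
  have h := cf_one (cf_p8 hX hp) (1 + X) (by omega) (by
    rw [hp]
    push_cast
    exact ⟨(X : ℤ) ^ 3 - X ^ 2 - 3 * X + 3, by ring⟩)
  push_cast at h
  exact h

/-- `(1 - X / p) = -1` -/
theorem cf_b {X p : ℕ} (hX : X % 2 = 1) (h1 : 1 < X) (hp : (p : ℤ) = X ^ 4 - 4 * X ^ 2 + 2) :
    J((1 - X : ℤ) | p) = -1 := by
  have h := cf_one (cf_p8 hX hp) (X - 1) (by omega) (by
    rw [hp, Nat.cast_sub h1.le]
    push_cast
    exact ⟨(X : ℤ) ^ 3 + X ^ 2 - 3 * X - 3, by ring⟩)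
  rw [Nat.cast_sub h1.le, Nat.cast_one] at h
  have h8 := cf_p8 hX hp
  have e : (1 - X : ℤ) = -1 * (X - 1) := by ring
  rw [e, jacobiSym.mul_left, cf_neg3 (by omega), h]
  norm_num

/-- `g = X³ - 3X + 1`, `p = X g - (X - 1)(X + 2)` -/
theorem cf_c {X p g : ℕ} (h8 : p % 8 = 7) (hp : (p : ℤ) = X ^ 4 - 4 * X ^ 2 + 2)
    (hg : (g : ℤ) = X ^ 3 - 3 * X + 1) (hg4 : g % 4 = 3) :
    J((g : ℤ) | p) = J((X - 1 : ℤ) | g) * J((X + 2 : ℤ) | g) := by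
  rw [jacobiSym.quadratic_reciprocity_three_mod_four hg4 (by omega)]
  have h1 : J((p : ℤ) | g) = J((-1 * ((X - 1) * (X + 2)) : ℤ) | g) := cf_cong ⟨(X : ℤ), by rw [hp, hg]; ring⟩
  rw [h1, jacobiSym.mul_left, jacobiSym.mul_left, cf_neg3 hg4]
  ring

theorem cf_g8 {X g : ℕ} (hX : X % 8 = 7) (hg : (g : ℤ) = X ^ 3 - 3 * X + 1) : g % 8 = 3 := by
  obtain ⟨k, rfl⟩ : ∃ k, X = 8 * k + 7 := ⟨X / 8, by omega⟩
  have h : ∃ j : ℤ, (g : ℤ) = 8 * j + 3 := by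
    refine ⟨64 * k ^ 3 + 168 * k ^ 2 + 144 * k + 40, ?_⟩
    rw [hg]
    push_cast
    ring
  obtain ⟨j, hj⟩ := h
  omega

theorem cf_g1 {X g : ℕ} (hX : X % 8 = 1) (hg : (g : ℤ) = X ^ 3 - 3 * X + 1) : g % 8 = 7 := by
  obtain ⟨k, rfl⟩ : ∃ k, X = 8 * k + 1 := ⟨X / 8, by omega⟩
  have h : ∃ j : ℤ, (g : ℤ) = 8 * j - 1 := by
    refine ⟨64 * k ^ 3 + 24 * k ^ 2, ?_⟩
    rw [hg]
    push_cast
    ring
  obtain ⟨j, hj⟩ := h
  omega

/-- `X ≡ 7 mod 8`: `(1 + X³ - 3X / p) = -1` -/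
theorem cf_d {X p g : ℕ} (hX : X % 8 = 7) (hp : (p : ℤ) = X ^ 4 - 4 * X ^ 2 + 2)
    (hg : (g : ℤ) = X ^ 3 - 3 * X + 1) : J((g : ℤ) | p) = -1 := by
  have hg3 := cf_g8 hX hg
  have hodd : Odd g := Nat.odd_iff.2 (by omega)
  rw [cf_c (cf_p8 (by omega) hp) hp hg (by omega)]
  have h2 : J((X + 2 : ℤ) | g) = 1 := by
    have e : ((X + 2 : ℕ) : ℤ) = (X : ℤ) + 2 := by push_cast; ring
    rw [← e, jacobiSym.quadratic_reciprocity_one_mod_four (by omega) hodd]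
    have h3 : J((g : ℤ) | (X + 2)) = J(-1 | (X + 2)) := cf_cong ⟨(X : ℤ) ^ 2 - 2 * X + 1, by
      rw [hg]; push_cast; ring⟩
    rw [h3, cf_neg1 (by omega)]
  have h1 : J((X - 1 : ℤ) | g) = -1 := by
    obtain ⟨w, hw⟩ : ∃ w, X = 2 * w + 1 := ⟨X / 2, by omega⟩
    have hw4 : w % 4 = 3 := by omega
    have e : (X - 1 : ℤ) = 2 * w := by rw [hw]; push_cast; ring
    rw [e, jacobiSym.mul_left, cf_two3 hg3, jacobiSym.quadratic_reciprocity_three_mod_four hw4 (by omega)]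
    have h3 : J((g : ℤ) | w) = J(-1 | w) := cf_cong ⟨8 * (w : ℤ) ^ 2 + 12 * w, by
      rw [hg, hw]; push_cast; ring⟩
    rw [h3, cf_neg3 hw4]
    norm_num
  rw [h1, h2]
  norm_num

/-- `X ≡ 1 mod 8`: `(1 + X³ - 3X / p) = 1` -/
theorem cf_e {X p g : ℕ} (hX : X % 8 = 1) (h1X : 1 < X) (hp : (p : ℤ) = X ^ 4 - 4 * X ^ 2 + 2)
    (hg : (g : ℤ) = X ^ 3 - 3 * X + 1) : J((g : ℤ) | p) = 1 := by
  have hg3 := cf_g1 hX hg
  rw [cf_c (cf_p8 (by omega) hp) hp hg (by omega)]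
  have h2 : J((X + 2 : ℤ) | g) = 1 := by
    have e : ((X + 2 : ℕ) : ℤ) = (X : ℤ) + 2 := by push_cast; ring
    rw [← e, jacobiSym.quadratic_reciprocity_three_mod_four (by omega) (by omega)]
    have h3 : J((g : ℤ) | (X + 2)) = J(-1 | (X + 2)) := cf_cong ⟨(X : ℤ) ^ 2 - 2 * X + 1, by
      rw [hg]; push_cast; ring⟩
    rw [h3, cf_neg3 (by omega)]
    norm_num
  have h1 : J((X - 1 : ℤ) | g) = 1 := by
    have h := cf_one hg3 (X - 1) (by omega) (by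
      rw [hg, Nat.cast_sub h1X.le]
      push_cast
      exact ⟨(X : ℤ) ^ 2 + X - 2, by ring⟩)
    rw [Nat.cast_sub h1X.le, Nat.cast_one] at h
    exact h
  rw [h1, h2]
  norm_num

/-! ### in `ZMod p` -/

theorem cf_chi {p : ℕ} [Fact p.Prime] (a : ℤ) : quadraticChar (ZMod p) (a : ZMod p) = J(a | p) := by
  rw [← jacobiSym.legendreSym.to_jacobiSym p a]
  rfl

/-- the common part: `σ = x² - 2`, `y = x³ - 3x` -/
theorem cf_common {p : ℕ} [Fact p.Prime] (h4 : p % 4 = 3) {x s τ : ZMod p} (hx : x ^ 4 - 4 * x ^ 2 + 2 = 0)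
    (ha : quadraticChar (ZMod p) (1 + x) = 1) (hb : quadraticChar (ZMod p) (1 - x) = -1)
    (hs : s ^ 2 = 2) (hs1 : IsSquare (1 + s)) (hτ : τ ^ 2 = 2 - s) :
    quadraticChar (ZMod p) (1 + τ) = quadraticChar (ZMod p) (1 + (x ^ 3 - 3 * x)) := by
  set χ := quadraticChar (ZMod p) with hχ
  have hm1 : χ (-1) = -1 := by
    have h := cf_chi (p := p) (-1)
    rw [cf_neg3 h4] at h
    push_cast at h
    exact h
  have hne : ∀ a : ZMod p, IsSquare a → χ a ≠ -1 := by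
    intro a h1 h2
    exact (quadraticChar_neg_one_iff_not_isSquare.1 h2) h1
  have h1 : χ (1 + (x ^ 2 - 2)) = 1 := by
    have e : (1 + x) * (1 - x) = (-1) * (1 + (x ^ 2 - 2)) := by ring
    have h := congrArg χ e
    rw [map_mul, map_mul, ha, hb, hm1] at h
    linarith
  have h2 : χ (1 - (x ^ 2 - 2)) = -1 := by
    have e : (1 + (x ^ 2 - 2)) * (1 - (x ^ 2 - 2)) = -1 := by linear_combination -hx
    have h := congrArg χ e
    rw [map_mul, h1, one_mul, hm1] at h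
    exact h
  have hss : s = x ^ 2 - 2 := by
    have e : (s - (x ^ 2 - 2)) * (s + (x ^ 2 - 2)) = 0 := by linear_combination hs - hx
    rcases mul_eq_zero.1 e with h | h
    · exact sub_eq_zero.1 h
    · exfalso
      have h3 : 1 + s = 1 - (x ^ 2 - 2) := by linear_combination h
      rw [h3] at hs1
      exact hne _ hs1 h2
  have h3 : χ ((x ^ 2 - 2) - 1) = 1 := by
    have e : (x ^ 2 - 2) - 1 = (-1) * (1 - (x ^ 2 - 2)) := by ring
    rw [e, map_mul, hm1, h2]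
    norm_num
  have h4' : χ (1 - (x ^ 3 - 3 * x)) = χ (1 + (x ^ 3 - 3 * x)) := by
    have e : (1 + (x ^ 3 - 3 * x)) * (1 - (x ^ 3 - 3 * x)) = (x ^ 2 - 2) - 1 := by
      linear_combination -(x ^ 2 - 2) * hx
    have h := congrArg χ e
    rw [map_mul, h3] at h
    have hd : χ (1 + (x ^ 3 - 3 * x)) = 0 ∨ χ (1 + (x ^ 3 - 3 * x)) = 1 ∨ χ (1 + (x ^ 3 - 3 * x)) = -1 := by
      by_cases h0 : (1 + (x ^ 3 - 3 * x)) = 0
      · left
        rw [h0, hχ, quadraticChar_zero]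
      · exact Or.inr (quadraticChar_dichotomy h0)
    rcases hd with h5 | h5 | h5
    · rw [h5] at h
      norm_num at h
    · rw [h5] at h ⊢
      linarith
    · rw [h5] at h ⊢
      linarith
  have hy : (τ - (x ^ 3 - 3 * x)) * (τ + (x ^ 3 - 3 * x)) = 0 := by
    rw [hss] at hτ
    linear_combination hτ - (x ^ 2 - 2) * hx
  rcases mul_eq_zero.1 hy with h | h
  · rw [sub_eq_zero.1 h]
  · have h5 : τ = -(x ^ 3 - 3 * x) := by linear_combination h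
    rw [h5, ← sub_eq_add_neg, h4']

theorem cf_cast {X p : ℕ} [Fact p.Prime] (hp : (p : ℤ) = X ^ 4 - 4 * X ^ 2 + 2) :
    (X : ZMod p) ^ 4 - 4 * (X : ZMod p) ^ 2 + 2 = 0 := by
  have h := congrArg (Int.cast : ℤ → ZMod p) hp
  push_cast at h
  rw [ZMod.natCast_self] at h
  exact h.symm

theorem cf_g {X : ℕ} (hX : 1 < X) : ∃ g : ℕ, (g : ℤ) = (X : ℤ) ^ 3 - 3 * X + 1 := by
  refine ⟨((X : ℤ) ^ 3 - 3 * X + 1).toNat, Int.toNat_of_nonneg ?_⟩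
  have h2 : (2 : ℤ) ≤ X := by exact_mod_cast hX
  nlinarith [mul_nonneg (by linarith : (0 : ℤ) ≤ X) (by nlinarith : (0 : ℤ) ≤ (X : ℤ) ^ 2 - 4)]

/-- `X ≡ 7 mod 8`: `1 + τ` is not a square: the octic has two roots mod `p = X⁴ - 4X² + 2`. -/
theorem cf_type7 {X p : ℕ} [Fact p.Prime] (hX : X % 8 = 7) (hp : (p : ℤ) = X ^ 4 - 4 * X ^ 2 + 2)
    {s τ : ZMod p} (hs : s ^ 2 = 2) (hs1 : IsSquare (1 + s)) (hτ : τ ^ 2 = 2 - s) :
    ¬ IsSquare (1 + τ) := by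
  have h8 := cf_p8 (by omega : X % 2 = 1) hp
  obtain ⟨g, hg⟩ := cf_g (X := X) (by omega)
  have ha := cf_chi (p := p) (1 + X : ℤ)
  have hb := cf_chi (p := p) (1 - X : ℤ)
  have hc := cf_chi (p := p) (g : ℤ)
  rw [cf_a (by omega) hp] at ha
  rw [cf_b (by omega) (by omega) hp] at hb
  rw [cf_d hX hp hg, hg] at hc
  push_cast at ha hb hc
  rw [← quadraticChar_neg_one_iff_not_isSquare,
    cf_common (by omega) (cf_cast hp) ha hb hs hs1 hτ, ← hc]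
  congr 1
  ring

/-- `X ≡ 1 mod 8`: `1 + τ` is a square. -/
theorem cf_type1 {X p : ℕ} [Fact p.Prime] (hX : X % 8 = 1) (h1X : 1 < X) (hp : (p : ℤ) = X ^ 4 - 4 * X ^ 2 + 2)
    {s τ : ZMod p} (hs : s ^ 2 = 2) (hs1 : IsSquare (1 + s)) (hτ : τ ^ 2 = 2 - s) :
    IsSquare (1 + τ) := by
  have h8 := cf_p8 (by omega : X % 2 = 1) hp
  obtain ⟨g, hg⟩ := cf_g (X := X) h1X
  have ha := cf_chi (p := p) (1 + X : ℤ)
  have hb := cf_chi (p := p) (1 - X : ℤ)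
  have hc := cf_chi (p := p) (g : ℤ)
  rw [cf_a (by omega) hp] at ha
  rw [cf_b (by omega) h1X hp] at hb
  rw [cf_e hX h1X hp hg, hg] at hc
  push_cast at ha hb hc
  have h1 : quadraticChar (ZMod p) (1 + τ) = 1 := by
    rw [cf_common (by omega) (cf_cast hp) ha hb hs hs1 hτ, ← hc]
    congr 1
    ring
  by_contra h
  rw [← quadraticChar_neg_one_iff_not_isSquare, h1] at h
  norm_num at h

/-- `X ≡ -1 mod 2^13`: `2^15 ∣ p + 1` -/
theorem cf_dvd {X p : ℕ} (hX : X % 8192 = 8191) (hp : (p : ℤ) = X ^ 4 - 4 * X ^ 2 + 2) : 2 ^ 15 ∣ p + 1 := by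
  obtain ⟨k, rfl⟩ : ∃ k, X = 8192 * k + 8191 := ⟨X / 8192, by omega⟩
  have h : (2 ^ 15 : ℤ) ∣ (p : ℤ) + 1 := by
    rw [hp]
    push_cast
    refine ⟨(k + 1) * (4096 * k + 4095) * (2 * (4096 * k + 4095) ^ 2 + 2 * (4096 * k + 4095) * 1 + (2 * (4096 * k + 4095) ^ 2 + 2 * (4096 * k + 4095)) - 2 * (4096 * k + 4095) ^ 2 - 2 * (4096 * k + 4095) - 1), ?_⟩
    ring
  exact_mod_cast h

/-- `X ≡ 1 + 2^12 mod 2^13`: `2^14` divides `p + 1` exactly. -/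
theorem cf_dvd14 {X p : ℕ} (hX : X % 8192 = 4097) (hp : (p : ℤ) = X ^ 4 - 4 * X ^ 2 + 2) :
    2 ^ 14 ∣ p + 1 ∧ ¬ 2 ^ 15 ∣ p + 1 := by
  obtain ⟨k, rfl⟩ : ∃ k, X = 8192 * k + 4097 := ⟨X / 8192, by omega⟩
  have h : ∃ j : ℤ, (p : ℤ) + 1 = 2 ^ 14 * (2 * j + 1) := by
    rw [hp]
    push_cast
    have o1 : Odd (2 * (k : ℤ) + 1) := ⟨k, rfl⟩
    have o2 : Odd (2048 * (2 * (k : ℤ) + 1) + 1) := ⟨1024 * (2 * (k : ℤ) + 1), by ring⟩
    have o3 : Odd (2 * (2048 * (2 * (k : ℤ) + 1)) ^ 2 + 2 * (2048 * (2 * (k : ℤ) + 1)) - 1) :=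
      ⟨(2048 * (2 * (k : ℤ) + 1)) ^ 2 + 2048 * (2 * (k : ℤ) + 1) - 1, by ring⟩
    have hm : ∃ a : ℤ, (2 * (k : ℤ) + 1) * (2048 * (2 * (k : ℤ) + 1) + 1) *
        (2 * (2048 * (2 * (k : ℤ) + 1)) ^ 2 + 2 * (2048 * (2 * (k : ℤ) + 1)) - 1) = 2 * a + 1 :=
      (o1.mul o2).mul o3
    obtain ⟨a, ha⟩ := hm
    refine ⟨a, ?_⟩
    rw [← ha]
    ring
  obtain ⟨j, hj⟩ := h
  constructor
  · have : ((2 ^ 14 : ℕ) : ℤ) ∣ ((p + 1 : ℕ) : ℤ) := by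
      push_cast
      rw [hj]
      exact dvd_mul_right _ _
    exact_mod_cast this
  · intro h2
    obtain ⟨c, hc⟩ := h2
    have h3 : ((p : ℤ) + 1) = 2 ^ 15 * c := by exact_mod_cast hc
    rw [hj] at h3
    have h4 : 2 * j + 1 = 2 * (c : ℤ) := by
      have h5 : (2 ^ 14 : ℤ) * (2 * j + 1) = 2 ^ 14 * (2 * c) := by rw [h3]; ring
      exact mul_left_cancel₀ (by norm_num) h5
    omega

end E8G
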