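import Pool.Agent.E8X.F2

/-!
# [E8G] the governing polynomial of the 2-adic digit: definitions
-/

set_option autoImplicit false

open PowerSeries
open N19 (ex psi phs)

namespace E8G

/-- `X d/dX` -/
noncomputable def D (f : PowerSeries ℤ) : PowerSeries ℤ := mk fun n => (n : ℤ) * coeff n f

/-- `φ(-X)` -/
noncomputable def phm : PowerSeries ℤ := ex 4 phs - 2 * (X * ex 8 psi)

/-- `∑_{a,b,c,d odd > 0} X^(a² + 2 b² + 4 c² + 8 d²)` -/
noncomputable def R : PowerSeries ℤ :=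
  (X * ex 8 psi) * (X ^ 2 * ex 16 psi) * (X ^ 4 * ex 32 psi) * (X ^ 8 * ex 64 psi)

/-- The newform of level `128`. -/
noncomputable def Ff : PowerSeries ℤ :=
  X * ex 8 phm * ex 8 psi * (ex 8 phs * ex 4 phm - 2 * (X ^ 2 * ex 16 psi * ex 4 phs))

/-- `- ∑ (x (2 x² - 2 x + 1) / p)` -/
noncomputable def ap (p : ℕ) [Fact p.Prime] : ℤ :=
  -∑ x : ZMod p, quadraticChar (ZMod p) (x * (2 * x ^ 2 - 2 * x + 1))

/-- The coefficient of `x^(p-1)` in `(x (2 x² - 2 x + 1))^((p-1)/2)`. -/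
noncomputable def hc (p : ℕ) : ℤ :=
  ((Polynomial.X * (2 * Polynomial.X ^ 2 - 2 * Polynomial.X + 1) : Polynomial ℤ) ^
    ((p - 1) / 2)).coeff (p - 1)

end E8G
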