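import Pool.Agent.E8G.Defs

/-!
# [E8G] row E1, E4, `four_ap`: the number of points of `Y² = X (X² - 2 X + 2)` over `F_p`
-/

set_option autoImplicit false

namespace E8G

/-- The curve `Y² = X (X² - 2 X + 2)`. -/
def W (p : ℕ) : WeierstrassCurve (ZMod p) where
  a₁ := 0
  a₂ := -2
  a₃ := 0
  a₄ := 2
  a₆ := 0

theorem e1_eq {p : ℕ} (x y : ZMod p) :
    (W p).toAffine.Equation x y ↔ y ^ 2 = x * (x ^ 2 - 2 * x + 2) := by
  rw [WeierstrassCurve.Affine.equation_iff]
  simp only [W]
  constructor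
  · intro h
    linear_combination h
  · intro h
    linear_combination h

theorem e1_disc (p : ℕ) : (W p).Δ = -256 := by
  simp only [WeierstrassCurve.Δ, WeierstrassCurve.b₂, WeierstrassCurve.b₄, WeierstrassCurve.b₆,
    WeierstrassCurve.b₈, W]
  ring

theorem e1_two_ne {p : ℕ} [Fact p.Prime] (hp2 : p ≠ 2) : (2 : ZMod p) ≠ 0 := by
  intro h
  have h1 : ((2 : ℕ) : ZMod p) = 0 := by exact_mod_cast h
  rw [ZMod.natCast_eq_zero_iff] at h1
  exact hp2 ((Nat.prime_dvd_prime_iff_eq (Fact.out) Nat.prime_two).1 h1)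

theorem e1_ns {p : ℕ} [Fact p.Prime] (hp2 : p ≠ 2) (x y : ZMod p) :
    (W p).toAffine.Nonsingular x y ↔ y ^ 2 = x * (x ^ 2 - 2 * x + 2) := by
  rw [← e1_eq]
  refine (WeierstrassCurve.Affine.equation_iff_nonsingular_of_Δ_ne_zero ?_).symm
  show (W p).Δ ≠ 0
  rw [e1_disc]
  have h2 := e1_two_ne hp2
  have : (-256 : ZMod p) = -(2 ^ 8) := by norm_num
  rw [this]
  exact neg_ne_zero.2 (pow_ne_zero _ h2)

/-- The sum over `X` equals the sum over `x = 1/X`. -/
theorem e1_sum (p : ℕ) [Fact p.Prime] :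
    ∑ x : ZMod p, quadraticChar (ZMod p) (x * (x ^ 2 - 2 * x + 2)) = - ap p := by
  unfold ap
  rw [neg_neg]
  refine Fintype.sum_equiv (Equiv.inv (ZMod p)) _ _ fun x => ?_
  rw [Equiv.inv_apply]
  by_cases hx : x = 0
  · subst hx
    simp
  · have h1 : x⁻¹ * (2 * x⁻¹ ^ 2 - 2 * x⁻¹ + 1) * (x ^ 2) ^ 2 = x * (x ^ 2 - 2 * x + 2) := by
      field_simp
      ring
    rw [← h1, map_mul, map_pow]
    have h2 : quadraticChar (ZMod p) (x ^ 2) = 1 := quadraticChar_sq_one' hx
    rw [h2]
    simp

instance e1_finite (p : ℕ) [Fact p.Prime] : Finite (W p).toAffine.Point := by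
  have : Finite (WithZero {xy : ZMod p × ZMod p // (W p).toAffine.Nonsingular xy.1 xy.2}) :=
    inferInstanceAs (Finite (Option _))
  exact Finite.of_equiv _ (WeierstrassCurve.Affine.nonsingularPointEquiv (W p).toAffine).symm

theorem e1_card {p : ℕ} [Fact p.Prime] (hp2 : p ≠ 2) :
    (Nat.card (W p).toAffine.Point : ℤ) = p + 1 - ap p := by
  classical
  have h1 : Nat.card (W p).toAffine.Point =
      Nat.card {xy : ZMod p × ZMod p // (W p).toAffine.Nonsingular xy.1 xy.2} + 1 := by
    rw [Nat.card_congr (WeierstrassCurve.Affine.nonsingularPointEquiv (W p).toAffine)]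
    exact Finite.card_option
  have h2 : Nat.card {xy : ZMod p × ZMod p // (W p).toAffine.Nonsingular xy.1 xy.2} =
      ∑ x : ZMod p, (Finset.univ.filter fun y : ZMod p => y ^ 2 = x * (x ^ 2 - 2 * x + 2)).card := by
    rw [Nat.card_eq_fintype_card, Fintype.card_subtype]
    rw [← Finset.card_sigma]
    refine Finset.card_bij (fun a _ => ⟨a.1, a.2⟩) ?_ ?_ ?_
    · intro a ha
      simp only [Finset.mem_filter, Finset.mem_univ, true_and] at ha
      simp only [Finset.mem_sigma, Finset.mem_filter, Finset.mem_univ, true_and]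
      exact (e1_ns hp2 _ _).1 ha
    · intro a _ b _ h
      simp only [Sigma.mk.injEq, heq_eq_eq] at h
      exact Prod.ext h.1 h.2
    · rintro ⟨x, y⟩ h
      simp only [Finset.mem_sigma, Finset.mem_filter, Finset.mem_univ, true_and] at h
      exact ⟨(x, y), by simpa using (e1_ns hp2 x y).2 h, rfl⟩
  have hc : ringChar (ZMod p) ≠ 2 := by rwa [ZMod.ringChar_zmod_n]
  have h3 : ∀ a : ZMod p, ((Finset.univ.filter fun y : ZMod p => y ^ 2 = a).card : ℤ) =
      quadraticChar (ZMod p) a + 1 := by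
    intro a
    rw [← quadraticChar_card_sqrts hc a]
    congr 2
    ext y
    simp
  rw [h1, h2]
  push_cast
  simp_rw [h3]
  rw [Finset.sum_add_distrib, e1_sum]
  simp only [Finset.sum_const, Finset.card_univ, ZMod.card, nsmul_eq_mul, mul_one]
  ring

/-! ## Finite groups with at most one element of order two -/

theorem e4_group (k : ℕ) : ∀ (G : Type) [AddCommGroup G] [Finite G],
    (∀ x y : G, x + x = 0 → y + y = 0 → x ≠ 0 → y ≠ 0 → x = y) →
    2 ^ k ∣ Nat.card G → ∃ x : G, addOrderOf x = 2 ^ k := by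
  induction k with
  | zero =>
    intro G _ _ _ _
    exact ⟨0, by simp⟩
  | succ k ih =>
    intro G _ _ hG hdvd
    have : Fact (Nat.Prime 2) := ⟨Nat.prime_two⟩
    obtain ⟨z, hz⟩ := exists_prime_addOrderOf_dvd_card' (G := G) 2 (Dvd.dvd.trans ⟨2 ^ k, by ring⟩ hdvd)
    rcases Nat.eq_zero_or_pos k with hk | hk
    · subst hk
      exact ⟨z, by simpa using hz⟩
    have hz0 : z ≠ 0 := by
      rintro rfl
      simp at hz
    have hzz : z + z = 0 := by
      have := addOrderOf_nsmul_eq_zero z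
      rwa [hz, two_nsmul] at this
    let f : G →+ G := nsmulAddMonoidHom 2
    have hf : ∀ x, f x = x + x := fun x => by
      show 2 • x = x + x
      exact two_nsmul x
    have hker : Nat.card f.ker = 2 := by
      have : (f.ker : Set G) = {0, z} := by
        ext x
        simp only [SetLike.mem_coe, AddMonoidHom.mem_ker, hf, Set.mem_insert_iff,
          Set.mem_singleton_iff]
        constructor
        · intro h
          by_cases hx : x = 0
          · exact Or.inl hx
          · exact Or.inr (hG x z h hzz hx hz0)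
        · rintro (rfl | rfl)
          · simp
          · exact hzz
      have h2 : Nat.card f.ker = Nat.card ({0, z} : Set G) := by
        rw [← this]
        rfl
      rw [h2, Nat.card_coe_set_eq, Set.ncard_pair hz0.symm]
    have hrange : Nat.card f.range * 2 = Nat.card G := by
      rw [← hker, ← AddSubgroup.index_ker f, mul_comm]
      exact AddSubgroup.card_mul_index f.ker
    obtain ⟨Q, hQ⟩ := ih f.range (by
      rintro ⟨x, hx⟩ ⟨y, hy⟩ h1 h2 h3 h4
      have := hG x y (by simpa [Subtype.ext_iff] using h1) (by simpa [Subtype.ext_iff] using h2)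
        (fun h => h3 (Subtype.ext h)) (fun h => h4 (Subtype.ext h))
      exact Subtype.ext this) (by
      rw [← hrange, pow_succ] at hdvd
      exact Nat.dvd_of_mul_dvd_mul_right (by norm_num) hdvd)
    obtain ⟨P, hP⟩ := Q.2
    rw [hf] at hP
    have hQ' : addOrderOf (P + P) = 2 ^ k := by
      rw [hP, AddSubgroup.addOrderOf_coe]
      exact hQ
    obtain ⟨j, rfl⟩ : ∃ j, k = j + 1 := ⟨k - 1, by omega⟩
    refine ⟨P, addOrderOf_eq_prime_pow ?_ ?_⟩
    · intro h
      have h1 : 2 ^ j • (P + P) = 0 := by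
        rw [← two_nsmul, ← mul_nsmul', ← pow_succ]
        exact h
      have h2 := addOrderOf_dvd_of_nsmul_eq_zero h1
      rw [hQ'] at h2
      exact absurd (Nat.le_of_dvd (by positivity) h2) (by
        rw [not_le]
        exact Nat.pow_lt_pow_right (by norm_num) (by omega))
    · have h1 : 2 ^ (j + 1) • (P + P) = 0 := by
        rw [← hQ']
        exact addOrderOf_nsmul_eq_zero _
      rw [← two_nsmul, ← mul_nsmul', ← pow_succ] at h1
      exact h1

/-! ## Two-torsion, doubling, and the number of points modulo powers of two -/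

section Curve

variable {p : ℕ} [Fact p.Prime]

theorem e4_noroot (hp4 : p % 4 = 3) (x : ZMod p) : x ^ 2 - 2 * x + 2 ≠ 0 := by
  intro h
  have h1 : (x - 1) ^ 2 = -1 := by linear_combination h
  exact ZMod.mod_four_ne_three_of_sq_eq_neg_one h1 hp4

theorem e1_negY (x y : ZMod p) : (W p).toAffine.negY x y = -y := by
  simp [WeierstrassCurve.Affine.negY, W]

theorem e4_torsion (hp2 : p ≠ 2) {P : (W p).toAffine.Point} (h : P + P = 0) (h0 : P ≠ 0) :
    ∃ (x : ZMod p) (hx : (W p).toAffine.Nonsingular x 0), P = .some x 0 hx ∧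
      x * (x ^ 2 - 2 * x + 2) = 0 := by
  rcases P with _ | ⟨x, y, hxy⟩
  · exact absurd rfl h0
  · have h1 := eq_neg_of_add_eq_zero_left h
    rw [WeierstrassCurve.Affine.Point.neg_some] at h1
    have h2 : y = (W p).toAffine.negY x y := by
      simpa using h1
    rw [e1_negY] at h2
    have h3 : 2 * y = 0 := by linear_combination h2
    have hy : y = 0 := (mul_eq_zero.1 h3).resolve_left (e1_two_ne hp2)
    subst hy
    refine ⟨x, hxy, rfl, ?_⟩
    have h4 := (e1_ns hp2 x 0).1 hxy
    linear_combination -h4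

theorem e4_unique (hp4 : p % 4 = 3) (P Q : (W p).toAffine.Point) (hP : P + P = 0) (hQ : Q + Q = 0)
    (hP0 : P ≠ 0) (hQ0 : Q ≠ 0) : P = Q := by
  have hp2 : p ≠ 2 := by rintro rfl; omega
  obtain ⟨x, hx, rfl, h1⟩ := e4_torsion hp2 hP hP0
  obtain ⟨y, hy, rfl, h2⟩ := e4_torsion hp2 hQ hQ0
  have h3 : x = 0 := (mul_eq_zero.1 h1).resolve_right (e4_noroot hp4 x)
  have h4 : y = 0 := (mul_eq_zero.1 h2).resolve_right (e4_noroot hp4 y)
  subst h3
  subst h4
  rfl

/-- The two-part of `E(F_p)` is cyclic. -/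
theorem e4_two_pow (hp4 : p % 4 = 3) (k : ℕ) :
    2 ^ k ∣ Nat.card (W p).toAffine.Point ↔ ∃ P : (W p).toAffine.Point, addOrderOf P = 2 ^ k := by
  constructor
  · exact e4_group k _ (e4_unique hp4)
  · rintro ⟨P, hP⟩
    rw [← hP]
    exact addOrderOf_dvd_natCard P

/-- `2^k ∣ p + 1 - a_p` iff there is a point of order `2^k`. -/
theorem e4_order (hp4 : p % 4 = 3) (k : ℕ) :
    (2 : ℤ) ^ k ∣ (p : ℤ) + 1 - ap p ↔
      ∃ P : (W p).toAffine.Point, addOrderOf P = 2 ^ k := by
  have hp2 : p ≠ 2 := by rintro rfl; omega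
  rw [← e4_two_pow hp4, ← e1_card hp2, ← Int.natCast_dvd_natCast]
  push_cast
  rfl

/-- The `x`-coordinate of the double of a point. -/
theorem e1_double (hp2 : p ≠ 2) {x y : ZMod p} (h : (W p).toAffine.Nonsingular x y) (hy : y ≠ 0) :
    ∃ (X Y : ZMod p) (h' : (W p).toAffine.Nonsingular X Y),
      X = ((x ^ 2 - 2) / (2 * y)) ^ 2 ∧
      (.some x y h + .some x y h : (W p).toAffine.Point) = .some X Y h' := by
  have h2 := e1_two_ne hp2
  have hyy : y ≠ (W p).toAffine.negY x y := by
    rw [e1_negY]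
    intro h1
    have h3 : 2 * y = 0 := by linear_combination h1
    exact (mul_ne_zero h2 hy) h3
  have he := (e1_ns hp2 x y).1 h
  refine ⟨_, _, _, ?_, WeierstrassCurve.Affine.Point.add_self_of_Y_ne hyy⟩
  rw [WeierstrassCurve.Affine.slope_of_Y_ne rfl hyy, e1_negY]
  simp only [WeierstrassCurve.Affine.addX, W]
  have h4 : y - -y = 2 * y := by ring
  rw [h4]
  field_simp
  linear_combination (8 - 8 * x) * he

/-- The only point of order two is `(0, 0)`, and it is divisible by two. -/
theorem e4_four (hp7 : p % 8 = 7) : ∃ P : (W p).toAffine.Point, addOrderOf P = 2 ^ 2 := by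
  have hp2 : p ≠ 2 := by rintro rfl; omega
  have h2 := e1_two_ne hp2
  obtain ⟨s, hs⟩ := (ZMod.exists_sq_eq_two_iff hp2).2 (Or.inr hp7)
  have hsq : ∃ s y : ZMod p, s ^ 2 = 2 ∧ y ^ 2 = s * (s ^ 2 - 2 * s + 2) ∧ y ≠ 0 := by
    have key : ∀ s y : ZMod p, s ^ 2 = 2 → s - 1 = y * y →
        ∃ s y : ZMod p, s ^ 2 = 2 ∧ y ^ 2 = s * (s ^ 2 - 2 * s + 2) ∧ y ≠ 0 := by
      intro s y hs hy
      refine ⟨s, 2 * y, hs, by linear_combination 4 * (- hy) + (2 - s) * hs, ?_⟩
      refine mul_ne_zero h2 ?_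
      rintro rfl
      have : s = 1 := by linear_combination hy
      subst this
      have : (1 : ZMod p) = 0 := by linear_combination -hs
      exact one_ne_zero this
    have hs' : s ^ 2 = 2 := by rw [sq]; exact hs.symm
    have hn : ¬ IsSquare (-1 : ZMod p) := by
      rw [ZMod.exists_sq_eq_neg_one_iff]
      omega
    have hm1 : (-1 : ZMod p) ≠ 0 := by simp
    by_cases h1 : IsSquare (s - 1)
    · obtain ⟨y, hy⟩ := h1
      exact key s y hs' hy
    · have h3 : IsSquare (-s - 1) := by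
        have hprod : (s - 1) * (-s - 1) = -1 := by linear_combination -hs'
        have hc1 : quadraticChar (ZMod p) (s - 1) = -1 :=
          quadraticChar_neg_one_iff_not_isSquare.2 h1
        have hc2 : quadraticChar (ZMod p) (-1) = -1 :=
          quadraticChar_neg_one_iff_not_isSquare.2 hn
        have hc3 : quadraticChar (ZMod p) (-s - 1) = 1 := by
          have := congrArg (quadraticChar (ZMod p)) hprod
          rw [map_mul, hc1, hc2] at this
          linarith
        have hne : -s - 1 ≠ 0 := by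
          intro h
          rw [h, mul_zero] at hprod
          exact hm1 hprod.symm
        exact (quadraticChar_one_iff_isSquare hne).1 hc3
      obtain ⟨y, hy⟩ := h3
      exact key (-s) y (by rw [neg_sq]; exact hs') hy
  obtain ⟨s, y, hs, hy, hy0⟩ := hsq
  have hns := (e1_ns hp2 s y).2 hy
  obtain ⟨X, Y, h', hX, hadd⟩ := e1_double hp2 hns hy0
  have hX0 : X = 0 := by
    rw [hX, hs]
    simp
  have hY0 : Y = 0 := by
    have := (e1_ns hp2 X Y).1 h'
    rw [hX0] at this
    simpa using this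
  refine ⟨.some s y hns, ?_⟩
  have : Fact (Nat.Prime 2) := ⟨Nat.prime_two⟩
  refine addOrderOf_eq_prime_pow (n := 1) ?_ ?_
  · rw [pow_one, two_nsmul, hadd]
    exact WeierstrassCurve.Affine.Point.some_ne_zero h'
  · have h1 : (2 ^ (1 + 1)) • (.some s y hns : (W p).toAffine.Point) =
        (.some s y hns + .some s y hns) + (.some s y hns + .some s y hns) := by
      rw [show (2 ^ (1 + 1) : ℕ) = 2 * 2 by norm_num, mul_nsmul, two_nsmul, two_nsmul]
    rw [h1, hadd]
    exact WeierstrassCurve.Affine.Point.add_self_of_Y_eq (by rw [e1_negY, hY0, neg_zero])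

theorem four_ap (hp7 : p % 8 = 7) : (4 : ℤ) ∣ ap p := by
  have h1 := (e4_order (by omega : p % 4 = 3) 2).2 (e4_four hp7)
  have h2 : (4 : ℤ) ∣ (p : ℤ) + 1 := by omega
  have h3 : (4 : ℤ) ∣ (p : ℤ) + 1 - ap p := by simpa using h1
  exact (Int.dvd_iff_dvd_of_dvd_sub h3).1 h2

end Curve

end E8G
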