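import Mathlib

/-!
# [E8G] E3: the algebra of the halving chain
-/

set_option autoImplicit false

namespace E8G

theorem e3_iff {F : Type*} [Field F] {a b c d : F} (ha : a ≠ 0) (hb : b ≠ 0) (hd : d ≠ 0)
    (h : a * b * d ^ 2 = c ^ 2) : IsSquare a ↔ IsSquare b := by
  have hc : c ≠ 0 := by
    rintro rfl
    have h1 : a * b * d ^ 2 ≠ 0 := mul_ne_zero (mul_ne_zero ha hb) (pow_ne_zero 2 hd)
    rw [h] at h1
    exact h1 (by ring)
  constructor
  · rintro ⟨x, hx⟩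
    refine ⟨c / (x * d), ?_⟩
    have hx0 : x ≠ 0 := by
      rintro rfl
      exact ha (by rw [hx]; ring)
    rw [hx] at h
    field_simp
    linear_combination h
  · rintro ⟨x, hx⟩
    refine ⟨c / (x * d), ?_⟩
    have hx0 : x ≠ 0 := by
      rintro rfl
      exact hb (by rw [hx]; ring)
    rw [hx] at h
    field_simp
    linear_combination h

section field

variable {F : Type*} [Field F] {s r τ V U Y Z : F}

/-- The element `τ'` with `V + 2 / V = 2 s (1 + τ')`. -/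
theorem e3_tau (h2 : (2 : F) ≠ 0) (hs : s ^ 2 = 2) (hV : V ≠ 0)
    (hY : Y ^ 2 = V * (V ^ 2 - 2 * V + 2)) (hd : (V ^ 2 - 2) ^ 2 = 4 * s * Y ^ 2) :
    ∃ t : F, t ^ 2 = 2 - s ∧ V ^ 2 + 2 = V * (2 * s * (1 + t)) := by
  have hs0 : s ≠ 0 := by
    rintro rfl
    exact h2 (by rw [← hs]; ring)
  refine ⟨(V ^ 2 + 2 - 2 * s * V) / (2 * s * V), ?_, ?_⟩
  · rw [div_pow, div_eq_iff (pow_ne_zero 2 (mul_ne_zero (mul_ne_zero h2 hs0) hV))]
    rw [hY] at hd
    linear_combination hd + (-(4 * V ^ 2) * (2 - s) + 4 * V ^ 2) * hs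
  · field_simp
    ring

theorem e3_w (h2 : (2 : F) ≠ 0) (hs : s ^ 2 = 2) (hr : s = r ^ 2) {t κ : F} (ht : t ^ 2 = 2 - s)
    (hκ : κ ^ 2 = 2 + t) (hVt : V ^ 2 + 2 = V * (2 * s * (1 + t))) :
    s * r * κ ≠ 0 ∧ ∃ w : F, V = w ^ 2 ∧ w * (s * r * κ) = w ^ 2 + s := by
  have hs0 : s ≠ 0 := by
    rintro rfl
    exact h2 (by rw [← hs]; ring)
  have hr0 : r ≠ 0 := by
    rintro rfl
    exact hs0 (by rw [hr]; ring)
  have hκ0 : κ ≠ 0 := by
    rintro rfl
    have h3 : t = -2 := by linear_combination -hκ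
    have h4 : s = -2 := by rw [h3] at ht; linear_combination ht
    exact h2 (by rw [h4] at hs; linear_combination hs)
  have h0 : s * r * κ ≠ 0 := mul_ne_zero (mul_ne_zero hs0 hr0) hκ0
  have h5 : (V + s) ^ 2 = V * (s * r * κ) ^ 2 := by
    have : (s * r * κ) ^ 2 = 2 * s * (2 + t) := by
      rw [mul_pow, mul_pow, hs, ← hr, hκ]
    rw [this]
    linear_combination hVt + hs
  refine ⟨h0, (V + s) / (s * r * κ), ?_, ?_⟩
  · rw [div_pow, h5]
    field_simp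
  · have h6 : ((V + s) / (s * r * κ)) ^ 2 = V := by
      rw [div_pow, h5]
      field_simp
    rw [h6]
    field_simp

theorem e3_sq8 (h2 : (2 : F) ≠ 0) (hs : s ^ 2 = 2) (hr : IsSquare s)
    (hsq : ∀ t : F, t ^ 2 = 2 - s → IsSquare (2 + t)) (hV : V ≠ 0)
    (hY : Y ^ 2 = V * (V ^ 2 - 2 * V + 2)) (hd : (V ^ 2 - 2) ^ 2 = 4 * s * Y ^ 2) :
    IsSquare V := by
  obtain ⟨r, hr⟩ := hr
  obtain ⟨t, ht, hVt⟩ := e3_tau h2 hs hV hY hd
  obtain ⟨κ, hκ⟩ := hsq t ht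
  obtain ⟨-, w, hw, -⟩ := e3_w (r := r) (κ := κ) h2 hs (by rw [hr]; ring) ht (by rw [hκ]; ring) hVt
  exact ⟨w, by rw [hw]; ring⟩

/-- The main identity -/
theorem e3_sq16 (h2 : (2 : F) ≠ 0) (hs : s ^ 2 = 2) (hr : IsSquare s) (hs1 : IsSquare (1 + s))
    (hτ : τ ^ 2 = 2 - s)
    (hsq : ∀ t : F, t ^ 2 = 2 - s → IsSquare (2 + t))
    (hl : ∀ θ l : F, θ ^ 2 = 2 + s → l ^ 2 = 2 + θ → IsSquare (2 + l))
    (hV : V ≠ 0) (hY : Y ^ 2 = V * (V ^ 2 - 2 * V + 2)) (hd : (V ^ 2 - 2) ^ 2 = 4 * s * Y ^ 2)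
    (hU : U ≠ 0) (hZ : Z ^ 2 = U * (U ^ 2 - 2 * U + 2)) (hd2 : (U ^ 2 - 2) ^ 2 = 4 * V * Z ^ 2) :
    IsSquare U ↔ IsSquare (1 + τ) := by
  obtain ⟨r, hr⟩ := hr
  have hr' : s = r ^ 2 := by rw [hr]; ring
  have hs0 : s ≠ 0 := by
    rintro rfl
    exact h2 (by rw [← hs]; ring)
  have hr0 : r ≠ 0 := by
    rintro rfl
    exact hs0 (by rw [hr]; ring)
  obtain ⟨t, ht, hVt⟩ := e3_tau h2 hs hV hY hd
  obtain ⟨κ, hκ⟩ := hsq t ht
  have hκ' : κ ^ 2 = 2 + t := by rw [hκ]; ring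
  obtain ⟨h0, w, hw, hwA⟩ := e3_w h2 hs hr' ht hκ' hVt
  have hκ0 : κ ≠ 0 := right_ne_zero_of_mul h0
  have hw0 : w ≠ 0 := by
    rintro rfl
    exact hV (by rw [hw]; ring)
  -- `κ'` with `κ κ' t = s`
  have hk' : ∃ κ' : F, κ' ^ 2 = 2 - t ∧ κ * κ' * t = s := by
    obtain ⟨k, hk⟩ := hsq (-t) (by rw [← ht]; ring)
    have hk2 : k ^ 2 = 2 - t := by rw [sq, ← hk]; ring
    have h1 : (κ * k * t) ^ 2 = s ^ 2 := by
      rw [mul_pow, mul_pow, hκ', hk2]
      have : (2 + t) * (2 - t) * t ^ 2 = (4 - t ^ 2) * t ^ 2 := by ring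
      rw [this, ht, hs]
      linear_combination -hs
    rcases sq_eq_sq_iff_eq_or_eq_neg.1 h1 with h | h
    · exact ⟨k, hk2, h⟩
    · exact ⟨-k, by rw [neg_sq]; exact hk2, by linear_combination -h⟩
  obtain ⟨κ', hk2, hkt⟩ := hk'
  set θ := κ * κ' with hθ
  have hθ2 : θ ^ 2 = 2 + s := by
    rw [hθ, mul_pow, hκ', hk2]
    linear_combination -ht
  have hθ0 : θ ≠ 0 := by
    intro h
    rw [h] at hkt
    exact hs0 (by rw [← hkt]; ring)
  have hne : s ≠ -2 := by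
    intro h
    exact h2 (by rw [h] at hs; linear_combination hs)
  have hne' : s ≠ 2 := by
    intro h
    exact h2 (by rw [h] at hs; linear_combination hs)
  -- `δ`
  have hδ : ∃ δ : F, δ ^ 2 = t ∧ U ^ 2 + 2 = 2 * V * U + 2 * U * w * r * κ * δ := by
    refine ⟨(U ^ 2 + 2 - 2 * V * U) / (2 * U * w * r * κ), ?_, ?_⟩
    · rw [div_pow, div_eq_iff (pow_ne_zero 2 (mul_ne_zero (mul_ne_zero (mul_ne_zero
        (mul_ne_zero h2 hU) hw0) hr0) hκ0))]
      have h3 : V ^ 2 - 2 * V + 2 = V * (s * t * κ ^ 2) := by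
        rw [hκ']
        linear_combination hVt - V * s * ht + V * hs
      have h4 : (2 * U * w * r * κ) ^ 2 = 4 * U ^ 2 * V * s * κ ^ 2 := by
        rw [hw, hr']
        ring
      rw [h4]
      rw [hZ] at hd2
      linear_combination hd2 + 4 * U ^ 2 * h3
    · field_simp
      ring
  obtain ⟨δ, hδt, hUδ⟩ := hδ
  -- `λ`
  set l := (κ + κ') / s with hl'
  have hls : κ + κ' = s * l := by
    rw [hl']
    field_simp
  have hl2 : l ^ 2 = 2 + θ := by
    have h3 : s ^ 2 * l ^ 2 = s ^ 2 * (2 + θ) := by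
      rw [← mul_pow, ← hls, hs, hθ]
      linear_combination hκ' + hk2
    exact mul_left_cancel₀ (pow_ne_zero 2 hs0) h3
  obtain ⟨μ, hμ⟩ := hl θ l hθ2 hl2
  have hμ2 : μ ^ 2 = 2 + l := by rw [hμ]; ring
  have hμ0 : μ ≠ 0 := by
    rintro rfl
    have h3 : l = -2 := by linear_combination -hμ2
    rw [h3] at hl2
    have h4 : θ = 2 := by linear_combination -hl2
    rw [h4] at hθ2
    exact hne' (by linear_combination -hθ2)
  -- the identities
  have I1 : (U + s) ^ 2 = 2 * U * w * r * κ * (s + δ) := by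
    linear_combination hUδ + hs - 2 * U * hwA + 2 * U * hw
  have I2 : (w + r) ^ 2 = w * r * s * (κ + s) := by
    rw [hr'] at hwA hs ⊢
    linear_combination -hwA - w * r * hs
  have I3 : (s + δ + κ') ^ 2 = 2 * (s + δ) * (s + κ') := by
    linear_combination hδt + hk2 - hs
  have I4 : (κ + s) * (s + κ') = l * (l + 2) := by
    linear_combination hs + s * hls + l * hs - hl2
  have I5 : κ * l = θ * (1 + t) := by
    have h3 : t + θ = s * θ := by
      apply mul_right_cancel₀ hθ0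
      linear_combination hkt + hθ2 - s * hθ2 - hs
    apply mul_left_cancel₀ hs0
    have h4 : s * (κ * l) = κ ^ 2 + θ := by rw [hθ]; linear_combination -κ * hls
    rw [h4, hκ']
    linear_combination h3 - s * hkt - hs
  have hsδ : s + δ ≠ 0 := by
    intro h
    have h3 : δ = -s := by linear_combination h
    rw [h3, neg_sq, hs] at hδt
    rw [← hδt] at ht
    exact hne (by linear_combination ht)
  have h1t : 1 + t ≠ 0 := by
    intro h
    have h3 : t = -1 := by linear_combination h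
    rw [h3] at ht
    have h4 : s = 1 := by linear_combination ht
    rw [h4] at hs
    apply one_ne_zero (α := F)
    linear_combination -hs
  have hδ0 : θ * δ ^ 2 = s := by rw [hδt]; exact hkt
  have key : U * (1 + t) * (2 * w * r * s * (s + δ) * μ) ^ 2
      = ((U + s) * (w + r) * (s + δ + κ') * δ) ^ 2 := by
    have e1 : ((U + s) * (w + r) * (s + δ + κ') * δ) ^ 2
        = (U + s) ^ 2 * (w + r) ^ 2 * (s + δ + κ') ^ 2 * δ ^ 2 := by ring
    rw [e1, I1, I2, I3]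
    have e2 : 2 * U * w * r * κ * (s + δ) * (w * r * s * (κ + s)) * (2 * (s + δ) * (s + κ')) * δ ^ 2
        = 4 * U * w ^ 2 * r ^ 2 * s * (s + δ) ^ 2 * κ * ((κ + s) * (s + κ')) * δ ^ 2 := by ring
    rw [e2, I4]
    have e3 : 4 * U * w ^ 2 * r ^ 2 * s * (s + δ) ^ 2 * κ * (l * (l + 2)) * δ ^ 2
        = 4 * U * w ^ 2 * r ^ 2 * s * (s + δ) ^ 2 * (κ * l) * (2 + l) * δ ^ 2 := by ring
    rw [e3, I5, ← hμ2]
    have e4 : 4 * U * w ^ 2 * r ^ 2 * s * (s + δ) ^ 2 * (θ * (1 + t)) * μ ^ 2 * δ ^ 2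
        = 4 * U * w ^ 2 * r ^ 2 * s * (s + δ) ^ 2 * (1 + t) * μ ^ 2 * (θ * δ ^ 2) := by ring
    rw [e4, hδ0]
    ring
  have hfin : IsSquare U ↔ IsSquare (1 + t) :=
    e3_iff hU h1t (mul_ne_zero (mul_ne_zero (mul_ne_zero (mul_ne_zero (mul_ne_zero h2 hw0) hr0) hs0)
      hsδ) hμ0) key
  rw [hfin]
  have htt : t ^ 2 = τ ^ 2 := by rw [ht, hτ]
  rcases sq_eq_sq_iff_eq_or_eq_neg.1 htt with h | h
  · rw [h]
  · obtain ⟨q, hq⟩ := hs1
    have h5 : (1 + t) * (1 + τ) * q ^ 2 = 1 ^ 2 := by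
      have h6 : q ^ 2 = 1 + s := by rw [hq]; ring
      rw [h6, h]
      linear_combination (-(1 + s)) * hτ + hs
    have hq0 : q ≠ 0 := by
      rintro rfl
      apply one_ne_zero (α := F)
      linear_combination -h5
    have h7 : 1 + τ ≠ 0 := by
      intro h8
      rw [h8] at h5
      apply one_ne_zero (α := F)
      linear_combination -h5
    exact e3_iff h1t h7 hq0 h5

end field

end E8G
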