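import Mathlib

/-!
# [E8G] E3L: squares in `ZMod p` from roots of unity of norm one
-/

set_option autoImplicit false

namespace E8G

theorem e3l_level {p : ℕ} [Fact p.Prime] {n : ℕ} (hn : 2 * n ∣ p + 1) {x : ZMod p}
    {ζ : AlgebraicClosure (ZMod p)} (hζ : ζ ^ n = 1) (hζ0 : ζ ≠ 0)
    (hx : algebraMap (ZMod p) (AlgebraicClosure (ZMod p)) x = ζ + ζ⁻¹) : IsSquare (2 + x) := by
  have hp2 : p ≠ 2 := by
    rintro rfl
    have : 2 ∣ 2 + 1 := (Dvd.intro _ rfl).trans hn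
    omega
  have hp : p.Prime := Fact.out
  have hodd : p % 2 = 1 := hp.eq_two_or_odd.resolve_left hp2
  by_cases h0 : 2 + x = 0
  · rw [h0]; exact ⟨0, by ring⟩
  obtain ⟨η, hη⟩ := IsAlgClosed.exists_pow_nat_eq ζ (n := 2) (by norm_num)
  have hη0 : η ≠ 0 := by
    rintro rfl
    apply hζ0
    rw [← hη]
    ring
  have h1 : η ^ (p + 1) = 1 := by
    obtain ⟨c, hc⟩ := hn
    rw [hc, pow_mul, pow_mul, hη, hζ, one_pow]
  have h2 : η ^ p = η⁻¹ := by
    rw [pow_succ] at h1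
    exact eq_inv_of_mul_eq_one_left h1
  have h3 : (η + η⁻¹) ^ p = η + η⁻¹ := by
    rw [add_pow_char, inv_pow, h2, inv_inv]
    ring
  have h4 : algebraMap (ZMod p) (AlgebraicClosure (ZMod p)) (2 + x) = (η + η⁻¹) ^ 2 := by
    rw [map_add, hx, ← hη, map_ofNat]
    field_simp
    ring
  have he : η + η⁻¹ ≠ 0 := by
    intro h
    rw [h, zero_pow (by norm_num), map_eq_zero] at h4
    exact h0 h4
  have h5 : (η + η⁻¹) ^ (p - 1) = 1 := by
    have h6 : (η + η⁻¹) ^ (p - 1) * (η + η⁻¹) = 1 * (η + η⁻¹) := by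
      rw [← pow_succ, Nat.sub_add_cancel hp.one_lt.le, h3, one_mul]
    exact mul_right_cancel₀ he h6
  rw [ZMod.euler_criterion p h0]
  apply (algebraMap (ZMod p) (AlgebraicClosure (ZMod p))).injective
  rw [map_pow, h4, map_one, ← pow_mul]
  have : 2 * (p / 2) = p - 1 := by omega
  rw [this, h5]

theorem e3l_root {p : ℕ} [Fact p.Prime] (hp2 : p ≠ 2) (x : ZMod p) :
    ∃ z y : AlgebraicClosure (ZMod p), z * y = 1 ∧
      z + y = algebraMap (ZMod p) (AlgebraicClosure (ZMod p)) x := by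
  have h2 : (2 : AlgebraicClosure (ZMod p)) ≠ 0 := by
    have h3 : (2 : ZMod p) ≠ 0 := by
      intro h
      have h4 : ((2 : ℕ) : ZMod p) = 0 := by exact_mod_cast h
      rw [ZMod.natCast_eq_zero_iff] at h4
      have := Nat.le_of_dvd (by norm_num) h4
      have h5 : 2 ≤ p := (Fact.out : p.Prime).two_le
      omega
    have h6 := (map_ne_zero (algebraMap (ZMod p) (AlgebraicClosure (ZMod p)))).2 h3
    rwa [map_ofNat] at h6
  set X := algebraMap (ZMod p) (AlgebraicClosure (ZMod p)) x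
  obtain ⟨d, hd⟩ := IsAlgClosed.exists_pow_nat_eq (X ^ 2 - 4) (n := 2) (by norm_num)
  refine ⟨(X + d) / 2, (X - d) / 2, ?_, ?_⟩
  · field_simp
    linear_combination -hd
  · field_simp
    ring

theorem e3l_16 {p : ℕ} [Fact p.Prime] (h : 16 ∣ p + 1) {s : ZMod p} (hs : s ^ 2 = 2) :
    IsSquare (2 + s) := by
  have hp2 : p ≠ 2 := by rintro rfl; omega
  obtain ⟨z, y, h1, h2⟩ := e3l_root hp2 s
  have hs' := congrArg (algebraMap (ZMod p) (AlgebraicClosure (ZMod p))) hs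
  rw [map_pow, map_ofNat, ← h2] at hs'
  have hy : y = z⁻¹ := eq_inv_of_mul_eq_one_right h1
  have h4 : z ^ 2 + y ^ 2 = 0 := by linear_combination hs' - 2 * h1
  have h8 : z ^ 4 = -1 := by
    have : z ^ 2 * (z ^ 2 + y ^ 2) = 0 := by rw [h4, mul_zero]
    linear_combination this - (z * y + 1) * h1
  apply e3l_level (n := 8) h (ζ := z) _ (left_ne_zero_of_mul_eq_one h1) (by rw [← h2, hy])
  linear_combination (z ^ 4 - 1) * h8

theorem e3l_32 {p : ℕ} [Fact p.Prime] (h : 32 ∣ p + 1) {s t : ZMod p} (hs : s ^ 2 = 2)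
    (ht : t ^ 2 = 2 + s) : IsSquare (2 + t) := by
  have hp2 : p ≠ 2 := by rintro rfl; omega
  obtain ⟨z, y, h1, h2⟩ := e3l_root hp2 t
  have hs' := congrArg (algebraMap (ZMod p) (AlgebraicClosure (ZMod p))) hs
  have ht' := congrArg (algebraMap (ZMod p) (AlgebraicClosure (ZMod p))) ht
  rw [map_pow, map_add, map_ofNat, ← h2] at ht'
  rw [map_pow, map_ofNat] at hs'
  set S := algebraMap (ZMod p) (AlgebraicClosure (ZMod p)) s
  have hy : y = z⁻¹ := eq_inv_of_mul_eq_one_right h1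
  have h3 : z ^ 2 + y ^ 2 = S := by linear_combination ht' - 2 * h1
  have h4 : z ^ 4 + y ^ 4 = 0 := by
    rw [← h3] at hs'
    linear_combination hs' - 2 * (z * y + 1) * h1
  have h8 : z ^ 8 = -1 := by
    have : z ^ 4 * (z ^ 4 + y ^ 4) = 0 := by rw [h4, mul_zero]
    linear_combination this - ((z * y) ^ 3 + (z * y) ^ 2 + z * y + 1) * h1
  apply e3l_level (n := 16) h (ζ := z) _ (left_ne_zero_of_mul_eq_one h1) (by rw [← h2, hy])
  linear_combination (z ^ 8 - 1) * h8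

theorem e3l_64 {p : ℕ} [Fact p.Prime] (h : 64 ∣ p + 1) {s t l : ZMod p} (hs : s ^ 2 = 2)
    (ht : t ^ 2 = 2 + s) (hl : l ^ 2 = 2 + t) : IsSquare (2 + l) := by
  have hp2 : p ≠ 2 := by rintro rfl; omega
  obtain ⟨z, y, h1, h2⟩ := e3l_root hp2 l
  have hs' := congrArg (algebraMap (ZMod p) (AlgebraicClosure (ZMod p))) hs
  have ht' := congrArg (algebraMap (ZMod p) (AlgebraicClosure (ZMod p))) ht
  have hl' := congrArg (algebraMap (ZMod p) (AlgebraicClosure (ZMod p))) hl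
  rw [map_pow, map_add, map_ofNat, ← h2] at hl'
  rw [map_pow, map_add, map_ofNat] at ht'
  rw [map_pow, map_ofNat] at hs'
  set S := algebraMap (ZMod p) (AlgebraicClosure (ZMod p)) s
  set T := algebraMap (ZMod p) (AlgebraicClosure (ZMod p)) t
  have hy : y = z⁻¹ := eq_inv_of_mul_eq_one_right h1
  have h3 : z ^ 2 + y ^ 2 = T := by linear_combination hl' - 2 * h1
  have h4 : z ^ 4 + y ^ 4 = S := by
    rw [← h3] at ht'
    linear_combination ht' - 2 * (z * y + 1) * h1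
  have h5 : z ^ 8 + y ^ 8 = 0 := by
    rw [← h4] at hs'
    linear_combination hs' - 2 * ((z * y) ^ 3 + (z * y) ^ 2 + z * y + 1) * h1
  have h8 : z ^ 16 = -1 := by
    have : z ^ 8 * (z ^ 8 + y ^ 8) = 0 := by rw [h5, mul_zero]
    linear_combination this - ((z * y) ^ 7 + (z * y) ^ 6 + (z * y) ^ 5 + (z * y) ^ 4 + (z * y) ^ 3
      + (z * y) ^ 2 + z * y + 1) * h1
  apply e3l_level (n := 32) h (ζ := z) _ (left_ne_zero_of_mul_eq_one h1) (by rw [← h2, hy])
  linear_combination (z ^ 16 - 1) * h8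

end E8G
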