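import Pool.Agent.E8G.P

/-!
# [E8G] the first open case of Lehmer's conjecture

`816212624008487344127999`, the smallest integer `n` for which `τ(n) ≠ 0` is not known from the
computation of Derickx, van Hoeij and Zeng, is prime, and `((x² - 1)² - 2)² - 2` has exactly six
roots modulo it.
-/

set_option autoImplicit false

namespace E8G

theorem L_q3 : Nat.Prime 1686225169 := by
  refine lucas_primality _ (11 : ZMod 1686225169) (by reduce_mod_char) ?_
  intro q hq hd
  have h : q ∣ 2 ^ 4 * (3 ^ 3 * 3903299) := hd
  have h1 : Nat.Prime 3903299 := by norm_num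
  rw [hq.dvd_mul, hq.dvd_mul] at h
  have h' : q = 2 ∨ q = 3 ∨ q = 3903299 := by
    rcases h with h | h | h
    · exact Or.inl ((Nat.prime_dvd_prime_iff_eq hq Nat.prime_two).1 (hq.dvd_of_dvd_pow h))
    · exact Or.inr (Or.inl ((Nat.prime_dvd_prime_iff_eq hq Nat.prime_three).1
        (hq.dvd_of_dvd_pow h)))
    · exact Or.inr (Or.inr ((Nat.prime_dvd_prime_iff_eq hq h1).1 h))
  rcases h' with rfl | rfl | rfl
  all_goals
    norm_num only
    reduce_mod_char
    decide

theorem L_q4 : Nat.Prime 1728085907 := by
  refine lucas_primality _ (2 : ZMod 1728085907) (by reduce_mod_char) ?_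
  intro q hq hd
  have h : q ∣ 2 * (1031 * 838063) := hd
  have h1 : Nat.Prime 1031 := by norm_num
  have h2 : Nat.Prime 838063 := by norm_num
  rw [hq.dvd_mul, hq.dvd_mul, Nat.prime_dvd_prime_iff_eq hq Nat.prime_two,
    Nat.prime_dvd_prime_iff_eq hq h1, Nat.prime_dvd_prime_iff_eq hq h2] at h
  rcases h with rfl | rfl | rfl
  all_goals
    norm_num only
    reduce_mod_char
    decide

theorem L_prime : Nat.Prime 816212624008487344127999 := by
  refine lucas_primality _ (11 : ZMod 816212624008487344127999) (by reduce_mod_char) ?_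
  intro q hq hd
  have h : q ∣ 2 * (140053 * (1686225169 * 1728085907)) := hd
  have h1 : Nat.Prime 140053 := by norm_num
  rw [hq.dvd_mul, hq.dvd_mul, hq.dvd_mul, Nat.prime_dvd_prime_iff_eq hq Nat.prime_two,
    Nat.prime_dvd_prime_iff_eq hq h1, Nat.prime_dvd_prime_iff_eq hq L_q3,
    Nat.prime_dvd_prime_iff_eq hq L_q4] at h
  rcases h with rfl | rfl | rfl | rfl
  all_goals
    norm_num only
    reduce_mod_char
    decide

instance : Fact (Nat.Prime 816212624008487344127999) := ⟨L_prime⟩

/-- It satisfies the classical congruences. -/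
theorem L_dvd : 2 ^ 14 * 3 ^ 7 * 5 ^ 3 * 7 ^ 2 * 691 ∣ 816212624008487344127999 + 1 ∧
    ¬ 2 ^ 15 ∣ 816212624008487344127999 + 1 := by
  norm_num

theorem L_23 : ¬ IsSquare ((816212624008487344127999 : ℕ) : ZMod 23) := by
  decide

theorem L_s : (568128030054322016683560 : ZMod 816212624008487344127999) ^ 2 = 2 := by
  reduce_mod_char

theorem L_s1 : IsSquare (1 + (568128030054322016683560 : ZMod 816212624008487344127999)) :=
  ⟨436758953958762293779103, by reduce_mod_char⟩

theorem L_t : (388533443205977873011964 : ZMod 816212624008487344127999) ^ 2 =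
    2 - 568128030054322016683560 := by
  reduce_mod_char

theorem L_t1 : IsSquare (1 + (388533443205977873011964 : ZMod 816212624008487344127999)) :=
  ⟨36970744302985695356204, by reduce_mod_char⟩

/-- `((x² - 1)² - 2)² - 2` has exactly six roots modulo `816212624008487344127999`. -/
theorem L_roots : (Finset.univ.filter fun x : ZMod 816212624008487344127999 =>
    ((x ^ 2 - 1) ^ 2 - 2) ^ 2 - 2 = 0).card = 6 :=
  (roots_of (by norm_num) L_s L_s1 L_t).1 L_t1

end E8G
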