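import Pool.Agent.E8G.Defs
import Pool.Agent.E8X.G2

/-!
# [E8G] row T16: `τ(p)` modulo `2^16` for the primes `p = 15 mod 16`
-/

set_option autoImplicit false

open PowerSeries
open N19 (ex psi phs)
open E8X (F Ss tau reps tau_seven g2_sigma)

namespace E8G

/-- `τ(p) = 705 (1 + p^11) + 4096 (1 + p^3) - 1536 (p + 1) + 1024 a_p mod 2^16`. -/
theorem t16_of {p : ℕ} [Fact p.Prime] (h16 : p % 16 = 15) {r w : ℤ}
    (hS : (4 : ℤ) ∣ coeff p Ss - r - 2 * w) (hW : 16 * (r + w) = (p : ℤ) + 1)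
    (hR : 32 * r = (p : ℤ) + 1 + 2 * ap p) :
    (65536 : ℤ) ∣ tau p - (705 * (1 + (p : ℤ) ^ 11) + 4096 * (1 + (p : ℤ) ^ 3) -
      1536 * ((p : ℤ) + 1) + 1024 * ap p) := by
  have hp : p.Prime := Fact.out
  have h := tau_seven (n := p) (by omega)
  rw [g2_sigma hp, g2_sigma hp] at h
  obtain ⟨k, hk⟩ := h
  obtain ⟨l, hl⟩ := hS
  refine ⟨4 * k - l, ?_⟩
  linear_combination hk - 16384 * hl - 2048 * hW + 512 * hR

/-- `τ(p) = 705 (1 + p^11) + 4096 (1 + p^3) + 512 (p + 1) + 1024 a_p mod 2^16` for `p = 7 mod 16`. -/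
theorem t16_seven_of {p : ℕ} [Fact p.Prime] (h8 : p % 8 = 7) {r w : ℤ}
    (hS : (4 : ℤ) ∣ coeff p Ss - r - 2 * w) (hW : r = w)
    (hR : 32 * r = (p : ℤ) + 1 + 2 * ap p) :
    (65536 : ℤ) ∣ tau p - (705 * (1 + (p : ℤ) ^ 11) + 4096 * (1 + (p : ℤ) ^ 3) +
      512 * ((p : ℤ) + 1) + 1024 * ap p) := by
  have hp : p.Prime := Fact.out
  have h := tau_seven (n := p) h8
  rw [g2_sigma hp, g2_sigma hp] at h
  obtain ⟨k, hk⟩ := h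
  obtain ⟨l, hl⟩ := hS
  refine ⟨4 * k - l - r, ?_⟩
  linear_combination hk - 16384 * hl + 32768 * hW + 512 * hR

/-- `τ(p) = 11 (p + 1) + 1024 a_p mod 2^16` for `p + 1 = 2^14 u`. -/
theorem t16_cor {p : ℕ} [Fact p.Prime] {u : ℤ} (hu : (p : ℤ) + 1 = 16384 * u)
    (h : (65536 : ℤ) ∣ tau p - (705 * (1 + (p : ℤ) ^ 11) + 4096 * (1 + (p : ℤ) ^ 3) -
      1536 * ((p : ℤ) + 1) + 1024 * ap p)) :
    (65536 : ℤ) ∣ tau p - (11 * ((p : ℤ) + 1) + 1024 * ap p) := by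
  obtain ⟨k, hk⟩ := h
  have hp' : (p : ℤ) = 16384 * u - 1 := by linarith
  have e11 : ∃ m : ℤ, 1 + (p : ℤ) ^ 11 = 11 * (16384 * u) + 65536 * m := by
    rw [hp']
    refine ⟨-55 * 4096 * u ^ 2 + 165 * 4096 * 16384 * u ^ 3 - 330 * 4096 * 16384 ^ 2 * u ^ 4 +
      462 * 4096 * 16384 ^ 3 * u ^ 5 - 462 * 4096 * 16384 ^ 4 * u ^ 6 +
      330 * 4096 * 16384 ^ 5 * u ^ 7 - 165 * 4096 * 16384 ^ 6 * u ^ 8 +
      55 * 4096 * 16384 ^ 7 * u ^ 9 - 11 * 4096 * 16384 ^ 8 * u ^ 10 +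
      4096 * 16384 ^ 9 * u ^ 11, ?_⟩
    ring
  have e3 : ∃ m : ℤ, 4096 * (1 + (p : ℤ) ^ 3) = 65536 * m := by
    rw [hp']
    refine ⟨1024 * (3 * u - 3 * 16384 * u ^ 2 + 16384 ^ 2 * u ^ 3), ?_⟩
    ring
  obtain ⟨m, hm⟩ := e11
  obtain ⟨m', hm'⟩ := e3
  refine ⟨k + 705 * m + m' + 11 * 16 * 11 * u - 384 * u, ?_⟩
  rw [hu] at hk ⊢
  linear_combination hk + 705 * hm + hm'

/-- `2^16 ∣ τ(p)` iff `a_p = 16 u mod 64`, for `p + 1 = 2^14 u`. -/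
theorem t16_iff {p : ℕ} [Fact p.Prime] {u : ℤ} (hu : (p : ℤ) + 1 = 16384 * u)
    (h : (65536 : ℤ) ∣ tau p - (11 * ((p : ℤ) + 1) + 1024 * ap p)) :
    (65536 : ℤ) ∣ tau p ↔ (64 : ℤ) ∣ ap p - 16 * u := by
  rw [hu] at h
  omega

end E8G
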