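import Pool.Agent.E8G.Fin
import Pool.Agent.E8G.T16
import Pool.Agent.E8G.CF
import Pool.Agent.E8G.LP
import Pool.Agent.E8X.G3

/-!
# [E8G] the final statements: primes with `τ(p) = 0`, shells which are no `8`-designs
-/

set_option autoImplicit false

open PowerSeries
open N19 (ex psi phs)
open E8X (F Ss tau reps tau_zero_prime tau_eq_zero prime_cond g2_reps)

namespace E8G

/-- the number of roots of `((x² - 1)² - 2)² - 2` modulo `p` -/
noncomputable def nr (p : ℕ) [Fact p.Prime] : ℕ :=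
  (Finset.univ.filter fun x : ZMod p => ((x ^ 2 - 1) ^ 2 - 2) ^ 2 - 2 = 0).card

/-- first digit: no hypothesis on `w` -/
theorem prime_first {p : ℕ} [Fact p.Prime] (h : tau p = 0) :
    ∃ u : ℕ, p + 1 = 2 ^ 14 * u ∧ (reps p).card ≡ 11 * u [MOD 16] ∧
      (Odd u → nr p = 2) ∧ (Even u → nr p = 6) := by
  have hp : p.Prime := Fact.out
  obtain ⟨z, hz, hs⟩ := prime_cond hp h
  have hz0 : 0 ≤ z := by
    have := hp.pos
    omega
  obtain ⟨u, rfl⟩ := Int.eq_ofNat_of_zero_le hz0
  have h1 : p + 1 = 2 ^ 14 * u := by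
    zify
    rw [hz]
    norm_num
  have e2 := Ss_mod p
  rw [g2_reps] at e2
  have e4 := parity (p := p) (by omega)
  refine ⟨u, h1, ?_, ?_, ?_⟩
  · rw [Nat.modEq_iff_dvd]
    push_cast
    rw [← dvd_neg]
    have e : -(11 * (u : ℤ) - ((reps p).card : ℤ)) = ((reps p).card : ℤ) - 11 * u := by ring
    rw [e]
    exact_mod_cast hs
  · intro ho
    rcases e4 with ⟨_, h5⟩ | ⟨h5, _⟩
    · exfalso
      obtain ⟨k, rfl⟩ := ho
      push_cast at hs
      omega
    · exact h5
  · intro he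
    rcases e4 with ⟨h5, _⟩ | ⟨_, h5⟩
    · exact h5
    · exfalso
      apply h5
      obtain ⟨k, rfl⟩ := he
      push_cast at hs
      omega

theorem design_first {m : ℕ} (hm : 0 < m) (hd : Pool.Agent.MP130199.IsDesign m 8) :
    ∃ p : ℕ, ∃ _ : Fact p.Prime, Odd (m.factorization p) ∧
      ∃ u : ℕ, p + 1 = 2 ^ 14 * u ∧ (reps p).card ≡ 11 * u [MOD 16] ∧
      (Odd u → nr p = 2) ∧ (Even u → nr p = 6) := by
  obtain ⟨p, hp, ho, h0⟩ := tau_zero_prime hm (tau_eq_zero hd)
  have : Fact p.Prime := ⟨hp⟩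
  exact ⟨p, this, ho, prime_first h0⟩

/-- a prime with `τ(p) ≠ 0` gives infinitely many shells without the design property -/
theorem not_design {p : ℕ} (hp : p.Prime) (h : tau p ≠ 0) {k : ℕ} (hk : 0 < k)
    (hq : ∀ q : ℕ, q.Prime → 2 ^ 14 ∣ q + 1 → Even (k.factorization q)) :
    ¬ Pool.Agent.MP130199.IsDesign (p * k) 8 := by
  intro hd
  obtain ⟨q, hq', ho, h0⟩ := tau_zero_prime (Nat.mul_pos hp.pos hk) (tau_eq_zero hd)
  rw [Nat.factorization_mul hp.ne_zero hk.ne', Finsupp.add_apply, hp.factorization] at ho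
  by_cases hpq : p = q
  · rw [hpq] at h
    exact h h0
  · rw [Finsupp.single_eq_of_ne (Ne.symm hpq), zero_add] at ho
    obtain ⟨z, hz, -⟩ := prime_cond hq' h0
    refine (Nat.not_odd_iff_even.2 (hq q hq' ?_)) ho
    have : (2 ^ 14 : ℤ) ∣ ((q + 1 : ℕ) : ℤ) := by
      push_cast
      rw [hz]
      exact ⟨z, by norm_num⟩
    exact_mod_cast this

/-- the first case left open by the published computations -/
theorem tau_L : tau 816212624008487344127999 ≠ 0 := by
  intro h
  obtain ⟨u, hu, -, h2, -⟩ := prime_first (p := 816212624008487344127999) h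
  have ho : Odd u := by
    by_contra hc
    rw [Nat.not_odd_iff_even] at hc
    obtain ⟨k, rfl⟩ := hc
    omega
  have h3 := h2 ho
  have h4 := L_roots
  rw [nr, h4] at h3
  omega

/-- the closed form families -/
theorem tau_X {X p : ℕ} [Fact p.Prime] (hp : (p : ℤ) = X ^ 4 - 4 * X ^ 2 + 2)
    (hX : X % 8192 = 8191 ∨ X % 8192 = 4097) : tau p ≠ 0 := by
  intro h
  obtain ⟨u, hu, -, h2, h6⟩ := prime_first (p := p) h
  obtain ⟨s, τ, hs, hs1, hτ, r6, r2⟩ := roots (p := p) (by omega)
  rcases hX with hX | hX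
  · have e1 := cf_type7 (by omega) hp hs hs1 hτ
    have e2 := cf_dvd hX hp
    have he : Even u := by
      rw [even_iff_two_dvd]
      omega
    have e3 := h6 he
    rw [nr, r2 e1] at e3
    omega
  · have e1 := cf_type1 (by omega) (by omega) hp hs hs1 hτ
    have e2 := (cf_dvd14 hX hp).2
    have ho : Odd u := by
      by_contra hc
      rw [Nat.not_odd_iff_even] at hc
      obtain ⟨k, rfl⟩ := hc
      omega
    have e3 := h2 ho
    rw [nr, r6 e1] at e3
    omega

end E8G
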