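import Pool.Agent.E8G.E1
import Pool.Agent.E8G.E3
import Pool.Agent.E8G.E3L

/-!
# [E8G] H: the row `halving`
-/

set_option autoImplicit false

open WeierstrassCurve.Affine (Point)

namespace E8G

section

variable {p : ℕ} [Fact p.Prime]

theorem h_two (hp2 : p ≠ 2) : (2 : ZMod p) ≠ 0 := by
  intro h
  have h4 : ((2 : ℕ) : ZMod p) = 0 := by exact_mod_cast h
  rw [ZMod.natCast_eq_zero_iff] at h4
  have h5 := Nat.le_of_dvd (by norm_num) h4
  have h6 : 2 ≤ p := (Fact.out : p.Prime).two_le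
  omega

theorem h_neg_one (hp4 : p % 4 = 3) : ¬ IsSquare (-1 : ZMod p) := by
  rw [ZMod.exists_sq_eq_neg_one_iff]
  omega

theorem h_pm (hp4 : p % 4 = 3) {a b : ZMod p} (hab : a * b = -1) : IsSquare a ∨ IsSquare b := by
  by_contra h
  push Not at h
  obtain ⟨ha, hb⟩ := h
  have hc : ringChar (ZMod p) ≠ 2 := by
    rw [ZMod.ringChar_zmod_n]
    omega
  have h1 := (quadraticChar_neg_one_iff_not_isSquare (F := ZMod p)).2 ha
  have h2 := (quadraticChar_neg_one_iff_not_isSquare (F := ZMod p)).2 hb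
  have h3 : quadraticChar (ZMod p) (a * b) = 1 := by
    rw [map_mul, h1, h2]
    norm_num
  rw [hab] at h3
  exact h_neg_one hp4 ((quadraticChar_one_iff_isSquare (by
    intro h
    exact one_ne_zero (α := ZMod p) (by linear_combination -h))).1 h3)

theorem h_negY (x y : ZMod p) : (W p).toAffine.negY x y = -y := by
  simp [WeierstrassCurve.Affine.negY, W]

theorem h_dbl (hp2 : p ≠ 2) {x y : ZMod p} (h : (W p).toAffine.Nonsingular x y)
    {Q : (W p).toAffine.Point} (hQ : 2 • Q = Point.some x y h) :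
    ∃ (V Y : ZMod p) (hV : (W p).toAffine.Nonsingular V Y), Q = Point.some V Y hV ∧ V ≠ 0 ∧ Y ≠ 0 ∧
      Y ^ 2 = V * (V ^ 2 - 2 * V + 2) ∧ (V ^ 2 - 2) ^ 2 = 4 * x * Y ^ 2 := by
  rw [two_nsmul] at hQ
  rcases Q with _ | ⟨V, Y, hV⟩
  · exfalso
    have h1 : (Point.zero : (W p).toAffine.Point) = 0 := rfl
    rw [h1, add_zero] at hQ
    exact absurd hQ.symm (by simp)
  · have hY : Y ≠ 0 := by
      rintro rfl
      rw [WeierstrassCurve.Affine.Point.add_self_of_Y_eq (by rw [h_negY]; ring)] at hQ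
      exact absurd hQ.symm (by simp)
    obtain ⟨X1, Y1, h1, hX, hadd⟩ := e1_double hp2 hV hY
    rw [hadd] at hQ
    have hXx : X1 = x := by
      have := hQ
      simp only [Point.some.injEq] at this
      exact this.1
    have hE := (e1_ns hp2 V Y).1 hV
    refine ⟨V, Y, hV, rfl, ?_, hY, hE, ?_⟩
    · rintro rfl
      apply hY
      have : Y ^ 2 = 0 := by rw [hE]; ring
      exact pow_eq_zero_iff (two_ne_zero) |>.1 this
    · rw [← hXx, hX, div_pow]
      have h2 := h_two hp2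
      field_simp
      ring

theorem h_half (hp8 : p % 8 = 7) {x y : ZMod p} (h : (W p).toAffine.Nonsingular x y) (hx : x ≠ 0)
    (hsq : IsSquare x) : ∃ Q : (W p).toAffine.Point, 2 • Q = Point.some x y h := by
  have hp2 : p ≠ 2 := by rintro rfl; omega
  have h2 := h_two hp2
  obtain ⟨w, hw⟩ := hsq
  have hw0 : w ≠ 0 := by rintro rfl; exact hx (by rw [hw]; ring)
  obtain ⟨s, hs⟩ : IsSquare (2 : ZMod p) := by
    rw [ZMod.exists_sq_eq_two_iff hp2]
    omega
  have hs0 : s ≠ 0 := by rintro rfl; exact h2 (by rw [hs]; ring)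
  have hE := (e1_ns hp2 x y).1 h
  have hu : (y / w) ^ 2 = x ^ 2 - 2 * x + 2 := by
    rw [div_pow, hE, hw]
    field_simp
  have key : ∃ u β : ZMod p, u ^ 2 = x ^ 2 - 2 * x + 2 ∧ x - 1 + u = β * β := by
    rcases h_pm (p := p) (by omega) (a := x - 1 + y / w) (b := x - 1 - y / w)
      (by linear_combination -hu) with ⟨β, hβ⟩ | ⟨β, hβ⟩
    · exact ⟨y / w, β, hu, hβ⟩
    · exact ⟨-(y / w), β, by rw [neg_sq]; exact hu, by rw [← hβ]; ring⟩
  obtain ⟨u, β, hu2, hβ⟩ := key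
  have hβ0 : β ≠ 0 := by
    rintro rfl
    have h3 : u = 1 - x := by linear_combination hβ
    rw [h3] at hu2
    exact one_ne_zero (α := ZMod p) (by linear_combination -hu2)
  set V := x + u + w * s * β with hV
  have hVV : V * (x + u - w * s * β) = 2 := by
    rw [hV]
    linear_combination hu2 + s ^ 2 * β ^ 2 * hw + x * β ^ 2 * hs + 2 * x * hβ
  have hV0 : V ≠ 0 := by
    intro h3
    rw [h3, zero_mul] at hVV
    exact h2 hVV.symm
  have hcurve : (s * β * V) ^ 2 = V * (V ^ 2 - 2 * V + 2) := by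
    have e1 : V ^ 2 - 2 * V + 2 = V * (2 * (x - 1 + u)) := by
      linear_combination -hVV + V * hV
    rw [e1, hβ]
    linear_combination -β ^ 2 * V ^ 2 * hs
  have hns := (e1_ns hp2 V (s * β * V)).2 hcurve
  have hY0 : s * β * V ≠ 0 := mul_ne_zero (mul_ne_zero hs0 hβ0) hV0
  obtain ⟨X1, Y1, h1, hX, hadd⟩ := e1_double hp2 hns hY0
  have hX1 : X1 = x := by
    rw [hX]
    have e2 : V ^ 2 - 2 = 2 * w * (s * β * V) := by
      linear_combination hVV + V * hV
    rw [e2]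
    have e3 : 2 * w * (s * β * V) / (2 * (s * β * V)) = w := by
      field_simp
    rw [e3, hw]
    ring
  subst hX1
  have hE1 := (e1_ns hp2 X1 Y1).1 h1
  rw [← hE] at hE1
  rcases sq_eq_sq_iff_eq_or_eq_neg.1 hE1 with h3 | h3
  · subst h3
    exact ⟨Point.some V (s * β * V) hns, by rw [two_nsmul]; exact hadd⟩
  · subst h3
    refine ⟨-Point.some V (s * β * V) hns, ?_⟩
    rw [neg_nsmul, two_nsmul, hadd, WeierstrassCurve.Affine.Point.neg_some]
    simp only [Point.some.injEq, true_and]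
    rw [h_negY, neg_neg]

theorem halving (h64 : 64 ∣ p + 1) {s τ : ZMod p} (hs : s ^ 2 = 2)
    (hs1 : IsSquare (1 + s)) (hτ : τ ^ 2 = 2 - s) :
    (32 : ℤ) ∣ (p : ℤ) + 1 - ap p ↔ IsSquare (1 + τ) := by
  have hp8 : p % 8 = 7 := by omega
  have hp4 : p % 4 = 3 := by omega
  have hp2 : p ≠ 2 := by rintro rfl; omega
  have h2 := h_two hp2
  have hs0 : s ≠ 0 := by rintro rfl; exact h2 (by rw [← hs]; ring)
  have hq0 : 1 + s ≠ 0 := by
    intro h
    have h3 : s = -1 := by linear_combination h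
    rw [h3] at hs
    exact one_ne_zero (α := ZMod p) (by linear_combination -hs)
  -- `s` is a square
  have hrs : IsSquare s := by
    obtain ⟨a, ha⟩ := e3l_16 (p := p) (by omega) hs
    obtain ⟨q, hq⟩ := hs1
    have hq1 : q ≠ 0 := by rintro rfl; exact hq0 (by rw [hq]; ring)
    refine ⟨a / q, ?_⟩
    have h3 : a / q * (a / q) = (a * a) / (q * q) := by field_simp
    rw [h3, ← ha, ← hq, eq_div_iff hq0]
    linear_combination hs
  have hns : ¬ IsSquare (-s) := by
    rintro ⟨a, ha⟩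
    obtain ⟨r, hr⟩ := hrs
    apply h_neg_one hp4
    have hr0 : r ≠ 0 := by rintro rfl; exact hs0 (by rw [hr]; ring)
    refine ⟨a / r, ?_⟩
    have h3 : a / r * (a / r) = (a * a) / (r * r) := by field_simp
    rw [h3, ← ha, ← hr]
    field_simp
  have hsq : ∀ t : ZMod p, t ^ 2 = 2 - s → IsSquare (2 + t) := fun t ht =>
    e3l_32 (p := p) (by omega) (s := -s) (by rw [neg_sq]; exact hs) (by rw [ht]; ring)
  have hl : ∀ θ l : ZMod p, θ ^ 2 = 2 + s → l ^ 2 = 2 + θ → IsSquare (2 + l) := fun θ l hθ hl =>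
    e3l_64 (p := p) h64 hs hθ hl
  have h5 : (32 : ℤ) = (2 : ℤ) ^ 5 := by norm_num
  rw [h5, e4_order hp4 5]
  constructor
  · rintro ⟨P5, hP5⟩
    have hne : (16 : ℕ) • P5 ≠ 0 := by
      intro h
      have := addOrderOf_dvd_of_nsmul_eq_zero h
      rw [hP5] at this
      omega
    have hze : (32 : ℕ) • P5 = 0 := by
      have := addOrderOf_nsmul_eq_zero P5
      rw [hP5] at this
      exact this
    -- `P1`
    have hP1 : ∃ h0 : (W p).toAffine.Nonsingular 0 0, 16 • P5 = Point.some 0 0 h0 := by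
      have hz : 2 • (16 • P5) = 0 := by rw [smul_smul]; exact hze
      generalize hR : 16 • P5 = R at hne hz
      rcases R with _ | ⟨x, y, h⟩
      · exact absurd rfl hne
      · have hy : y = 0 := by
          by_contra hy
          obtain ⟨X1, Y1, h1, -, hadd⟩ := e1_double hp2 h hy
          rw [two_nsmul, hadd] at hz
          exact absurd hz (by simp)
        subst hy
        have hE := (e1_ns hp2 x 0).1 h
        have hx : x = 0 := by
          by_contra hx
          have h6 : x ^ 2 - 2 * x + 2 = 0 := by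
            have : x * (x ^ 2 - 2 * x + 2) = 0 := by rw [← hE]; ring
            exact (mul_eq_zero.1 this).resolve_left hx
          exact h_neg_one hp4 ⟨x - 1, by linear_combination -h6⟩
        subst hx
        exact ⟨h, rfl⟩
    obtain ⟨h0, h0'⟩ := hP1
    obtain ⟨V2, Y2, n2, e2, -, hY2, -, hd2⟩ := h_dbl hp2 h0 (Q := 8 • P5) (by
      rw [smul_smul]; exact h0')
    have hV2 : V2 ^ 2 = 2 := by
      have : (V2 ^ 2 - 2) ^ 2 = 0 := by rw [hd2]; ring
      have := pow_eq_zero_iff (two_ne_zero) |>.1 this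
      linear_combination this
    obtain ⟨V3, Y3, n3, e3, hV3, hY3, hE3, hd3⟩ := h_dbl hp2 n2 (Q := 4 • P5) (by
      rw [smul_smul]; exact e2)
    have hV2s : IsSquare V2 := by
      refine ⟨(V3 ^ 2 - 2) / (2 * Y3), ?_⟩
      have h6 : V2 * (2 * Y3) ^ 2 = (V3 ^ 2 - 2) ^ 2 := by linear_combination -hd3
      field_simp
      linear_combination h6
    have hV2' : V2 = s := by
      have h6 : V2 ^ 2 = s ^ 2 := by rw [hV2, hs]
      rcases sq_eq_sq_iff_eq_or_eq_neg.1 h6 with h | h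
      · exact h
      · rw [h] at hV2s
        exact absurd hV2s hns
    rw [hV2'] at hd3
    obtain ⟨V4, Y4, n4, e4, hV4, hY4, hE4, hd4⟩ := h_dbl hp2 n3 (Q := 2 • P5) (by
      rw [smul_smul]; exact e3)
    obtain ⟨V5, Y5, n5, e5, hV5, hY5, hE5, hd5⟩ := h_dbl hp2 n4 (Q := P5) e4
    rw [← e3_sq16 h2 hs hrs hs1 hτ hsq hl hV3 hE3 hd3 hV4 hE4 hd4]
    refine ⟨(V5 ^ 2 - 2) / (2 * Y5), ?_⟩
    have h6 : V4 * (2 * Y5) ^ 2 = (V5 ^ 2 - 2) ^ 2 := by linear_combination -hd5
    field_simp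
    linear_combination h6
  · intro hsqτ
    -- `P2`
    obtain ⟨q, hq⟩ := hs1
    have hq1 : q ≠ 0 := by rintro rfl; exact hq0 (by rw [hq]; ring)
    have hE2 : (2 / q) ^ 2 = s * (s ^ 2 - 2 * s + 2) := by
      rw [div_pow]
      have : q ^ 2 = 1 + s := by rw [hq]; ring
      rw [this, div_eq_iff hq0]
      linear_combination (-(s ^ 2) + s - 2) * hs
    have n2 := (e1_ns hp2 s (2 / q)).2 hE2
    have hy2 : (2 : ZMod p) / q ≠ 0 := div_ne_zero h2 hq1
    obtain ⟨X1, Y1, n1, hX1, hadd1⟩ := e1_double hp2 n2 hy2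
    have hX1' : X1 = 0 := by
      rw [hX1, hs]
      simp
    subst hX1'
    have hY1 : Y1 = 0 := by
      have := (e1_ns hp2 0 Y1).1 n1
      have h6 : Y1 ^ 2 = 0 := by rw [this]; ring
      exact pow_eq_zero_iff (two_ne_zero) |>.1 h6
    subst hY1
    obtain ⟨P3, hP3⟩ := h_half hp8 n2 hs0 hrs
    obtain ⟨V3, Y3, n3, e3, hV3, hY3, hE3, hd3⟩ := h_dbl hp2 n2 hP3
    have hs3 := e3_sq8 h2 hs hrs hsq hV3 hE3 hd3
    obtain ⟨P4, hP4⟩ := h_half hp8 n3 hV3 hs3
    obtain ⟨V4, Y4, n4, e4, hV4, hY4, hE4, hd4⟩ := h_dbl hp2 n3 hP4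
    have hs4 := (e3_sq16 h2 hs hrs ⟨q, hq⟩ hτ hsq hl hV3 hE3 hd3 hV4 hE4 hd4).2 hsqτ
    obtain ⟨P5, hP5⟩ := h_half hp8 n4 hV4 hs4
    refine ⟨P5, ?_⟩
    have h16 : 16 • P5 = Point.some 0 0 n1 := by
      have h6 : 16 • P5 = 8 • (2 • P5) := by rw [smul_smul]; norm_num
      have h7 : 8 • P4 = 4 • (2 • P4) := by rw [smul_smul]; norm_num
      have h8 : 4 • P3 = 2 • (2 • P3) := by rw [smul_smul]; norm_num
      rw [h6, hP5, ← e4, h7, hP4, ← e3, h8, hP3, two_nsmul, hadd1]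
    have h32 : 32 • P5 = 0 := by
      have h6 : 32 • P5 = 2 • (16 • P5) := by rw [smul_smul]; norm_num
      rw [h6, h16, two_nsmul, WeierstrassCurve.Affine.Point.add_self_of_Y_eq (by rw [h_negY]; ring)]
    apply addOrderOf_eq_prime_pow (p := 2) (n := 4)
    · norm_num
      rw [h16]
      simp
    · norm_num
      exact h32

end

end E8G
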