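import Mathlib

/-!
# [E8G] row P: the roots of `((x² - 1)² - 2)² - 2` modulo `p`, for `p = -1 mod 16`
-/

set_option autoImplicit false

namespace E8G

theorem P_quartic {p : ℕ} [Fact p.Prime] (h16 : 16 ∣ p + 1) : ∃ b : ZMod p, (b ^ 2 - 2) ^ 2 = 2 := by
  set K := AlgebraicClosure (ZMod p) with hK
  have : CharP K p := charP_of_injective_algebraMap (algebraMap (ZMod p) K).injective p
  obtain ⟨z, hz⟩ := IsAlgClosed.exists_pow_nat_eq (-1 : K) (n := 8) (by norm_num)
  have hz0 : z ≠ 0 := by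
    rintro rfl
    norm_num at hz
  have hz16 : z ^ 16 = 1 := by
    calc z ^ 16 = (z ^ 8) ^ 2 := by ring
      _ = 1 := by rw [hz]; ring
  obtain ⟨k, hk⟩ := h16
  have hzp1 : z ^ (p + 1) = 1 := by rw [hk, pow_mul, hz16, one_pow]
  have hzp : z ^ p = z⁻¹ := by
    rw [pow_succ] at hzp1
    exact eq_inv_of_mul_eq_one_left hzp1
  have hzp' : (z⁻¹) ^ p = z := by rw [inv_pow, hzp, inv_inv]
  have hb : (z + z⁻¹) ^ p = z + z⁻¹ := by
    rw [add_pow_char, hzp, hzp', add_comm]
  have hbot := (Subfield.mem_bot_iff_pow_eq_self K p).2 hb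
  obtain ⟨n, hn⟩ := (mem_bot_iff_intCast p K).1 hbot
  refine ⟨(n : ZMod p), ?_⟩
  apply (algebraMap (ZMod p) K).injective
  rw [map_pow, map_sub, map_pow, map_intCast, hn, map_ofNat]
  have h1 : z * z⁻¹ = 1 := mul_inv_cancel₀ hz0
  generalize z⁻¹ = w at h1
  have h4 : w ^ 4 = -z ^ 4 := by
    calc w ^ 4 = -(w ^ 4 * z ^ 8) := by rw [hz]; ring
      _ = -(z ^ 4 * (z * w) ^ 4) := by ring
      _ = -z ^ 4 := by rw [h1]; ring
  linear_combination h4 + (2 * (z * w + 1) + 4 * (z ^ 2 + w ^ 2) + 4 * (z * w - 1)) * h1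

theorem P_card {p : ℕ} [Fact p.Prime] (hp2 : p ≠ 2) {v : ZMod p} (hv : v ≠ 0) :
    (IsSquare v → (Finset.univ.filter fun x : ZMod p => x ^ 2 = v).card = 2) ∧
      (¬ IsSquare v → (Finset.univ.filter fun x : ZMod p => x ^ 2 = v).card = 0) := by
  have h2 : (2 : ZMod p) ≠ 0 := by
    intro h
    have h3 : ((2 : ℕ) : ZMod p) = 0 := by exact_mod_cast h
    rw [ZMod.natCast_eq_zero_iff] at h3
    exact hp2 ((Nat.prime_dvd_prime_iff_eq Fact.out Nat.prime_two).1 h3)
  constructor
  · rintro ⟨a, ha⟩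
    have ha0 : a ≠ 0 := by
      rintro rfl
      exact hv (by rw [ha]; ring)
    have hne : a ≠ -a := by
      intro h
      have : 2 * a = 0 := by linear_combination h
      rcases mul_eq_zero.1 this with h | h
      · exact h2 h
      · exact ha0 h
    have : (Finset.univ.filter fun x : ZMod p => x ^ 2 = v) = {a, -a} := by
      ext x
      simp only [Finset.mem_filter, Finset.mem_univ, true_and, Finset.mem_insert,
        Finset.mem_singleton]
      constructor
      · intro hx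
        have : (x - a) * (x + a) = 0 := by linear_combination hx + ha
        rcases mul_eq_zero.1 this with h | h
        · exact Or.inl (by linear_combination h)
        · exact Or.inr (by linear_combination h)
      · rintro (rfl | rfl)
        · rw [ha]; ring
        · rw [ha]; ring
    rw [this, Finset.card_pair hne]
  · intro h
    rw [Finset.card_eq_zero, Finset.filter_eq_empty_iff]
    intro x _ hx
    exact h ⟨x, by rw [← hx]; ring⟩

/-- The residue symbols of the signs of the square roots of `2`. -/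
theorem P_signs {p : ℕ} [Fact p.Prime] (h16 : 16 ∣ p + 1) :
    (2 : ZMod p) ≠ 0 ∧ ¬ IsSquare (-1 : ZMod p) ∧
    (∀ x y : ZMod p, ¬ IsSquare (x * y) → (IsSquare x ∧ ¬ IsSquare y) ∨
      (¬ IsSquare x ∧ IsSquare y)) ∧
    (∀ s : ZMod p, s ^ 2 = 2 → IsSquare (2 + s) ∧ IsSquare (2 - s)) ∧
    ∃ s : ZMod p, s ^ 2 = 2 ∧ IsSquare (1 + s) := by
  have hp2 : p ≠ 2 := by
    rintro rfl
    omega
  have h2 : (2 : ZMod p) ≠ 0 := by
    intro h
    have h3 : ((2 : ℕ) : ZMod p) = 0 := by exact_mod_cast h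
    rw [ZMod.natCast_eq_zero_iff] at h3
    exact hp2 ((Nat.prime_dvd_prime_iff_eq Fact.out Nat.prime_two).1 h3)
  -- `-1` is not a square
  have hneg : ¬ IsSquare (-1 : ZMod p) := by
    rw [ZMod.exists_sq_eq_neg_one_iff]
    push Not
    omega
  -- a product which is not a square
  have hxor : ∀ x y : ZMod p, ¬ IsSquare (x * y) → (IsSquare x ∧ ¬ IsSquare y) ∨
      (¬ IsSquare x ∧ IsSquare y) := by
    intro x y hxy
    by_cases hx : IsSquare x
    · exact Or.inl ⟨hx, fun hy => hxy (hx.mul hy)⟩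
    · right
      refine ⟨hx, ?_⟩
      by_contra hy
      apply hxy
      have hx' := quadraticChar_neg_one_iff_not_isSquare.2 hx
      have hy' := quadraticChar_neg_one_iff_not_isSquare.2 hy
      have hx0 : x ≠ 0 := by rintro rfl; exact hx IsSquare.zero
      have hy0 : y ≠ 0 := by rintro rfl; exact hy IsSquare.zero
      rw [← quadraticChar_one_iff_isSquare (mul_ne_zero hx0 hy0), map_mul, hx', hy']
      norm_num
  obtain ⟨b, hb⟩ := P_quartic h16
  have hb0 : b ≠ 0 := by
    rintro rfl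
    apply h2
    linear_combination hb
  set s' := b ^ 2 - 2 with hs'
  have hs'0 : s' ≠ 0 := by
    intro h
    rw [h] at hb
    apply h2
    rw [← hb]; ring
  -- the sign of `s`
  have hall : ∀ s : ZMod p, s ^ 2 = 2 → IsSquare (2 + s) ∧ IsSquare (2 - s) := by
    have hm : IsSquare (2 - s') := ⟨s' / b, by
      field_simp
      linear_combination (-(2 - s')) * hs' - 2 * hb⟩
    have hpl : IsSquare (2 + s') := ⟨b, by rw [hs']; ring⟩
    intro s hs
    have : (s - s') * (s + s') = 0 := by linear_combination hs - hb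
    rcases mul_eq_zero.1 this with h | h
    · have : s = s' := by linear_combination h
      rw [this]
      exact ⟨hpl, hm⟩
    · have : s = -s' := by linear_combination h
      rw [this]
      refine ⟨by rw [← sub_eq_add_neg]; exact hm, by rw [sub_neg_eq_add]; exact hpl⟩
  have hex : ∃ s : ZMod p, s ^ 2 = 2 ∧ IsSquare (1 + s) := by
    have h1 : ¬ IsSquare ((1 + s') * (1 - s')) := by
      have : (1 + s') * (1 - s') = -1 := by linear_combination -hb
      rw [this]; exact hneg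
    rcases hxor _ _ h1 with ⟨h, -⟩ | ⟨-, h⟩
    · exact ⟨s', hb, h⟩
    · exact ⟨-s', by rw [neg_sq]; exact hb, by rw [← sub_eq_add_neg]; exact h⟩
  exact ⟨h2, hneg, hxor, hall, hex⟩

/-- The number of roots, for all admissible square roots `s`, `τ`. -/
theorem roots_of {p : ℕ} [Fact p.Prime] (h16 : 16 ∣ p + 1) {s τ : ZMod p} (hs : s ^ 2 = 2)
    (hs1 : IsSquare (1 + s)) (hτ2 : τ ^ 2 = 2 - s) :
    (IsSquare (1 + τ) →
      (Finset.univ.filter fun x : ZMod p => ((x ^ 2 - 1) ^ 2 - 2) ^ 2 - 2 = 0).card = 6) ∧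
    (¬ IsSquare (1 + τ) →
      (Finset.univ.filter fun x : ZMod p => ((x ^ 2 - 1) ^ 2 - 2) ^ 2 - 2 = 0).card = 2) := by
  have hp2 : p ≠ 2 := by
    rintro rfl
    omega
  obtain ⟨h2, hneg, hxor, hall, -⟩ := P_signs h16
  obtain ⟨⟨σ, hσ⟩, -⟩ := hall s hs
  have hσ2 : σ ^ 2 = 2 + s := by rw [hσ]; ring
  have hs0 : s ≠ 0 := by
    rintro rfl
    apply h2
    rw [← hs]; ring
  have hss : (1 + s) * (s - 1) = 1 := by linear_combination hs
  have h1s : 1 + s ≠ 0 := left_ne_zero_of_mul_eq_one hss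
  have hσ1 : (1 + σ) * (1 - σ) = -(1 + s) := by linear_combination -hσ2
  have hτ1 : (1 + τ) * (1 - τ) = s - 1 := by linear_combination -hτ2
  have hv1 : 1 + σ ≠ 0 ∧ 1 - σ ≠ 0 := by
    rw [← mul_ne_zero_iff, hσ1]
    exact neg_ne_zero.2 h1s
  have hv2 : 1 + τ ≠ 0 ∧ 1 - τ ≠ 0 := by
    rw [← mul_ne_zero_iff, hτ1]
    exact right_ne_zero_of_mul_eq_one hss
  have hσns : ¬ IsSquare ((1 + σ) * (1 - σ)) := by
    rw [hσ1]
    intro h
    apply hneg
    have : (-1 : ZMod p) = -(1 + s) * (s - 1) := by linear_combination hss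
    rw [this]
    refine h.mul ?_
    obtain ⟨c, hc⟩ := hs1
    refine ⟨c * (s - 1), ?_⟩
    linear_combination (-(s - 1)) * hss + (s - 1) ^ 2 * hc
  have hτs : IsSquare (1 + τ) ↔ IsSquare (1 - τ) := by
    obtain ⟨c, hc⟩ := hs1
    have hsq : IsSquare (s - 1) := by
      refine ⟨c * (s - 1), ?_⟩
      linear_combination (-(s - 1)) * hss + (s - 1) ^ 2 * hc
    have key : ∀ x y : ZMod p, x ≠ 0 → IsSquare (x * y) → IsSquare x → IsSquare y := by
      rintro x y hx ⟨u, hu⟩ ⟨v, hv⟩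
      have hv0 : v ≠ 0 := by
        rintro rfl
        exact hx (by rw [hv]; ring)
      refine ⟨u / v, ?_⟩
      field_simp
      linear_combination hu - y * hv
    constructor
    · exact key _ _ hv2.1 (by rw [hτ1]; exact hsq)
    · exact key _ _ hv2.2 (by rw [mul_comm, hτ1]; exact hsq)
  -- the count
  have hne1 : (1 + σ : ZMod p) ≠ 1 - σ := by
    intro h
    have : 2 * σ = 0 := by linear_combination h
    rcases mul_eq_zero.1 this with h | h
    · exact h2 h
    · rw [h] at hσ2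
      apply h2
      have : s = -2 := by linear_combination -hσ2
      rw [this] at hs
      linear_combination hs
  have hne2 : (1 + τ : ZMod p) ≠ 1 - τ := by
    intro h
    have : 2 * τ = 0 := by linear_combination h
    rcases mul_eq_zero.1 this with h | h
    · exact h2 h
    · rw [h] at hτ2
      apply h2
      have : s = 2 := by linear_combination hτ2
      rw [this] at hs
      linear_combination hs
  have hst : ∀ x y : ZMod p, x ^ 2 = 2 + s → y ^ 2 = 2 - s → x ≠ y := by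
    rintro x y hx hy rfl
    have : 2 * s = 0 := by linear_combination hy - hx
    rcases mul_eq_zero.1 this with h | h
    · exact h2 h
    · exact hs0 h
  have hset : (Finset.univ.filter fun x : ZMod p => ((x ^ 2 - 1) ^ 2 - 2) ^ 2 - 2 = 0) =
      ((Finset.univ.filter fun x : ZMod p => x ^ 2 = 1 + σ) ∪
        (Finset.univ.filter fun x : ZMod p => x ^ 2 = 1 - σ)) ∪
      ((Finset.univ.filter fun x : ZMod p => x ^ 2 = 1 + τ) ∪
        (Finset.univ.filter fun x : ZMod p => x ^ 2 = 1 - τ)) := by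
    ext x
    simp only [Finset.mem_filter, Finset.mem_univ, true_and, Finset.mem_union]
    have hf : ((x ^ 2 - 1) ^ 2 - 2) ^ 2 - 2 =
        ((x ^ 2 - (1 + σ)) * (x ^ 2 - (1 - σ))) * ((x ^ 2 - (1 + τ)) * (x ^ 2 - (1 - τ))) := by
      have e1 : (x ^ 2 - (1 + σ)) * (x ^ 2 - (1 - σ)) = (x ^ 2 - 1) ^ 2 - 2 - s := by
        linear_combination -hσ2
      have e2 : (x ^ 2 - (1 + τ)) * (x ^ 2 - (1 - τ)) = (x ^ 2 - 1) ^ 2 - 2 + s := by
        linear_combination -hτ2
      rw [e1, e2]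
      linear_combination hs
    rw [hf, mul_eq_zero, mul_eq_zero, mul_eq_zero, sub_eq_zero, sub_eq_zero, sub_eq_zero,
      sub_eq_zero]
  have hdisj : ∀ u v : ZMod p, u ≠ v → Disjoint (Finset.univ.filter fun x : ZMod p => x ^ 2 = u)
      (Finset.univ.filter fun x : ZMod p => x ^ 2 = v) := by
    intro u v huv
    rw [Finset.disjoint_filter]
    intro x _ hx hx'
    exact huv (hx.symm.trans hx')
  have hcard : (Finset.univ.filter fun x : ZMod p => ((x ^ 2 - 1) ^ 2 - 2) ^ 2 - 2 = 0).card =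
      ((Finset.univ.filter fun x : ZMod p => x ^ 2 = 1 + σ).card +
        (Finset.univ.filter fun x : ZMod p => x ^ 2 = 1 - σ).card) +
      ((Finset.univ.filter fun x : ZMod p => x ^ 2 = 1 + τ).card +
        (Finset.univ.filter fun x : ZMod p => x ^ 2 = 1 - τ).card) := by
    rw [hset, Finset.card_union_of_disjoint, Finset.card_union_of_disjoint,
      Finset.card_union_of_disjoint]
    · exact hdisj _ _ hne2
    · exact hdisj _ _ hne1
    · rw [Finset.disjoint_union_left, Finset.disjoint_union_right, Finset.disjoint_union_right]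
      have a1 : (1 + σ : ZMod p) ≠ 1 + τ := fun h => hst σ τ hσ2 hτ2 (by linear_combination h)
      have a2 : (1 + σ : ZMod p) ≠ 1 - τ := fun h =>
        hst σ (-τ) hσ2 (by rw [neg_sq]; exact hτ2) (by linear_combination h)
      have a3 : (1 - σ : ZMod p) ≠ 1 + τ := fun h =>
        hst (-σ) τ (by rw [neg_sq]; exact hσ2) hτ2 (by linear_combination h)
      have a4 : (1 - σ : ZMod p) ≠ 1 - τ := fun h => hst σ τ hσ2 hτ2 (by linear_combination -h)
      exact ⟨⟨hdisj _ _ a1, hdisj _ _ a2⟩, ⟨hdisj _ _ a3, hdisj _ _ a4⟩⟩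
  have hsig : (Finset.univ.filter fun x : ZMod p => x ^ 2 = 1 + σ).card +
        (Finset.univ.filter fun x : ZMod p => x ^ 2 = 1 - σ).card = 2 := by
    rcases hxor _ _ hσns with ⟨h, h'⟩ | ⟨h, h'⟩
    · rw [(P_card hp2 hv1.1).1 h, (P_card hp2 hv1.2).2 h']
    · rw [(P_card hp2 hv1.1).2 h, (P_card hp2 hv1.2).1 h']
  constructor
  · intro h
    rw [hcard, hsig, (P_card hp2 hv2.1).1 h, (P_card hp2 hv2.2).1 (hτs.1 h)]
  · intro h
    rw [hcard, hsig, (P_card hp2 hv2.1).2 h, (P_card hp2 hv2.2).2 (fun h' => h (hτs.2 h'))]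

theorem roots {p : ℕ} [Fact p.Prime] (h16 : 16 ∣ p + 1) : ∃ s τ : ZMod p, s ^ 2 = 2 ∧
    IsSquare (1 + s) ∧ τ ^ 2 = 2 - s ∧
    (IsSquare (1 + τ) →
      (Finset.univ.filter fun x : ZMod p => ((x ^ 2 - 1) ^ 2 - 2) ^ 2 - 2 = 0).card = 6) ∧
    (¬ IsSquare (1 + τ) →
      (Finset.univ.filter fun x : ZMod p => ((x ^ 2 - 1) ^ 2 - 2) ^ 2 - 2 = 0).card = 2) := by
  obtain ⟨h2, hneg, hxor, hall, s, hs, hs1⟩ := P_signs h16
  obtain ⟨-, ⟨τ, hτ⟩⟩ := hall s hs
  have hτ2 : τ ^ 2 = 2 - s := by rw [hτ]; ring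
  exact ⟨s, τ, hs, hs1, hτ2, roots_of h16 hs hs1 hτ2⟩

end E8G
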