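import Pool.Agent.E8G.Defs
import Pool.Agent.E8X.F4

/-!
# [E8G] row S: the parities of `s(n)` and `r(n)` agree
-/

set_option autoImplicit false

open PowerSeries
open N19 (ex psi phs)
open E8X (F Ss tau)

namespace E8G

/-- reduction modulo 2 -/
noncomputable def s_r2 : PowerSeries ℤ →+* PowerSeries (ZMod 2) :=
  PowerSeries.map (Int.castRingHom (ZMod 2))

theorem s_coeff_r2 (n : ℕ) (B : PowerSeries ℤ) :
    coeff n (s_r2 B) = ((coeff n B : ℤ) : ZMod 2) := by
  rw [s_r2, coeff_map]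
  rfl

theorem s_coeff_ex (k n : ℕ) (B : PowerSeries ℤ) :
    coeff n (ex k B) = if k ∣ n then coeff (n / k) B else 0 := by
  rw [ex, coeff_mk]

theorem s_r2_X : s_r2 X = X := by
  rw [s_r2, map_X]

theorem s_r2_phs (k : ℕ) (hk : 0 < k) : s_r2 (ex k phs) = 1 := by
  classical
  ext n
  rw [s_coeff_r2, s_coeff_ex, coeff_one]
  by_cases hn : n = 0
  · subst hn
    rw [if_pos (dvd_zero k), Nat.zero_div, if_pos rfl, phs, coeff_mk, if_pos rfl]
    rfl
  · rw [if_neg hn]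
    by_cases hd : k ∣ n
    · obtain ⟨m, rfl⟩ := hd
      have hm : m ≠ 0 := by
        rintro rfl
        exact hn (mul_zero k)
      rw [if_pos (dvd_mul_right k m), Nat.mul_div_cancel_left m hk, phs, coeff_mk, if_neg hm]
      by_cases h2 : ∃ k : ℕ, k * k = m
      · rw [if_pos h2]
        rfl
      · rw [if_neg h2]
        rfl
    · rw [if_neg hd]
      rfl

theorem s_sq (g : PowerSeries (ZMod 2)) : g ^ 2 = PowerSeries.expand 2 two_ne_zero g := by
  have h := MvPowerSeries.map_frobenius_expand (σ := Unit) (R := ZMod 2) 2 two_ne_zero (f := g)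
  rw [show (g ^ 2 : PowerSeries (ZMod 2)) = _ from h.symm, ZMod.frobenius_zmod]
  rw [MvPowerSeries.map_id]
  rfl

theorem s_ex (B : PowerSeries ℤ) : s_r2 (ex 2 B) = s_r2 B ^ 2 := by
  rw [s_sq]
  ext n
  rw [s_coeff_r2, s_coeff_ex]
  by_cases h : 2 ∣ n
  · obtain ⟨m, rfl⟩ := h
    rw [if_pos (dvd_mul_right 2 m), Nat.mul_div_cancel_left m two_pos,
      PowerSeries.coeff_expand_mul 2 two_ne_zero, s_coeff_r2]
  · rw [if_neg h, PowerSeries.coeff_expand_of_not_dvd 2 two_ne_zero _ h]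
    rfl

theorem s_ex2 {k : ℕ} (hk : 0 < k) (B : PowerSeries ℤ) : s_r2 (ex (2 * k) B) = s_r2 (ex k B) ^ 2 := by
  rw [← s_ex, E8X.ex_ex two_pos hk]

/-- **Row S.** -/
theorem Ss_mod (n : ℕ) : (2 : ℤ) ∣ coeff n Ss - coeff n R := by
  have h16 : s_r2 (ex 16 psi) = s_r2 (ex 8 psi) ^ 2 := s_ex2 (k := 8) (by norm_num) psi
  have h32 : s_r2 (ex 32 psi) = s_r2 (ex 8 psi) ^ 4 := by
    have := s_ex2 (k := 16) (by norm_num) psi
    rw [this, h16]
    ring
  have h64 : s_r2 (ex 64 psi) = s_r2 (ex 8 psi) ^ 8 := by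
    have := s_ex2 (k := 32) (by norm_num) psi
    rw [this, h32]
    ring
  have h1 : s_r2 Ss = s_r2 R := by
    unfold Ss R E8X.Cc E8X.Bb
    simp only [map_mul, map_pow, s_r2_X, s_r2_phs 8 (by norm_num), h16, h32, h64]
    ring
  have h2 : ((coeff n Ss - coeff n R : ℤ) : ZMod 2) = 0 := by
    rw [Int.cast_sub, ← s_coeff_r2, ← s_coeff_r2, h1, sub_self]
  exact (ZMod.intCast_zmod_eq_zero_iff_dvd _ 2).1 h2

end E8G
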