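import Pool.Agent.E8G.Defs
import Pool.Agent.E8X.G2

/-!
# [E8G] row T: `τ(p)` modulo `2^15` for `p = -1 mod 2^14`
-/

set_option autoImplicit false

open PowerSeries
open N19 (ex psi phs)
open E8X (F Ss tau reps tau_seven g2_sigma)

namespace E8G

/-- `τ(p) = 2^14 (u + r(p)) mod 2^15` for `p + 1 = 2^14 u`. -/
theorem tau_mod15 (hS : ∀ n, (2 : ℤ) ∣ coeff n Ss - coeff n R) {p : ℕ} (hp : p.Prime) {u : ℤ}
    (hu : (p : ℤ) + 1 = 16384 * u) : (32768 : ℤ) ∣ tau p - 16384 * (u + coeff p R) := by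
  have h8 : p % 8 = 7 := by omega
  have h := tau_seven h8
  rw [g2_sigma hp, g2_sigma hp] at h
  obtain ⟨k, hk⟩ := h
  obtain ⟨l, hl⟩ := hS p
  have hp' : (p : ℤ) = 16384 * u - 1 := by linarith
  have e11 : ∃ m : ℤ, 1 + (p : ℤ) ^ 11 = 11 * (16384 * u) + 32768 * m := by
    rw [hp']
    refine ⟨-55 * 8192 * u ^ 2 + 165 * 8192 * 16384 * u ^ 3 - 330 * 8192 * 16384 ^ 2 * u ^ 4 +
      462 * 8192 * 16384 ^ 3 * u ^ 5 - 462 * 8192 * 16384 ^ 4 * u ^ 6 +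
      330 * 8192 * 16384 ^ 5 * u ^ 7 - 165 * 8192 * 16384 ^ 6 * u ^ 8 +
      55 * 8192 * 16384 ^ 7 * u ^ 9 - 11 * 8192 * 16384 ^ 8 * u ^ 10 +
      8192 * 16384 ^ 9 * u ^ 11, ?_⟩
    ring
  have e3 : ∃ m : ℤ, 4096 * (1 + (p : ℤ) ^ 3) = 32768 * m := by
    rw [hp']
    refine ⟨2048 * (3 * u - 3 * 16384 * u ^ 2 + 16384 ^ 2 * u ^ 3), ?_⟩
    ring
  obtain ⟨m, hm⟩ := e11
  obtain ⟨m', hm'⟩ := e3
  refine ⟨8 * k + 705 * m + m' - l + 3877 * u - coeff p R, ?_⟩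
  linear_combination hk + 705 * hm + hm' - 16384 * hl

/-- `2^15 ∣ τ(p)` iff `u + r(p)` is even. -/
theorem tau_dvd (hS : ∀ n, (2 : ℤ) ∣ coeff n Ss - coeff n R) {p : ℕ} (hp : p.Prime) {u : ℤ}
    (hu : (p : ℤ) + 1 = 16384 * u) : (16384 : ℤ) ∣ tau p ∧
      ((32768 : ℤ) ∣ tau p ↔ (2 : ℤ) ∣ u + coeff p R) := by
  have h := tau_mod15 hS hp hu
  constructor <;> omega

/-- The number of roots modulo `p`, over the integers. -/
theorem card_roots (p : ℕ) [Fact p.Prime] :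
    ((Finset.range p).filter fun x : ℕ =>
      (p : ℤ) ∣ (((x : ℤ) ^ 2 - 1) ^ 2 - 2) ^ 2 - 2).card =
    (Finset.univ.filter fun x : ZMod p => ((x ^ 2 - 1) ^ 2 - 2) ^ 2 - 2 = 0).card := by
  have hp : 0 < p := (Fact.out : p.Prime).pos
  refine Finset.card_bij (fun x _ => (x : ZMod p)) (fun x hx => ?_) (fun x hx y hy h => ?_)
    fun y hy => ?_
  · have h := (Finset.mem_filter.1 hx).2
    refine Finset.mem_filter.2 ⟨Finset.mem_univ _, ?_⟩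
    have h2 := (ZMod.intCast_zmod_eq_zero_iff_dvd _ p).2 h
    push_cast at h2
    exact h2
  · have hx' := Finset.mem_range.1 (Finset.mem_filter.1 hx).1
    have hy' := Finset.mem_range.1 (Finset.mem_filter.1 hy).1
    have h2 : (x : ZMod p) = (y : ZMod p) := h
    rw [ZMod.natCast_eq_natCast_iff'] at h2
    rwa [Nat.mod_eq_of_lt hx', Nat.mod_eq_of_lt hy'] at h2
  · have h := (Finset.mem_filter.1 hy).2
    refine ⟨y.val, Finset.mem_filter.2 ⟨Finset.mem_range.2 (ZMod.val_lt y), ?_⟩, ?_⟩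
    · refine (ZMod.intCast_zmod_eq_zero_iff_dvd _ p).1 ?_
      push_cast
      rw [ZMod.natCast_zmod_val]
      exact h
    · exact ZMod.natCast_zmod_val y

/-- **The 2-adic digit.** For a prime `p` with `2^15 ∣ p + 1`. -/
theorem tau_digit_of (hS : ∀ n, (2 : ℤ) ∣ coeff n Ss - coeff n R)
    (hpar : ∀ (p : ℕ) [Fact p.Prime], 64 ∣ p + 1 →
      ((Finset.univ.filter fun x : ZMod p => ((x ^ 2 - 1) ^ 2 - 2) ^ 2 - 2 = 0).card = 6 ∧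
          (2 : ℤ) ∣ coeff p R) ∨
        ((Finset.univ.filter fun x : ZMod p => ((x ^ 2 - 1) ^ 2 - 2) ^ 2 - 2 = 0).card = 2 ∧
          ¬ (2 : ℤ) ∣ coeff p R))
    {p : ℕ} (hp : p.Prime) (h : 2 ^ 14 ∣ p + 1) :
    (2 : ℤ) ^ 14 ∣ tau p ∧
    (((Finset.range p).filter fun x : ℕ =>
        (p : ℤ) ∣ (((x : ℤ) ^ 2 - 1) ^ 2 - 2) ^ 2 - 2).card = 6 ∧
        ((2 : ℤ) ^ 15 ∣ tau p ↔ 2 ^ 15 ∣ p + 1) ∨
      ((Finset.range p).filter fun x : ℕ =>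
        (p : ℤ) ∣ (((x : ℤ) ^ 2 - 1) ^ 2 - 2) ^ 2 - 2).card = 2 ∧
        ((2 : ℤ) ^ 15 ∣ tau p ↔ ¬ 2 ^ 15 ∣ p + 1)) := by
  have : Fact p.Prime := ⟨hp⟩
  obtain ⟨u, hu⟩ := h
  have hu' : (p : ℤ) + 1 = 16384 * (u : ℤ) := by exact_mod_cast hu
  obtain ⟨h1, h2⟩ := tau_dvd hS hp hu'
  rw [card_roots]
  have e15 : 2 ^ 15 ∣ p + 1 ↔ (2 : ℤ) ∣ (u : ℤ) := by
    rw [hu]
    omega
  refine ⟨by norm_num; exact h1, ?_⟩
  norm_num at e15 ⊢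
  rcases hpar p (by omega) with ⟨h3, h4⟩ | ⟨h3, h4⟩
  · left
    refine ⟨h3, ?_⟩
    rw [h2, e15]
    omega
  · right
    refine ⟨h3, ?_⟩
    rw [h2, e15]
    omega

end E8G
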