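import Pool.Agent.E8G.J
import Pool.Agent.E8G.P
import Pool.Agent.E8G.B
import Pool.Agent.E8G.C
import Pool.Agent.E8G.S
import Pool.Agent.E8G.T
import Pool.Agent.E8G.H

/-!
# [E8G-ASM] `32 r(p) = p + 1 + 2 a_p` for `p = 7 mod 8`, and the parity of `r(p)`
-/

set_option autoImplicit false

open PowerSeries
open N19 (ex psi phs)
open E8X (F Ss tau)

namespace E8G

theorem asm_ex0 (k : ℕ) (f : PowerSeries ℤ) : coeff 0 (ex k f) = coeff 0 f := by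
  rw [ex, coeff_mk, if_pos (dvd_zero k), Nat.zero_div]

theorem asm_psi : coeff 0 psi = 1 := by
  rw [psi, coeff_mk, if_pos ⟨0, by norm_num⟩]

theorem asm_phs : coeff 0 phs = 1 := by
  rw [phs, coeff_mk]
  norm_num

theorem asm_phm : coeff 0 phm = 1 := by
  have : coeff 0 (X * ex 8 psi) = 0 := by
    rw [coeff_zero_eq_constantCoeff, map_mul, constantCoeff_X, zero_mul]
  rw [phm, map_sub, asm_ex0, asm_phs, two_mul, map_add, this]
  norm_num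

theorem coeff_one_Ff : coeff 1 Ff = 1 := by
  have e : Ff = X * (ex 8 phm * ex 8 psi *
      (ex 8 phs * ex 4 phm - X * (2 * (X * ex 16 psi * ex 4 phs)))) := by
    rw [Ff]
    ring
  have e1 : ∀ g : PowerSeries ℤ, coeff 1 (X * g) = coeff 0 g := fun g => coeff_succ_X_mul 0 g
  rw [e, e1]
  rw [coeff_zero_eq_constantCoeff]
  have h1 := asm_psi
  have h2 := asm_phs
  have h3 := asm_phm
  have h4 := fun k f => asm_ex0 k f
  simp only [coeff_zero_eq_constantCoeff] at h1 h2 h3 h4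
  simp only [map_mul, map_sub, constantCoeff_X, h4, h1, h2, h3]
  norm_num

/-- `32 r(p) = p + 1 + 2 a_p`. -/
theorem R_eq_of {p : ℕ} [Fact p.Prime] (hp7 : p % 8 = 7)
    (hC1 : (p : ℤ) ∣ ap p - hc p) (hC2 : |ap p| ≤ p) (hE : (4 : ℤ) ∣ ap p) :
    32 * coeff p R = (p : ℤ) + 1 + 2 * ap p := by
  have hp : p.Prime := Fact.out
  obtain ⟨u, v, hu, hv0, hv, h1, h2⟩ := param
  have b1 := hasse_mod hp (by rintro rfl; omega) hu hv0 hv h1 h2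
  rw [coeff_one_Ff, mul_one] at b1
  have b2 := coeff_R hp7
  rw [F_p hp (by rintro rfl; omega)] at b2
  have b3 := R_bound hp hp7
  have b4 := R_nonneg p
  have b5 := abs_le.1 hC2
  have hpp : (1 : ℤ) < p := by exact_mod_cast hp.one_lt
  have b6 : (p : ℤ) ∣ coeff p Ff - ap p := by
    have := dvd_sub b1 hC1
    have e : coeff p Ff - hc p - (ap p - hc p) = coeff p Ff - ap p := by ring
    rwa [e] at this
  have b7 : (2 : ℤ) ∣ coeff p Ff - ap p := by omega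
  have hco : IsCoprime (2 : ℤ) (p : ℤ) := by
    rw [show (2 : ℤ) = ((2 : ℕ) : ℤ) by norm_num, Nat.isCoprime_iff_coprime]
    exact (Nat.coprime_primes Nat.prime_two hp).2 (by rintro rfl; omega)
  have b8 : (2 : ℤ) * p ∣ coeff p Ff - ap p := hco.mul_dvd b7 b6
  have b9 : coeff p Ff - ap p = 0 := by
    refine Int.eq_zero_of_abs_lt_dvd b8 ?_
    rw [abs_lt]
    constructor <;> linarith [b5.1, b5.2]
  linarith

/-- The parity of `r(p)` for `64 ∣ p + 1`. -/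
theorem parity_of {p : ℕ} [Fact p.Prime] (h64 : 64 ∣ p + 1)
    (hR : 32 * coeff p R = (p : ℤ) + 1 + 2 * ap p)
    (hH : ∀ {s τ : ZMod p}, s ^ 2 = 2 → IsSquare (1 + s) → τ ^ 2 = 2 - s →
      ((32 : ℤ) ∣ (p : ℤ) + 1 - ap p ↔ IsSquare (1 + τ))) :
    ((Finset.univ.filter fun x : ZMod p => ((x ^ 2 - 1) ^ 2 - 2) ^ 2 - 2 = 0).card = 6 ∧
        (2 : ℤ) ∣ coeff p R) ∨
      ((Finset.univ.filter fun x : ZMod p => ((x ^ 2 - 1) ^ 2 - 2) ^ 2 - 2 = 0).card = 2 ∧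
        ¬ (2 : ℤ) ∣ coeff p R) := by
  obtain ⟨s, τ, hs, hs1, hτ, h6, h2⟩ := roots (p := p) (by omega)
  have h := hH hs hs1 hτ
  have e : (2 : ℤ) ∣ coeff p R ↔ (32 : ℤ) ∣ (p : ℤ) + 1 - ap p := by omega
  by_cases hq : IsSquare (1 + τ)
  · exact Or.inl ⟨h6 hq, e.2 (h.2 hq)⟩
  · exact Or.inr ⟨h2 hq, fun hd => hq (h.1 (e.1 hd))⟩

/-- `32 r(p) = p + 1 + 2 a_p`. -/
theorem R_eq {p : ℕ} [Fact p.Prime] (hp7 : p % 8 = 7) :
    32 * coeff p R = (p : ℤ) + 1 + 2 * ap p :=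
  R_eq_of hp7 (ap_mod p (by rintro rfl; omega)) (ap_abs p) (four_ap hp7)

/-- The parity of `r(p)` for `64 ∣ p + 1`. -/
theorem parity {p : ℕ} [Fact p.Prime] (h64 : 64 ∣ p + 1) :
    ((Finset.univ.filter fun x : ZMod p => ((x ^ 2 - 1) ^ 2 - 2) ^ 2 - 2 = 0).card = 6 ∧
        (2 : ℤ) ∣ coeff p R) ∨
      ((Finset.univ.filter fun x : ZMod p => ((x ^ 2 - 1) ^ 2 - 2) ^ 2 - 2 = 0).card = 2 ∧
        ¬ (2 : ℤ) ∣ coeff p R) :=
  parity_of h64 (R_eq (by omega)) fun hs hs1 hτ => halving h64 hs hs1 hτ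

/-- **The 2-adic digit of `τ(p)`.** -/
theorem tau_digit {p : ℕ} (hp : p.Prime) (h : 2 ^ 14 ∣ p + 1) :
    (2 : ℤ) ^ 14 ∣ tau p ∧
    (((Finset.range p).filter fun x : ℕ =>
        (p : ℤ) ∣ (((x : ℤ) ^ 2 - 1) ^ 2 - 2) ^ 2 - 2).card = 6 ∧
        ((2 : ℤ) ^ 15 ∣ tau p ↔ 2 ^ 15 ∣ p + 1) ∨
      ((Finset.range p).filter fun x : ℕ =>
        (p : ℤ) ∣ (((x : ℤ) ^ 2 - 1) ^ 2 - 2) ^ 2 - 2).card = 2 ∧
        ((2 : ℤ) ^ 15 ∣ tau p ↔ ¬ 2 ^ 15 ∣ p + 1)) :=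
  tau_digit_of Ss_mod (fun _ _ h64 => parity h64) hp h

end E8G
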