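import Pool.Agent.E8G.Defs

/-!
# [E8G] the points of `y² = x³ + x² + x + 1` modulo `p`
-/

set_option autoImplicit false

namespace E8G

/-- The number of solutions modulo `p`, over the integers. -/
theorem np_card (p : ℕ) [Fact p.Prime] :
    ((Finset.range p ×ˢ Finset.range p).filter fun v : ℕ × ℕ =>
      (p : ℤ) ∣ (v.2 : ℤ) ^ 2 - ((v.1 : ℤ) ^ 3 + (v.1 : ℤ) ^ 2 + (v.1 : ℤ) + 1)).card =
    (Finset.univ.filter fun v : ZMod p × ZMod p => v.2 ^ 2 = v.1 ^ 3 + v.1 ^ 2 + v.1 + 1).card := by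
  refine Finset.card_bij (fun v _ => ((v.1 : ZMod p), (v.2 : ZMod p))) (fun v hv => ?_)
    (fun v hv w hw h => ?_) fun w hw => ?_
  · have h := (Finset.mem_filter.1 hv).2
    refine Finset.mem_filter.2 ⟨Finset.mem_univ _, ?_⟩
    have h2 := (ZMod.intCast_zmod_eq_zero_iff_dvd _ p).2 h
    push_cast at h2
    exact sub_eq_zero.1 h2
  · obtain ⟨hv1, hv2⟩ := Finset.mem_product.1 (Finset.mem_filter.1 hv).1
    obtain ⟨hw1, hw2⟩ := Finset.mem_product.1 (Finset.mem_filter.1 hw).1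
    rw [Finset.mem_range] at hv1 hv2 hw1 hw2
    have h1 : (v.1 : ZMod p) = (w.1 : ZMod p) := congrArg Prod.fst h
    have h2 : (v.2 : ZMod p) = (w.2 : ZMod p) := congrArg Prod.snd h
    rw [ZMod.natCast_eq_natCast_iff', Nat.mod_eq_of_lt hv1, Nat.mod_eq_of_lt hw1] at h1
    rw [ZMod.natCast_eq_natCast_iff', Nat.mod_eq_of_lt hv2, Nat.mod_eq_of_lt hw2] at h2
    exact Prod.ext h1 h2
  · have h := (Finset.mem_filter.1 hw).2
    refine ⟨(w.1.val, w.2.val), Finset.mem_filter.2 ⟨Finset.mem_product.2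
      ⟨Finset.mem_range.2 (ZMod.val_lt _), Finset.mem_range.2 (ZMod.val_lt _)⟩, ?_⟩, ?_⟩
    · refine (ZMod.intCast_zmod_eq_zero_iff_dvd _ p).1 ?_
      push_cast
      rw [ZMod.natCast_zmod_val, ZMod.natCast_zmod_val]
      exact sub_eq_zero.2 h
    · simp only [ZMod.natCast_zmod_val]

/-- `p - N p = a_p` for odd primes `p`. -/
theorem np_eq {p : ℕ} [Fact p.Prime] (hp2 : p ≠ 2) :
    (p : ℤ) - (((Finset.range p ×ˢ Finset.range p).filter fun v : ℕ × ℕ =>
      (p : ℤ) ∣ (v.2 : ℤ) ^ 2 - ((v.1 : ℤ) ^ 3 + (v.1 : ℤ) ^ 2 + (v.1 : ℤ) + 1)).card : ℤ) = ap p := by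
  have hc : ringChar (ZMod p) ≠ 2 := by rwa [ZMod.ringChar_zmod_n]
  rw [np_card]
  have e1 : ((Finset.univ.filter fun v : ZMod p × ZMod p =>
      v.2 ^ 2 = v.1 ^ 3 + v.1 ^ 2 + v.1 + 1).card : ℤ) =
      ∑ x : ZMod p, (quadraticChar (ZMod p) (x ^ 3 + x ^ 2 + x + 1) + 1) := by
    rw [Finset.card_eq_sum_card_fiberwise (f := Prod.fst) (t := Finset.univ)
      (fun _ _ => Finset.mem_coe.2 (Finset.mem_univ _))]
    push_cast
    refine Finset.sum_congr rfl fun x _ => ?_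
    rw [← quadraticChar_card_sqrts hc, Nat.cast_inj]
    refine Finset.card_bij (fun v _ => v.2) (fun v hv => ?_) (fun v hv w hw h => ?_) fun y hy => ?_
    · rw [Finset.mem_filter, Finset.mem_filter] at hv
      rw [Set.mem_toFinset]
      have h := hv.1.2
      rw [hv.2] at h
      exact h
    · rw [Finset.mem_filter] at hv hw
      exact Prod.ext (hv.2.trans hw.2.symm) h
    · rw [Set.mem_toFinset] at hy
      exact ⟨(x, y), by
        rw [Finset.mem_filter, Finset.mem_filter]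
        exact ⟨⟨Finset.mem_univ _, hy⟩, rfl⟩, rfl⟩
  rw [e1, Finset.sum_add_distrib, ap]
  have e2 : ∑ _x : ZMod p, (1 : ℤ) = p := by
    rw [Finset.sum_const, Finset.card_univ, ZMod.card]
    simp
  rw [e2]
  have e3 : ∑ x : ZMod p, quadraticChar (ZMod p) (x ^ 3 + x ^ 2 + x + 1) =
      ∑ x : ZMod p, quadraticChar (ZMod p) (x * (x ^ 2 - 2 * x + 2)) := by
    refine Fintype.sum_equiv (Equiv.addRight (1 : ZMod p)) _ _ fun x => ?_
    congr 1
    simp only [Equiv.coe_addRight]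
    ring
  have e4 : ∑ x : ZMod p, quadraticChar (ZMod p) (x * (x ^ 2 - 2 * x + 2)) =
      ∑ x : ZMod p, quadraticChar (ZMod p) (x * (2 * x ^ 2 - 2 * x + 1)) := by
    refine Fintype.sum_equiv (Equiv.inv (ZMod p)) _ _ fun x => ?_
    rw [Equiv.inv_apply]
    by_cases hx : x = 0
    · rw [hx]
      simp
    · have h : x * (x ^ 2 - 2 * x + 2) = x⁻¹ * (2 * x⁻¹ ^ 2 - 2 * x⁻¹ + 1) * (x ^ 2) ^ 2 := by
        field_simp
        ring
      rw [h, map_mul, quadraticChar_sq_one' (pow_ne_zero 2 hx), mul_one]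
  rw [e3, e4]
  ring

end E8G
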