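import Pool.Agent.E8G.A
import Pool.Agent.E8G.C2

/-!
# [E8G-J] Jacobi: `∑_{n odd} σ(n) X^n = X ψ(X²)⁴`, and `16 R_p ≤ p + 1`
-/

set_option autoImplicit false

open PowerSeries
open E8X (F)

namespace E8G

theorem jacobi {n : ℕ} (hn : n % 2 = 1) : coeff n F = (ArithmeticFunction.sigma 1 n : ℤ) :=
  F_sigma dlog_phs hn

theorem F_p {p : ℕ} (hp : p.Prime) (h2 : p ≠ 2) : coeff p F = (p : ℤ) + 1 := F_prime dlog_phs hp h2

theorem R_bound {p : ℕ} (hp : p.Prime) (hp7 : p % 8 = 7) : 16 * coeff p R ≤ (p : ℤ) + 1 :=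
  c2_bound dlog_phs hp hp7

end E8G
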