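import Pool.Agent.E8G.Defs
import Pool.Agent.E8X.F4

/-!
# [E8G] row S4: `s(n) = r(n) + 2 w(n)` modulo 4

`Ss = R φ(X⁸)³ φ(X³²)` exactly, and `φ = 1 + 2 h` with `h = h(X⁴) + X ψ(X⁸)`.
-/

set_option autoImplicit false

open PowerSeries
open N19 (ex psi phs)
open E8X (F Ss tau)

namespace E8G

/-- `∑_{a,b,c,d odd > 0} X^(a² + 2 b² + 4 c² + 16 d²)` -/
noncomputable def W4 : PowerSeries ℤ :=
  (X * ex 8 psi) * (X ^ 2 * ex 16 psi) * (X ^ 4 * ex 32 psi) * (X ^ 16 * ex 128 psi)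

/-- `∑_{k ≥ 1} X^(k²)` -/
noncomputable def s4_h : PowerSeries ℤ :=
  open scoped Classical in mk fun n => if n = 0 then 0 else if ∃ k : ℕ, k * k = n then 1 else 0

theorem s4_two : (2 : PowerSeries ℤ) = C 2 := by simp

theorem s4_phs : phs = 1 + 2 * s4_h := by
  classical
  ext n
  rw [s4_two, map_add, coeff_C_mul, phs, s4_h, coeff_mk, coeff_mk, coeff_one]
  by_cases hn : n = 0
  · simp [hn]
  · by_cases h2 : ∃ k : ℕ, k * k = n
    · simp [hn, h2]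
    · simp [hn, h2]

theorem s4_ex2 {k : ℕ} (hk : 0 < k) (f : PowerSeries ℤ) : ex k (2 * f) = 2 * ex k f := by
  rw [E8X.ex_mul hk, s4_two, E8X.ex_ofNat hk]

theorem s4_ex1 {k : ℕ} (hk : 0 < k) : ex k (1 : PowerSeries ℤ) = 1 := by
  have h := E8X.ex_ofNat hk 1
  simpa using h

theorem s4_exphs {k : ℕ} (hk : 0 < k) : ex k phs = 1 + 2 * ex k s4_h := by
  conv_lhs => rw [s4_phs]
  rw [E8X.ex_add, s4_ex1 hk, s4_ex2 hk]

theorem s4_hrec : s4_h = ex 4 s4_h + X * ex 8 psi := by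
  have h0 := E8X.r0
  rw [s4_exphs (k := 4) (by norm_num), s4_phs, E8X.Cc] at h0
  have h1 : (2 : PowerSeries ℤ) * s4_h = 2 * (ex 4 s4_h + X * ex 8 psi) := by
    linear_combination h0
  ext n
  have h2 := congrArg (coeff n) h1
  rw [s4_two, coeff_C_mul, coeff_C_mul] at h2
  omega

theorem s4_h8 : ex 8 s4_h = ex 32 s4_h + X ^ 8 * ex 64 psi := by
  have h := congrArg (ex 8) s4_hrec
  rwa [E8X.ex_add, E8X.ex_mul (by norm_num), E8X.ex_ex (by norm_num) (by norm_num),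
    E8X.ex_ex (by norm_num) (by norm_num), E8X.ex_X (by norm_num)] at h

/-- `ψ(X^k)² = φ(X^k) ψ(X^(2k))` -/
theorem s4_psi {k : ℕ} (hk : 0 < k) : ex k psi ^ 2 = ex k phs * ex (k * 2) psi := by
  have h := congrArg (ex k) E8X.r1
  rwa [E8X.ex_pow hk, E8X.ex_mul hk, E8X.ex_ex hk (by norm_num)] at h

/-- The exact identity. -/
theorem Ss_eq : Ss = R * (ex 8 phs ^ 3 * ex 32 phs) := by
  have h8 := s4_psi (k := 8) (by norm_num)
  have h32 := s4_psi (k := 32) (by norm_num)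
  norm_num at h8 h32
  unfold E8X.Ss R E8X.Cc E8X.Bb
  linear_combination X ^ 15 * ex 8 psi * ex 32 psi ^ 3 * ex 8 phs ^ 2 * h8 +
    X ^ 15 * ex 8 psi * ex 8 phs ^ 3 * ex 16 psi * ex 32 psi * h32

theorem Ss_mod4_series : ∃ g : PowerSeries ℤ, Ss = R + 2 * W4 + 4 * g := by
  have hs := Ss_eq
  have h8 := s4_exphs (k := 8) (by norm_num)
  have h32 := s4_exphs (k := 32) (by norm_num)
  have h64 := s4_exphs (k := 64) (by norm_num)
  have hr := s4_h8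
  have hp := s4_psi (k := 64) (by norm_num)
  norm_num at hp
  rw [h64] at hp
  rw [h8, h32, hr] at hs
  set b := ex 32 s4_h with hb
  set d := ex 64 s4_h with hd
  set t := ex 64 psi with ht
  set w := ex 128 psi with hw
  refine ⟨(X * ex 8 psi) * (X ^ 2 * ex 16 psi) * (X ^ 4 * ex 32 psi) *
    ((X ^ 8 * t) * b + d * (X ^ 16 * w) + (X ^ 8 * t) * ((b + X ^ 8 * t) + 3 * (b + X ^ 8 * t) ^ 2 +
      2 * (b + X ^ 8 * t) ^ 3 + 3 * (b + X ^ 8 * t) * b + 6 * (b + X ^ 8 * t) ^ 2 * b +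
      4 * (b + X ^ 8 * t) ^ 3 * b)), ?_⟩
  rw [hs]
  unfold R W4
  linear_combination 2 * (X * ex 8 psi) * (X ^ 2 * ex 16 psi) * (X ^ 4 * ex 32 psi) * X ^ 16 * hp

/-- **Row S4.** -/
theorem Ss_mod4 (n : ℕ) : (4 : ℤ) ∣ coeff n Ss - coeff n R - 2 * coeff n W4 := by
  obtain ⟨g, hg⟩ := Ss_mod4_series
  have h4 : (4 : PowerSeries ℤ) = C 4 := by simp
  refine ⟨coeff n g, ?_⟩
  have h := congrArg (coeff n) hg
  rw [s4_two, h4, map_add, map_add, coeff_C_mul, coeff_C_mul] at h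
  linarith

end E8G
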