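import Pool.Agent.E8G.U
import Pool.Agent.E8G.J
import Pool.Agent.E8G.S4

/-!
# [E8G] `r(p) + w(p) = (p + 1) / 16` for primes `p ≡ 15 mod 16`
-/

set_option autoImplicit false

open PowerSeries
open N19 (ex psi phs)
open E8X

namespace E8G

/-- `f(-X)` -/
noncomputable def ng (f : PowerSeries ℤ) : PowerSeries ℤ := rescale (-1 : ℤ) f

theorem ng_coeff (f : PowerSeries ℤ) (n : ℕ) : coeff n (ng f) = (-1) ^ n * coeff n f := by
  rw [ng, coeff_rescale]

theorem ng_mul (f g : PowerSeries ℤ) : ng (f * g) = ng f * ng g := by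
  rw [ng, ng, ng, map_mul]

theorem ng_pow (f : PowerSeries ℤ) (k : ℕ) : ng (f ^ k) = ng f ^ k := by
  rw [ng, ng, map_pow]

theorem ng_ex {k : ℕ} (hk : Even k) (f : PowerSeries ℤ) : ng (ex k f) = ex k f := by
  ext n
  rw [ng_coeff, f3_coeff_ex]
  split_ifs with h
  · have h2 : Even n := hk.trans_dvd h
    rw [h2.neg_one_pow, one_mul]
  · rw [mul_zero]

theorem ng_phs : ng phs = phm := by
  have e : phs = ex 4 phs + 2 * (X * ex 8 psi) := A_phs
  have h : ng phs = ng (ex 4 phs) + ng (2 * (X * ex 8 psi)) := by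
    conv_lhs => rw [e]
    rw [ng, map_add]
    rfl
  have hX : ng (X : PowerSeries ℤ) = -X := by
    ext n
    rw [ng_coeff, map_neg, coeff_X]
    split_ifs with h1
    · rw [h1]; norm_num
    · simp
  have h2 : ng (2 : PowerSeries ℤ) = 2 := by
    rw [ng]
    exact map_ofNat _ 2
  rw [h, ng_mul, ng_mul, hX, h2, ng_ex (by decide), ng_ex (by decide)]
  unfold phm
  ring

theorem ng_cc (f : PowerSeries ℤ) : constantCoeff (ng f) = constantCoeff f := by
  have h := ng_coeff f 0
  rw [pow_zero, one_mul] at h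
  simpa using h

/-- `ψ(x) φ(-x) = ψ(-x) φ(-x²)` -/
theorem w2b_id : psi * phm = ng psi * ex 2 phm := by
  have h1 : ng psi ^ 2 = phm * ex 2 psi := by
    rw [← ng_pow, r1, ng_mul, ng_phs, ng_ex (by decide)]
  have h2 : (psi * phm) ^ 2 = (ng psi * ex 2 phm) ^ 2 := by
    rw [mul_pow, mul_pow, h1, ← A_h3, r1]
    ring
  rcases sq_eq_sq_iff_eq_or_eq_neg.1 h2 with h | h
  · exact h
  · exfalso
    have h3 := congrArg constantCoeff h
    rw [map_neg, map_mul, map_mul, ng_cc, A_cc_ex, A_cc_psi, A_cc_phm] at h3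
    norm_num at h3

/-- The even and the odd part. -/
theorem w2b_even : F3Cl 16 1 (X * ex 8 (psi + ng psi)) := by
  have h : F3Cl 16 0 (ex 8 (psi + ng psi)) := by
    intro n hn
    rw [f3_coeff_ex]
    split_ifs with h8
    · obtain ⟨m, rfl⟩ := h8
      rw [Nat.mul_div_cancel_left _ (by norm_num), map_add, ng_coeff]
      have hm : Odd m := by
        rw [Nat.odd_iff]
        omega
      rw [hm.neg_one_pow]
      ring
    · rfl
  have h2 := (f3_X 16 1).mul h
  rw [pow_one] at h2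
  exact h2

theorem w2b_odd : F3Cl 16 9 (X * ex 8 (psi - ng psi)) := by
  have h : F3Cl 16 8 (ex 8 (psi - ng psi)) := by
    intro n hn
    rw [f3_coeff_ex]
    split_ifs with h8
    · obtain ⟨m, rfl⟩ := h8
      rw [Nat.mul_div_cancel_left _ (by norm_num), map_sub, ng_coeff]
      have hm : Even m := by
        rw [Nat.even_iff]
        omega
      rw [hm.neg_one_pow]
      ring
    · rfl
  have h2 := (f3_X 16 1).mul h
  rw [pow_one] at h2
  exact h2

theorem w2b_cls : F3Cl 16 6 (w2 * Bb) := by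
  have h1 : F3Cl 16 2 w2 := by
    have h := (f3_X 16 2).mul (f3_ex (M := 16) (k := 16) (by norm_num) psi)
    exact h
  have h2 : F3Cl 16 4 Bb := by
    have h := (f3_X 16 4).mul (f3_ex (M := 16) (k := 32) (by norm_num) psi)
    exact h
  exact h1.mul h2

/-- `T(q) φ(-q⁸) = T(q) twisted φ(-q¹⁶)` -/
theorem w2b_w : w * ex 8 phm = X * ex 8 (ng psi) * ex 16 phm := by
  have h := congrArg (ex 8) w2b_id
  rw [ex_mul (by norm_num), ex_mul (by norm_num), ex_ex (by norm_num) (by norm_num)] at h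
  norm_num at h
  have e : w = X * ex 8 psi := rfl
  rw [e]
  linear_combination X * h

theorem w2b_zero {n : ℕ} (hn : n % 16 = 15) :
    coeff n (w * w2 * Bb * (ex 8 phm + ex 16 phm)) = 0 := by
  have e : w * w2 * Bb * (ex 8 phm + ex 16 phm) =
      X * ex 8 (psi + ng psi) * (w2 * Bb) * ex 16 phm := by
    have h := w2b_w
    have e1 : w = X * ex 8 psi := rfl
    rw [ex_add]
    linear_combination (w2 * Bb) * h + (w2 * Bb * ex 16 phm) * e1
  rw [e]
  exact ((w2b_even.mul w2b_cls).mul (f3_ex (M := 16) (k := 16) (by norm_num) phm)) n (by omega)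

theorem w2b_zero' {n : ℕ} (hn : n % 16 = 7) :
    coeff n (w * w2 * Bb * (ex 16 phm - ex 8 phm)) = 0 := by
  have e : w * w2 * Bb * (ex 16 phm - ex 8 phm) =
      X * ex 8 (psi - ng psi) * (w2 * Bb) * ex 16 phm := by
    have h := w2b_w
    have e1 : w = X * ex 8 psi := rfl
    rw [u_ex_sub]
    linear_combination (-(w2 * Bb)) * h + (w2 * Bb * ex 16 phm) * e1
  rw [e]
  exact ((w2b_odd.mul w2b_cls).mul (f3_ex (M := 16) (k := 16) (by norm_num) phm)) n (by omega)

theorem w2b_a : ex 8 phs = ex 8 phm + 4 * (X ^ 8 * ex 64 psi) := by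
  linear_combination A_ae

theorem w2b_b : ex 16 phs = ex 16 phm + 4 * (X ^ 16 * ex 128 psi) := by
  have h := congrArg (ex 2) w2b_a
  rw [ex_add, ex_mul (by norm_num), ex_mul (by norm_num), ex_pow (by norm_num),
    ex_X (by norm_num), ex_ex (by norm_num) (by norm_num), ex_ex (by norm_num) (by norm_num),
    ex_ex (by norm_num) (by norm_num), F2c_ex4, ← pow_mul] at h
  norm_num at h
  exact h

theorem w2b_smul (a : ℤ) (f : PowerSeries ℤ) (n : ℕ) : coeff n (a • f) = a * coeff n f := by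
  rw [map_zsmul, smul_eq_mul]

theorem w2b_R : R = w * w2 * Bb * (X ^ 8 * ex 64 psi) := rfl

theorem w2b_W : W4 = w * w2 * Bb * (X ^ 16 * ex 128 psi) := rfl

/-- **`4 (r(n) + w(n))` for `n ≡ 15 mod 16`.** -/
theorem w2b_star {n : ℕ} (hn : n % 16 = 15) :
    4 * (coeff n R + coeff n W4) = coeff n (w * w2 * Bb * ex 8 phs) + coeff n (w * w2 * Bb * ex 16 phs) := by
  have h := w2b_zero hn
  have e : w * w2 * Bb * ex 8 phs + w * w2 * Bb * ex 16 phs =
      w * w2 * Bb * (ex 8 phm + ex 16 phm) + ((4 : ℤ) • R + (4 : ℤ) • W4) := by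
    rw [w2b_R, w2b_W, zsmul_eq_mul, zsmul_eq_mul]
    push_cast
    linear_combination (w * w2 * Bb) * (w2b_a + w2b_b)
  have h1 := congrArg (coeff n) e
  rw [map_add, map_add, map_add, w2b_smul, w2b_smul, h] at h1
  linarith

/-- **`4 (w(n) - r(n))` for `n ≡ 7 mod 16`.** -/
theorem w2b_star' {n : ℕ} (hn : n % 16 = 7) :
    4 * (coeff n W4 - coeff n R) = coeff n (w * w2 * Bb * ex 16 phs) - coeff n (w * w2 * Bb * ex 8 phs) := by
  have h := w2b_zero' hn
  have e : w * w2 * Bb * ex 16 phs - w * w2 * Bb * ex 8 phs =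
      w * w2 * Bb * (ex 16 phm - ex 8 phm) + ((4 : ℤ) • W4 - (4 : ℤ) • R) := by
    rw [w2b_R, w2b_W, zsmul_eq_mul, zsmul_eq_mul]
    push_cast
    linear_combination (w * w2 * Bb) * (w2b_b - w2b_a)
  have h1 := congrArg (coeff n) e
  rw [map_sub, map_add, map_sub, w2b_smul, w2b_smul, h] at h1
  linarith

theorem w2b_first {p : ℕ} (hp : p.Prime) (hp7 : p % 8 = 7) :
    8 * coeff p (w * w2 * Bb * ex 8 phs) = (p : ℤ) + 1 := by
  have h := F_p hp (by rintro rfl; omega)
  rw [A_F7 hp7] at h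
  have e : w * w2 * Bb * ex 8 phs = w * ex 8 phs * w2 * Bb := by ring
  rw [e]
  exact h

theorem w2b_second {p : ℕ} (hp : p.Prime) (hp7 : p % 8 = 7) :
    8 * coeff p (w * w2 * Bb * ex 16 phs) = (p : ℤ) + 1 := by
  have h := U_prime hp hp7
  have e : w * w2 * Bb * ex 16 phs = (X * ex 8 psi) * (X ^ 2 * ex 16 psi) ^ 3 := by
    have h1 := A_h1'
    have h2 : w = X * ex 8 psi := rfl
    have h3 : w2 = X ^ 2 * ex 16 psi := rfl
    have h4 : Aa = ex 16 phs := rfl
    rw [← h2, ← h3, ← h4]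
    linear_combination (-(w * w2)) * h1
  rw [e]
  exact h

/-- **`r(p) + w(p) = (p + 1) / 16` for primes `p ≡ 15 mod 16`.** -/
theorem rw_sum {p : ℕ} (hp : p.Prime) (h : p % 16 = 15) :
    16 * (coeff p R + coeff p W4) = (p : ℤ) + 1 := by
  have h1 := w2b_star h
  have h2 := w2b_first hp (by omega)
  have h3 := w2b_second hp (by omega)
  linarith

/-- **`r(p) = w(p)` for primes `p ≡ 7 mod 16`.** -/
theorem rw_seven {p : ℕ} (hp : p.Prime) (h : p % 16 = 7) : coeff p R = coeff p W4 := by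
  have h1 := w2b_star' h
  have h2 := w2b_first hp (by omega)
  have h3 := w2b_second hp (by omega)
  linarith

end E8G
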