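import Pool.Agent.E8G.FD
import Pool.Agent.E8G.W2b
import Pool.Agent.E8G.NP

/-!
# [E8G] the statements of the result file
-/

set_option autoImplicit false

open PowerSeries
open E8X (Ss tau)

namespace E8G

/-- `p - N p` -/
noncomputable def aN (p : ℕ) : ℤ :=
  (p : ℤ) - (((Finset.range p ×ˢ Finset.range p).filter fun v : ℕ × ℕ =>
      (p : ℤ) ∣ (v.2 : ℤ) ^ 2 - ((v.1 : ℤ) ^ 3 + (v.1 : ℤ) ^ 2 + (v.1 : ℤ) + 1)).card : ℤ)

/-- the number of roots of the octic modulo `p` -/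
noncomputable def rN (p : ℕ) : ℕ :=
  ((Finset.range p).filter fun x : ℕ => (p : ℤ) ∣ (((x : ℤ) ^ 2 - 1) ^ 2 - 2) ^ 2 - 2).card

theorem gc_aN {p : ℕ} [Fact p.Prime] (hp2 : p ≠ 2) : aN p = ap p := np_eq hp2

theorem gc_rN (p : ℕ) [Fact p.Prime] : rN p =
    (Finset.univ.filter fun x : ZMod p => ((x ^ 2 - 1) ^ 2 - 2) ^ 2 - 2 = 0).card := card_roots p

/-- The curve and the octic. -/
theorem gc_curve {p : ℕ} (hp : p.Prime) (h64 : 64 ∣ p + 1) :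
    (rN p = 6 ∧ (32 : ℤ) ∣ aN p) ∨ (rN p = 2 ∧ ¬ (32 : ℤ) ∣ aN p) := by
  have : Fact p.Prime := ⟨hp⟩
  have h := R_eq (p := p) (by omega)
  rw [gc_rN, gc_aN (by rintro rfl; omega)]
  rcases parity h64 with ⟨h1, h2⟩ | ⟨h1, h2⟩
  · exact Or.inl ⟨h1, by omega⟩
  · exact Or.inr ⟨h1, by omega⟩

/-- The congruence modulo `2^16`, `p ≡ 15 mod 16`. -/
theorem gc_tau15 {p : ℕ} (hp : p.Prime) (h16 : p % 16 = 15) :
    (65536 : ℤ) ∣ tau p - (705 * (1 + (p : ℤ) ^ 11) + 4096 * (1 + (p : ℤ) ^ 3) -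
      1536 * ((p : ℤ) + 1) + 1024 * aN p) := by
  have : Fact p.Prime := ⟨hp⟩
  rw [gc_aN (by rintro rfl; omega)]
  exact t16_of h16 (Ss_mod4 p) (rw_sum hp h16) (R_eq (by omega))

/-- The congruence modulo `2^16`, `p ≡ 7 mod 16`. -/
theorem gc_tau7 {p : ℕ} (hp : p.Prime) (h16 : p % 16 = 7) :
    (65536 : ℤ) ∣ tau p - (705 * (1 + (p : ℤ) ^ 11) + 4096 * (1 + (p : ℤ) ^ 3) +
      512 * ((p : ℤ) + 1) + 1024 * aN p) := by
  have : Fact p.Prime := ⟨hp⟩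
  rw [gc_aN (by rintro rfl; omega)]
  have h := E8X.tau_seven (n := p) (by omega)
  rw [E8X.g2_sigma hp, E8X.g2_sigma hp] at h
  obtain ⟨k, hk⟩ := h
  obtain ⟨l, hl⟩ := Ss_mod4 p
  have hw := rw_seven hp h16
  have hR := R_eq (p := p) (by omega)
  refine ⟨4 * k - l - coeff p R, ?_⟩
  rw [← hw] at hl
  linear_combination hk - 16384 * hl + 512 * hR

/-- For the coefficients of the discriminant. -/
theorem gc_disc {p : ℕ} (hp : p.Prime) (h8 : p % 8 = 7) : ∃ k : ℤ,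
    (UpperHalfPlane.qExpansion 1 ModularForm.discriminant).coeff p =
      705 * (1 + (p : ℂ) ^ 11) + 4096 * (1 + (p : ℂ) ^ 3) +
        (if p % 16 = 15 then -1536 else 512) * ((p : ℂ) + 1) +
        1024 * ((aN p : ℤ) : ℂ) + 65536 * (k : ℂ) := by
  split_ifs with h
  · obtain ⟨k, hk⟩ := gc_tau15 hp h
    refine ⟨k, ?_⟩
    rw [E8X.disc_coeff, show tau p = 705 * (1 + (p : ℤ) ^ 11) + 4096 * (1 + (p : ℤ) ^ 3) -
      1536 * ((p : ℤ) + 1) + 1024 * aN p + 65536 * k by linear_combination hk]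
    push_cast
    ring
  · obtain ⟨k, hk⟩ := gc_tau7 hp (by omega)
    refine ⟨k, ?_⟩
    rw [E8X.disc_coeff, show tau p = 705 * (1 + (p : ℤ) ^ 11) + 4096 * (1 + (p : ℤ) ^ 3) +
      512 * ((p : ℤ) + 1) + 1024 * aN p + 65536 * k by linear_combination hk]
    push_cast
    ring

theorem gc_arith {u : ℕ} {a : ℤ} (h : (64 : ℤ) ∣ 16 * (u : ℤ) - a) :
    ((32 : ℤ) ∣ a → u % 2 = 0) ∧ (¬ (32 : ℤ) ∣ a → u % 2 = 1) := by
  constructor <;> intro h1 <;> omega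

/-- The conditions at a prime with `τ(p) = 0`. -/
theorem gc_zero {p : ℕ} (hp : p.Prime) (h0 : tau p = 0) :
    ∃ u : ℕ, p + 1 = 2 ^ 14 * u ∧ (16 : ℤ) ∣ ((E8X.reps p).card : ℤ) - 11 * u ∧
      (64 : ℤ) ∣ 16 * u - aN p ∧ ((Odd u ∧ rN p = 2) ∨ (Even u ∧ rN p = 6)) := by
  have : Fact p.Prime := ⟨hp⟩
  obtain ⟨w, hw, hwd⟩ := E8X.prime_cond hp h0
  obtain ⟨u, rfl⟩ := Int.eq_ofNat_of_zero_le (show 0 ≤ w by omega)
  have hu : p + 1 = 2 ^ 14 * u := by norm_num; exact_mod_cast hw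
  have h16 : p % 16 = 15 := by omega
  have h1 := gc_tau15 hp h16
  have ha : aN p = ap p := gc_aN (by rintro rfl; omega)
  have h2 : (64 : ℤ) ∣ 16 * (u : ℤ) - aN p := by
    rw [ha] at h1 ⊢
    have h3 := (t16_iff hw (t16_cor hw h1)).1 (by rw [h0]; exact dvd_zero _)
    obtain ⟨c, hc⟩ := h3
    refine ⟨-c, ?_⟩
    linear_combination -hc
  refine ⟨u, hu, hwd, h2, ?_⟩
  rcases gc_curve hp (by omega) with ⟨h4, h5⟩ | ⟨h4, h5⟩
  · exact Or.inr ⟨Nat.even_iff.2 ((gc_arith h2).1 h5), h4⟩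
  · exact Or.inl ⟨Nat.odd_iff.2 ((gc_arith h2).2 h5), h4⟩

/-- The 15th and the 16th digit, for all primes `p ≡ -1 mod 2^14`. -/
theorem gc_digits {p u : ℕ} (hp : p.Prime) (hu : p + 1 = 2 ^ 14 * u) :
    (2 : ℤ) ^ 14 ∣ tau p ∧
      ((2 : ℤ) ^ 15 ∣ tau p ↔ (Odd u ∧ rN p = 2) ∨ (Even u ∧ rN p = 6)) ∧
      ((2 : ℤ) ^ 16 ∣ tau p ↔ (64 : ℤ) ∣ 16 * u - aN p) := by
  have : Fact p.Prime := ⟨hp⟩
  have hu' : (p : ℤ) + 1 = 16384 * (u : ℤ) := by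
    have : ((p + 1 : ℕ) : ℤ) = ((2 ^ 14 * u : ℕ) : ℤ) := by rw [hu]
    push_cast at this
    linarith
  obtain ⟨h1, h2⟩ := tau_digit hp ⟨u, hu⟩
  have e15 : 2 ^ 15 ∣ p + 1 ↔ Even u := by
    rw [hu, even_iff_two_dvd]
    constructor
    · rintro ⟨j, hj⟩
      exact ⟨j, by omega⟩
    · rintro ⟨j, rfl⟩
      exact ⟨j, by ring⟩
  refine ⟨h1, ?_, ?_⟩
  · rcases h2 with ⟨h3, h4⟩ | ⟨h3, h4⟩
    · have h3' : rN p = 6 := h3
      rw [h4, e15, h3']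
      simp
    · have h3' : rN p = 2 := h3
      rw [h4, e15, h3', Nat.not_even_iff_odd]
      simp
  · have h5 := gc_tau15 hp (by omega)
    rw [gc_aN (by rintro rfl; omega)] at h5 ⊢
    have h6 := t16_iff hu' (t16_cor hu' h5)
    rw [show (2 : ℤ) ^ 16 = 65536 by norm_num, h6]
    constructor
    · rintro ⟨c, hc⟩
      exact ⟨-c, by linear_combination -hc⟩
    · rintro ⟨c, hc⟩
      exact ⟨-c, by linear_combination -hc⟩

/-- For the shells. -/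
theorem gc_design {m : ℕ} (hm : 0 < m) (hD : Pool.Agent.MP130199.IsDesign m 8) :
    ∃ p : ℕ, p.Prime ∧ Odd (m.factorization p) ∧
    ∃ u : ℕ, p + 1 = 2 ^ 14 * u ∧ (16 : ℤ) ∣ ((E8X.reps p).card : ℤ) - 11 * u ∧
      (64 : ℤ) ∣ 16 * u - aN p ∧ ((Odd u ∧ rN p = 2) ∨ (Even u ∧ rN p = 6)) := by
  obtain ⟨p, hp, ho, h0⟩ := E8X.tau_zero_prime hm (E8X.tau_eq_zero hD)
  exact ⟨p, hp, ho, gc_zero hp h0⟩

/-- The families. -/
theorem gc_family {X p k : ℕ} (hp : p.Prime) (hX : (p : ℤ) = (X : ℤ) ^ 4 - 4 * (X : ℤ) ^ 2 + 2)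
    (h : X % 2 ^ 13 = 2 ^ 13 - 1 ∨ X % 2 ^ 13 = 1 + 2 ^ 12) (hk : 0 < k)
    (hq : ∀ q : ℕ, q.Prime → 2 ^ 14 ∣ q + 1 → Even (k.factorization q)) :
    ¬ Pool.Agent.MP130199.IsDesign (p * k) 8 := by
  have : Fact p.Prime := ⟨hp⟩
  norm_num at h
  exact not_design hp (tau_X hX h) hk hq

/-- The first open case. -/
theorem gc_first {k : ℕ} (hk : 0 < k)
    (hq : ∀ q : ℕ, q.Prime → 2 ^ 14 ∣ q + 1 → Even (k.factorization q)) :
    ¬ Pool.Agent.MP130199.IsDesign (816212624008487344127999 * k) 8 :=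
  not_design L_prime tau_L hk hq

end E8G
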