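import Pool.Agent.E8G.SD8
import Pool.Agent.E8G.S

/-!
# [E8G] SD9: the fourth digit

`s(n) = r(n) + 2 w(n) - 4 w5(n) + 8 (w6(n) + r5(n))` modulo 16 for all `n = 15 mod 16`, hence `τ(p)`
modulo `2^18` for all primes `p = 15 mod 16`.
-/

set_option autoImplicit false

open PowerSeries
open N19 (ex psi phs)
open E8X

namespace E8G

/-- The number of representations `n = ∑ w_i v_i²` with odd positive integers `v_i`. -/
noncomputable def cnt {r : ℕ} (w : Fin r → ℕ) (n : ℕ) : ℕ :=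
  ((Fintype.piFinset (fun _ : Fin r => Finset.Icc (-(n : ℤ)) (n : ℤ))).filter
    (fun v : Fin r → ℤ => (∀ i, 0 < v i ∧ v i % 2 = 1) ∧ ∑ i, (w i : ℤ) * v i ^ 2 = (n : ℤ))).card

theorem sd9_cnt {r : ℕ} (w : Fin r → ℕ) (hw : ∀ i, 0 < w i) (n : ℕ) :
    coeff n (∏ i, ts (w i) od) = (cnt w n : ℤ) := by
  rw [ts_prod w hw (fun _ => od) (le_refl n), cnt, Finset.card_filter]
  push_cast
  refine Finset.sum_congr rfl fun v _ => ?_
  by_cases hn : ∑ i, (w i : ℤ) * v i ^ 2 = (n : ℤ)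
  · rw [if_pos hn]
    by_cases hv : ∀ i, 0 < v i ∧ v i % 2 = 1
    · rw [if_pos ⟨hv, hn⟩]
      exact Finset.prod_eq_one fun i _ => by rw [od, if_pos (hv i)]
    · rw [if_neg (fun h => hv h.1)]
      rw [not_forall] at hv
      obtain ⟨i, hv⟩ := hv
      exact Finset.prod_eq_zero (Finset.mem_univ i) (by rw [od, if_neg hv])
  · rw [if_neg hn, if_neg (fun h => hn h.2)]

/-- `∑_{a,b,c,d odd > 0} X^(a² + 2 b² + 4 c² + 64 d²)` -/
noncomputable def W6 : PowerSeries ℤ :=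
  (X * ex 8 psi) * (X ^ 2 * ex 16 psi) * (X ^ 4 * ex 32 psi) * (X ^ 64 * ex 512 psi)

/-- `∑_{a,b,c,d,e odd > 0} X^(a² + 2 b² + 4 c² + 8 d² + 32 e²)` -/
noncomputable def R5 : PowerSeries ℤ :=
  (X * ex 8 psi) * (X ^ 2 * ex 16 psi) * (X ^ 4 * ex 32 psi) * (X ^ 8 * ex 64 psi) *
    (X ^ 32 * ex 256 psi)

theorem sd9_W5 (n : ℕ) : coeff n W5 = (cnt ![1, 2, 4, 32] n : ℤ) := by
  have h1 := X_Cc
  have h2 := sd8_ts (k := 2) (by norm_num)
  have h4 := sd8_ts (k := 4) (by norm_num)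
  have h32 := sd8_ts (k := 32) (by norm_num)
  norm_num at h2 h4 h32
  rw [← sd9_cnt _ (by intro i; fin_cases i <;> simp), Fin.prod_univ_four, W5, h2, h4, h32, ← Cc, h1]
  simp only [Matrix.cons_val]

theorem sd9_W6 (n : ℕ) : coeff n W6 = (cnt ![1, 2, 4, 64] n : ℤ) := by
  have h1 := X_Cc
  have h2 := sd8_ts (k := 2) (by norm_num)
  have h4 := sd8_ts (k := 4) (by norm_num)
  have h64 := sd8_ts (k := 64) (by norm_num)
  norm_num at h2 h4 h64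
  rw [← sd9_cnt _ (by intro i; fin_cases i <;> simp), Fin.prod_univ_four, W6, h2, h4, h64, ← Cc, h1]
  simp only [Matrix.cons_val]

theorem sd9_R5 (n : ℕ) : coeff n R5 = (cnt ![1, 2, 4, 8, 32] n : ℤ) := by
  have h1 := X_Cc
  have h2 := sd8_ts (k := 2) (by norm_num)
  have h4 := sd8_ts (k := 4) (by norm_num)
  have h8 := sd8_ts (k := 8) (by norm_num)
  have h32 := sd8_ts (k := 32) (by norm_num)
  norm_num at h2 h4 h8 h32
  rw [← sd9_cnt _ (by intro i; fin_cases i <;> simp), Fin.prod_univ_five, R5, h2, h4, h8, h32, ← Cc,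
    h1]
  simp only [Matrix.cons_val]

/-- **The parity, with a factor of class 0.** -/
theorem sd9_par {g : PowerSeries ℤ} (hg : F3Cl 16 0 g) {n : ℕ} (hn : n % 16 = 15) :
    coeff n (w * (w2 * Bb) * g *
      (1 + ex 32 s4_h + ex 64 s4_h - X ^ 8 * ex 64 psi - X ^ 16 * ex 128 psi)) = 0 := by
  have h := w2b_w
  rw [sd8_8, sd8_16] at h
  have hc : F3Cl 16 0 (g * (1 + 2 * ex 64 s4_h - 2 * (X ^ 16 * ex 128 psi))) := by
    have h1 : F3Cl 16 0 (X ^ 16 * ex 128 psi) := sd8_cls (by norm_num) rfl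
    have h2 : F3Cl 16 0 (1 + C 2 * ex 64 s4_h + C (-2) * (X ^ 16 * ex 128 psi)) :=
      sd8_add (sd8_add sd8_one (sd8_smul 2 (f3_ex (by norm_num) _))) (sd8_smul (-2) h1)
    have e : (1 + 2 * ex 64 s4_h - 2 * (X ^ 16 * ex 128 psi) : PowerSeries ℤ) =
        1 + C 2 * ex 64 s4_h + C (-2) * (X ^ 16 * ex 128 psi) := by
      have e2 : (C (-2) : PowerSeries ℤ) = -2 := by simp
      rw [← s4_two, e2]
      ring
    rw [e]
    exact hg.mul h2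
  have h2 := sd8_tw hc hn
  have e : X * ex 8 (ng psi) * (w2 * Bb) * (g * (1 + 2 * ex 64 s4_h - 2 * (X ^ 16 * ex 128 psi))) =
      w * (w2 * Bb) * g * (1 + 2 * ex 32 s4_h - 2 * (X ^ 8 * ex 64 psi)) := by
    linear_combination (-(w2 * Bb * g)) * h
  have e' : w * (w2 * Bb) * (g * (1 + 2 * ex 64 s4_h - 2 * (X ^ 16 * ex 128 psi))) =
      w * (w2 * Bb) * g * (1 + 2 * ex 64 s4_h - 2 * (X ^ 16 * ex 128 psi)) := by
    ring
  rw [e, e'] at h2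
  have e3 : w * (w2 * Bb) * g * (1 + 2 * ex 32 s4_h - 2 * (X ^ 8 * ex 64 psi)) +
      w * (w2 * Bb) * g * (1 + 2 * ex 64 s4_h - 2 * (X ^ 16 * ex 128 psi)) =
      C 2 * (w * (w2 * Bb) * g *
        (1 + ex 32 s4_h + ex 64 s4_h - X ^ 8 * ex 64 psi - X ^ 16 * ex 128 psi)) := by
    rw [← s4_two]
    ring
  have h3 := congrArg (coeff n) e3
  rw [map_add, h2, coeff_C_mul] at h3
  linarith

theorem sd9_r16 : s_r2 (ex 16 s4_h) = s_r2 (ex 8 s4_h) ^ 2 := s_ex2 (k := 8) (by norm_num) s4_h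

theorem sd9_r32 : s_r2 (ex 32 s4_h) = s_r2 (ex 8 s4_h) ^ 4 := by
  have h := s_ex2 (k := 16) (by norm_num) s4_h
  rw [sd9_r16] at h
  rw [h]
  ring

theorem sd9_r64 : s_r2 (ex 64 s4_h) = s_r2 (ex 8 s4_h) ^ 8 := by
  have h := s_ex2 (k := 32) (by norm_num) s4_h
  rw [sd9_r32] at h
  rw [h]
  ring

theorem sd9_r128 : s_r2 (ex 128 s4_h) = s_r2 (ex 8 s4_h) ^ 16 := by
  have h := s_ex2 (k := 64) (by norm_num) s4_h
  rw [sd9_r64] at h
  rw [h]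
  ring

theorem sd9_r256 : s_r2 (ex 256 s4_h) = s_r2 (ex 8 s4_h) ^ 32 := by
  have h := s_ex2 (k := 128) (by norm_num) s4_h
  rw [sd9_r128] at h
  rw [h]
  ring

theorem sd9_hk {k : ℕ} (hk : 0 < k) : ex k s4_h = ex (k * 4) s4_h + X ^ k * ex (k * 8) psi := by
  have h := congrArg (ex k) s4_hrec
  rwa [E8X.ex_add, E8X.ex_mul hk, E8X.ex_ex hk (by norm_num), E8X.ex_ex hk (by norm_num),
    E8X.ex_X hk] at h

theorem sd9_t8 : s_r2 (X ^ 8 * ex 64 psi) = s_r2 (ex 8 s4_h) - s_r2 (ex 8 s4_h) ^ 4 := by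
  have h := congrArg s_r2 (sd9_hk (k := 8) (by norm_num))
  norm_num at h
  rw [sd9_r32] at h
  rw [map_mul, map_pow]
  linear_combination -h

theorem sd9_t16 : s_r2 (X ^ 16 * ex 128 psi) = s_r2 (ex 8 s4_h) ^ 2 - s_r2 (ex 8 s4_h) ^ 8 := by
  have h := congrArg s_r2 (sd9_hk (k := 16) (by norm_num))
  norm_num at h
  rw [sd9_r16, sd9_r64] at h
  rw [map_mul, map_pow]
  linear_combination -h

theorem sd9_t32 : s_r2 (X ^ 32 * ex 256 psi) = s_r2 (ex 8 s4_h) ^ 4 - s_r2 (ex 8 s4_h) ^ 16 := by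
  have h := congrArg s_r2 (sd9_hk (k := 32) (by norm_num))
  norm_num at h
  rw [sd9_r32, sd9_r128] at h
  rw [map_mul, map_pow]
  linear_combination -h

theorem sd9_t64 : s_r2 (X ^ 64 * ex 512 psi) = s_r2 (ex 8 s4_h) ^ 8 - s_r2 (ex 8 s4_h) ^ 32 := by
  have h := congrArg s_r2 (sd9_hk (k := 64) (by norm_num))
  norm_num at h
  rw [sd9_r64, sd9_r256] at h
  rw [map_mul, map_pow]
  linear_combination -h

/-- The key congruence modulo 2. -/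
theorem sd9_key : s_r2 (sd8_g (ex 8 s4_h) (ex 64 s4_h) - W4 * (X ^ 8 * ex 64 psi) -
      W5 * ex 128 s4_h) =
    s_r2 (W6 + R5 + w * (w2 * Bb) * (ex 16 s4_h * (1 + ex 64 s4_h)) *
      (1 + ex 32 s4_h + ex 64 s4_h - X ^ 8 * ex 64 psi - X ^ 16 * ex 128 psi)) := by
  have h2 : (2 : PowerSeries (ZMod 2)) = 0 := by
    have h : ((2 : ZMod 2)) = 0 := by decide
    have h3 : (2 : PowerSeries (ZMod 2)) = C (2 : ZMod 2) := (map_ofNat C 2).symm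
    rw [h3, h, map_zero]
  have eR : R = w * (w2 * Bb) * (X ^ 8 * ex 64 psi) := by rw [w2b_R]; ring
  have eW : W4 = w * (w2 * Bb) * (X ^ 16 * ex 128 psi) := by rw [w2b_W]; ring
  have eW5 : W5 = w * (w2 * Bb) * (X ^ 32 * ex 256 psi) := by
    have : W5 = w * w2 * Bb * (X ^ 32 * ex 256 psi) := rfl
    rw [this]; ring
  have eW6 : W6 = w * (w2 * Bb) * (X ^ 64 * ex 512 psi) := by
    have : W6 = w * w2 * Bb * (X ^ 64 * ex 512 psi) := rfl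
    rw [this]; ring
  have eR5 : R5 = w * (w2 * Bb) * ((X ^ 8 * ex 64 psi) * (X ^ 32 * ex 256 psi)) := by
    have : R5 = w * w2 * Bb * (X ^ 8 * ex 64 psi) * (X ^ 32 * ex 256 psi) := rfl
    rw [this]; ring
  have q8 := sd9_t8
  have q16 := sd9_t16
  have q32 := sd9_t32
  have q64 := sd9_t64
  have r16 := sd9_r16
  have r32 := sd9_r32
  have r64 := sd9_r64
  have r128 := sd9_r128
  unfold sd8_g
  rw [eR, eW, eW5, eW6, eR5]
  generalize X ^ 8 * ex 64 psi = t8 at *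
  generalize X ^ 16 * ex 128 psi = t16 at *
  generalize X ^ 32 * ex 256 psi = t32 at *
  generalize X ^ 64 * ex 512 psi = t64 at *
  generalize w * (w2 * Bb) = m at *
  simp only [map_sub, map_add, map_mul, map_pow, map_one, map_ofNat, r16, r32, r64, r128, q8, q16,
    q32, q64]
  generalize s_r2 (ex 8 s4_h) = a
  generalize s_r2 m = M
  linear_combination M * (a ^ 3 + a ^ 4 - a ^ 5 - 2 * a ^ 6 - 2 * a ^ 7 - a ^ 8 + a ^ 9 -
    3 * a ^ 12 - 2 * a ^ 13 - a ^ 14 + 2 * a ^ 17 + 2 * a ^ 18 + 2 * a ^ 19 - a ^ 20 + a ^ 32) * h2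

/-- **`s(n) = r(n) + 2 w(n) - 4 w5(n) + 8 (w6(n) + r5(n))` modulo 16 for `n = 15 mod 16`.** -/
theorem Ss_mod16 {n : ℕ} (hn : n % 16 = 15) :
    (16 : ℤ) ∣ coeff n Ss - coeff n R - 2 * coeff n W4 + 4 * coeff n W5 -
      8 * (coeff n W6 + coeff n R5) := by
  have h := sd8_par hn
  have hg : F3Cl 16 0 (ex 16 s4_h * (1 + ex 64 s4_h)) := by
    have h1 : F3Cl 16 0 (ex 16 s4_h) := f3_ex (by norm_num) _
    have h2 : F3Cl 16 0 (1 + ex 64 s4_h) := sd8_add sd8_one (f3_ex (by norm_num) _)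
    exact h1.mul h2
  have h' := sd9_par hg hn
  have e : Ss = R + C 2 * W4 - C 4 * W5 +
      C 8 * (sd8_g (ex 8 s4_h) (ex 64 s4_h) - W4 * (X ^ 8 * ex 64 psi) - W5 * ex 128 s4_h) -
      C 4 * (W4 * (1 + ex 32 s4_h + ex 64 s4_h - X ^ 8 * ex 64 psi - X ^ 16 * ex 128 psi)) := by
    have h1 := sd8_Ss
    have h2 := sd8_WT
    have h3 := s4_h8
    have c2 : (C 2 : PowerSeries ℤ) = 2 := by simp
    have c4 : (C 4 : PowerSeries ℤ) = 4 := by simp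
    have c8 : (C 8 : PowerSeries ℤ) = 8 := by simp
    rw [c2, c4, c8]
    linear_combination h1 - 4 * h2 - 4 * W4 * h3
  have h1 := congrArg (coeff n) e
  rw [map_sub, map_add, map_sub, map_add, coeff_C_mul, coeff_C_mul, coeff_C_mul, coeff_C_mul, h] at h1
  have hk := congrArg (coeff n) sd9_key
  rw [s_coeff_r2, s_coeff_r2, map_add, map_add, h', add_zero, ← sub_eq_zero, ← Int.cast_sub] at hk
  obtain ⟨l, hl⟩ := (ZMod.intCast_zmod_eq_zero_iff_dvd _ 2).1 hk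
  refine ⟨l, ?_⟩
  push_cast at hl
  linear_combination h1 + 8 * hl

theorem t18_of {p : ℕ} [Fact p.Prime] (h16 : p % 16 = 15) {r w v z : ℤ}
    (hS : (16 : ℤ) ∣ coeff p Ss - r - 2 * w + 4 * v - 8 * z) (hW : 16 * (r + w) = (p : ℤ) + 1)
    (hR : 32 * r = (p : ℤ) + 1 + 2 * ap p) :
    (262144 : ℤ) ∣ tau p - (705 * (1 + (p : ℤ) ^ 11) + 4096 * (1 + (p : ℤ) ^ 3) -
      1536 * ((p : ℤ) + 1) + 1024 * ap p + 65536 * v + 131072 * z) := by
  have hp : p.Prime := Fact.out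
  have h := tau_seven (n := p) (by omega)
  rw [g2_sigma hp, g2_sigma hp] at h
  obtain ⟨k, hk⟩ := h
  obtain ⟨l, hl⟩ := hS
  refine ⟨k - l - z, ?_⟩
  linear_combination hk - 16384 * hl - 2048 * hW + 512 * hR

/-- **`τ(p)` modulo `2^18` for the primes `p = 15 mod 16`.** -/
theorem tau18 {p : ℕ} [Fact p.Prime] (h : p % 16 = 15) :
    (262144 : ℤ) ∣ tau p - (705 * (1 + (p : ℤ) ^ 11) + 4096 * (1 + (p : ℤ) ^ 3) -
      1536 * ((p : ℤ) + 1) + 1024 * ap p + 65536 * (cnt ![1, 2, 4, 32] p : ℤ) +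
      131072 * ((cnt ![1, 2, 4, 64] p : ℤ) + (cnt ![1, 2, 4, 8, 32] p : ℤ))) := by
  rw [← sd9_W5, ← sd9_W6, ← sd9_R5]
  exact t18_of h (Ss_mod16 h) (rw_sum Fact.out h) (R_eq (by omega))

/-- `τ(p)` modulo `2^18` for `p + 1 = 2^14 u`. -/
theorem tau18_14 {p : ℕ} [Fact p.Prime] {u : ℤ} (hu : (p : ℤ) + 1 = 16384 * u) :
    (262144 : ℤ) ∣ tau p - (11 * ((p : ℤ) + 1) + 1024 * ap p +
      65536 * (cnt ![1, 2, 4, 32] p : ℤ) +
      131072 * ((cnt ![1, 2, 4, 64] p : ℤ) + (cnt ![1, 2, 4, 8, 32] p : ℤ))) := by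
  obtain ⟨k, hk⟩ := tau18 (p := p) (by omega)
  have hp' : (p : ℤ) = 16384 * u - 1 := by linarith
  have e11 : ∃ m : ℤ, 1 + (p : ℤ) ^ 11 = 11 * (16384 * u) + 262144 * m := by
    rw [hp']
    refine ⟨-55 * 1024 * u ^ 2 + 165 * 1024 * 16384 * u ^ 3 - 330 * 1024 * 16384 ^ 2 * u ^ 4 +
      462 * 1024 * 16384 ^ 3 * u ^ 5 - 462 * 1024 * 16384 ^ 4 * u ^ 6 +
      330 * 1024 * 16384 ^ 5 * u ^ 7 - 165 * 1024 * 16384 ^ 6 * u ^ 8 +
      55 * 1024 * 16384 ^ 7 * u ^ 9 - 11 * 1024 * 16384 ^ 8 * u ^ 10 +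
      1024 * 16384 ^ 9 * u ^ 11, ?_⟩
    ring
  have e3 : ∃ m : ℤ, 4096 * (1 + (p : ℤ) ^ 3) = 262144 * m := by
    rw [hp']
    refine ⟨256 * (3 * u - 3 * 16384 * u ^ 2 + 16384 ^ 2 * u ^ 3), ?_⟩
    ring
  obtain ⟨m, hm⟩ := e11
  obtain ⟨m', hm'⟩ := e3
  refine ⟨k + 705 * m + m' + 11 * 4 * 11 * u - 96 * u, ?_⟩
  rw [hu] at hk ⊢
  linear_combination hk + 705 * hm + hm'

/-- `2^18 ∣ τ(p)` iff `a_p = 80 u - 64 w5(p) + 128 (w6(p) + r5(p)) mod 256`, for `p + 1 = 2^14 u`. -/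
theorem tau18_iff {p : ℕ} [Fact p.Prime] {u : ℤ} (hu : (p : ℤ) + 1 = 16384 * u) :
    (262144 : ℤ) ∣ tau p ↔ (256 : ℤ) ∣ ap p - 80 * u + 64 * (cnt ![1, 2, 4, 32] p : ℤ) -
      128 * ((cnt ![1, 2, 4, 64] p : ℤ) + (cnt ![1, 2, 4, 8, 32] p : ℤ)) := by
  have h := tau18_14 hu
  rw [hu] at h
  omega

/-- `2^17 ∣ τ(p)` iff `a_p = 80 u + 64 w5(p) mod 128`, for `p + 1 = 2^14 u`. -/
theorem tau17_iff' {p : ℕ} [Fact p.Prime] {u : ℤ} (hu : (p : ℤ) + 1 = 16384 * u) :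
    (131072 : ℤ) ∣ tau p ↔ (128 : ℤ) ∣ ap p - 80 * u - 64 * (cnt ![1, 2, 4, 32] p : ℤ) := by
  have h := tau18_14 hu
  rw [hu] at h
  omega

end E8G
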