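import Pool.Agent.E8G.GC
import Pool.Agent.E8G.SD9

/-!
# [E8G] the statements of the result file, four digits
-/

set_option autoImplicit false

open PowerSeries
open E8X (Ss tau)

namespace E8G

/-- the correction to the points of the curve -/
noncomputable def wN (n : ℕ) : ℕ := cnt ![1, 2, 4, 32] n + 2 * cnt ![1, 2, 4, 64] n + 2 * cnt ![1, 2, 4, 8, 32] n

/-- The congruence modulo `2^18`, `p ≡ 15 mod 16`, for the coefficients of the discriminant. -/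
theorem gc18_disc15 {p : ℕ} (hp : p.Prime) (h16 : p % 16 = 15) : ∃ k : ℤ,
    (UpperHalfPlane.qExpansion 1 ModularForm.discriminant).coeff p =
      705 * (1 + (p : ℂ) ^ 11) + 4096 * (1 + (p : ℂ) ^ 3) - 1536 * ((p : ℂ) + 1) +
        1024 * ((aN p : ℤ) : ℂ) + 65536 * ((wN p : ℕ) : ℂ) + 262144 * (k : ℂ) := by
  have : Fact p.Prime := ⟨hp⟩
  obtain ⟨k, hk⟩ := tau18 (p := p) h16
  refine ⟨k, ?_⟩
  rw [gc_aN (by rintro rfl; omega), E8X.disc_coeff,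
    show tau p = 705 * (1 + (p : ℤ) ^ 11) + 4096 * (1 + (p : ℤ) ^ 3) -
      1536 * ((p : ℤ) + 1) + 1024 * ap p + 65536 * (cnt ![1, 2, 4, 32] p : ℤ) +
      131072 * ((cnt ![1, 2, 4, 64] p : ℤ) + (cnt ![1, 2, 4, 8, 32] p : ℤ)) + 262144 * k by
      linear_combination hk, wN]
  push_cast
  ring

/-- The congruence modulo `2^16`, `p ≡ 7 mod 16`. -/
theorem gc18_disc7 {p : ℕ} (hp : p.Prime) (h16 : p % 16 = 7) : ∃ k : ℤ,
    (UpperHalfPlane.qExpansion 1 ModularForm.discriminant).coeff p =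
      705 * (1 + (p : ℂ) ^ 11) + 4096 * (1 + (p : ℂ) ^ 3) + 512 * ((p : ℂ) + 1) +
        1024 * ((aN p : ℤ) : ℂ) + 65536 * (k : ℂ) := by
  obtain ⟨k, hk⟩ := gc_disc hp (by omega)
  refine ⟨k, ?_⟩
  rw [hk, if_neg (by omega)]

/-- The digits up to the 18th, for all primes `p ≡ -1 mod 2^14`. -/
theorem gc18_digit {p u : ℕ} (hp : p.Prime) (hu : p + 1 = 2 ^ 14 * u) {j : ℕ} (hj : j ≤ 18) :
    (2 : ℤ) ^ j ∣ tau p ↔ (2 : ℤ) ^ (j - 10) ∣ (80 * u - 64 * (wN p : ℤ)) - aN p := by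
  have : Fact p.Prime := ⟨hp⟩
  have hu' : (p : ℤ) + 1 = 16384 * (u : ℤ) := by
    have : ((p + 1 : ℕ) : ℤ) = ((2 ^ 14 * u : ℕ) : ℤ) := by rw [hu]
    push_cast at this
    linarith
  obtain ⟨k, hk⟩ := tau18_14 hu'
  rw [hu'] at hk
  have hw : (wN p : ℤ) = (cnt ![1, 2, 4, 32] p : ℤ) + 2 * (cnt ![1, 2, 4, 64] p : ℤ) +
      2 * (cnt ![1, 2, 4, 8, 32] p : ℤ) := by
    rw [wN]
    push_cast
    ring
  have ha : aN p = ap p := gc_aN (by rintro rfl; omega)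
  have key : tau p = -(1024 * (80 * u - 64 * (wN p : ℤ) - aN p)) + 262144 * (k + u) := by
    rw [hw, ha]
    linear_combination hk
  rcases Nat.lt_or_ge j 10 with h | h
  · rw [Nat.sub_eq_zero_of_le h.le, pow_zero]
    refine ⟨fun _ => one_dvd _, fun _ => ?_⟩
    rw [key]
    refine dvd_add ?_ ?_
    · rw [dvd_neg]
      exact Dvd.dvd.mul_right (pow_dvd_pow 2 (show j ≤ 10 by omega)) _
    · exact Dvd.dvd.mul_right (pow_dvd_pow 2 (show j ≤ 18 by omega)) _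
  · obtain ⟨i, rfl⟩ := Nat.exists_eq_add_of_le h
    rw [Nat.add_sub_cancel_left]
    have h8 : (2 : ℤ) ^ i ∣ 256 * (k + u) := Dvd.dvd.mul_right (pow_dvd_pow 2 (show i ≤ 8 by omega)) _
    have e : tau p = 2 ^ 10 * (-(80 * u - 64 * (wN p : ℤ) - aN p) + 256 * (k + u)) := by
      rw [key]
      ring
    rw [e, pow_add, mul_dvd_mul_iff_left (by norm_num), dvd_add_left h8, dvd_neg]

/-- The conditions at a prime with `τ(p) = 0`. -/
theorem gc18_zero {p : ℕ} (hp : p.Prime) (h0 : tau p = 0) :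
    ∃ u : ℕ, p + 1 = 2 ^ 14 * u ∧ (16 : ℤ) ∣ ((E8X.reps p).card : ℤ) - 11 * u ∧
      (256 : ℤ) ∣ (80 * u - 64 * (wN p : ℤ)) - aN p ∧
        ((Odd u ∧ rN p = 2) ∨ (Even u ∧ rN p = 6)) := by
  obtain ⟨u, hu, h1, -, h3⟩ := gc_zero hp h0
  exact ⟨u, hu, h1, (gc18_digit hp hu (j := 18) (le_refl _)).1 (by rw [h0]; exact dvd_zero _), h3⟩

/-- For the shells. -/
theorem gc18_design {m : ℕ} (hm : 0 < m) (hD : Pool.Agent.MP130199.IsDesign m 8) :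
    ∃ p : ℕ, p.Prime ∧ Odd (m.factorization p) ∧
    ∃ u : ℕ, p + 1 = 2 ^ 14 * u ∧ (16 : ℤ) ∣ ((E8X.reps p).card : ℤ) - 11 * u ∧
      (256 : ℤ) ∣ (80 * u - 64 * (wN p : ℤ)) - aN p ∧
        ((Odd u ∧ rN p = 2) ∨ (Even u ∧ rN p = 6)) := by
  obtain ⟨p, hp, ho, h0⟩ := E8X.tau_zero_prime hm (E8X.tau_eq_zero hD)
  exact ⟨p, hp, ho, gc18_zero hp h0⟩

end E8G
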