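import Mathlib

/-!
# [E8G-NF1] a norm with an odd power of `p` has a prime ideal of odd residue degree over `p`
-/

set_option autoImplicit false

open NumberField

namespace E8G

theorem nf1_ideal {S : Type*} [CommRing S] [IsDedekindDomain S] [Module.Free ℤ S]
    [Module.Finite ℤ S] [CharZero S] {p : ℕ} (I : Ideal S) : I ≠ 0 →
    Odd ((Ideal.absNorm I).factorization p) →
    ∃ P : Ideal S, P.IsMaximal ∧ ∃ f : ℕ, Odd f ∧ Ideal.absNorm P = p ^ f := by
  induction I using UniqueFactorizationMonoid.induction_on_prime with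
  | h₁ => exact fun h => absurd rfl h
  | h₂ x hx =>
    intro _ ho
    exfalso
    rw [Ideal.isUnit_iff] at hx
    rw [hx, Ideal.absNorm_top, Nat.factorization_one] at ho
    simp at ho
  | h₃ a Q ha hQ ih =>
    intro h0 ho
    have hQ0 : Q ≠ 0 := hQ.ne_zero
    have hQp : Q.IsPrime := Ideal.isPrime_of_prime hQ
    have hQm : Q.IsMaximal := hQp.isMaximal hQ0
    have hn1 : Ideal.absNorm Q ≠ 0 := fun h => hQ0 (Ideal.absNorm_eq_zero_iff.1 h)
    have hn2 : Ideal.absNorm a ≠ 0 := fun h => ha (Ideal.absNorm_eq_zero_iff.1 h)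
    rw [map_mul, Nat.factorization_mul hn1 hn2, Finsupp.add_apply] at ho
    by_cases hodd : Odd ((Ideal.absNorm Q).factorization p)
    · obtain ⟨q, k, -, -, hq, hQk⟩ := Ideal.exists_prime_and_absNorm_eq_pow Q
      rw [hQk, Nat.factorization_pow, Finsupp.smul_apply, hq.factorization, Finsupp.single_apply,
        smul_eq_mul] at hodd
      split_ifs at hodd with hqp
      · exact ⟨Q, hQm, k, by rwa [mul_one] at hodd, by rw [hQk, hqp]⟩
      · simp at hodd
    · refine ih ha ?_
      rw [Nat.not_odd_iff_even] at hodd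
      exact (Nat.odd_add'.1 ho).2 hodd

theorem nf1 {M : Type*} [Field M] [NumberField M] {a : 𝓞 M} (ha : a ≠ 0) {p : ℕ}
    (ho : Odd ((Algebra.norm ℤ a).natAbs.factorization p)) :
    ∃ P : Ideal (𝓞 M), P.IsMaximal ∧ ∃ f : ℕ, Odd f ∧ Nat.card (𝓞 M ⧸ P) = p ^ f := by
  rw [← Ideal.absNorm_span_singleton] at ho
  obtain ⟨P, hP, f, hf, h⟩ := nf1_ideal (Ideal.span {a})
    (by rwa [Ne, Ideal.zero_eq_bot, Ideal.span_singleton_eq_bot]) ho
  exact ⟨P, hP, f, hf, by rw [← h]; rfl⟩

end E8G
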