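import Mathlib

/-!
# [E8G] NF2: `2 cos (π / 2^14)` and its twin in a finite field of odd degree
-/

set_option autoImplicit false

namespace E8G

theorem nf2_pow_add {p f : ℕ} (hp : p % 2 = 1) (hf : Odd f) :
    ∃ t : ℕ, Odd t ∧ p ^ f + 1 = (p + 1) * t := by
  obtain ⟨g, rfl⟩ := hf
  induction g with
  | zero => exact ⟨1, odd_one, by simp⟩
  | succ g ih =>
    obtain ⟨t, ht, he⟩ := ih
    have hp1 : 1 ≤ p := by omega
    have ht1 : 1 ≤ t := ht.pos
    have hpt : p ^ 2 ≤ p ^ 2 * t := Nat.le_mul_of_pos_right _ ht1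
    have hpp : p ≤ p ^ 2 := by nlinarith
    have h2 : p - 1 ≤ p ^ 2 * t := by omega
    refine ⟨p ^ 2 * t - (p - 1), ?_, ?_⟩
    · rw [Nat.odd_iff] at ht ⊢
      have h3 : (p ^ 2 * t) % 2 = 1 := by
        rw [Nat.mul_mod, Nat.pow_mod, hp, ht]
      omega
    · have e : p ^ (2 * (g + 1) + 1) = p ^ 2 * p ^ (2 * g + 1) := by ring
      rw [e]
      zify [h2, hp1] at he ⊢
      linear_combination (p : ℤ) ^ 2 * he

theorem nf2_iter {K : Type*} [Field K] {w : K} (hw : w ≠ 0) (n : ℕ) :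
    ((fun t : K => t ^ 2 - 2)^[n]) (w + w⁻¹) = w ^ 2 ^ n + (w⁻¹) ^ 2 ^ n := by
  induction n with
  | zero => simp
  | succ n ih =>
    rw [Function.iterate_succ_apply', ih]
    have h : w ^ 2 ^ n * (w⁻¹) ^ 2 ^ n = 1 := by
      rw [← mul_pow, mul_inv_cancel₀ hw, one_pow]
    change (w ^ 2 ^ n + (w⁻¹) ^ 2 ^ n) ^ 2 - 2 = w ^ 2 ^ (n + 1) + (w⁻¹) ^ 2 ^ (n + 1)
    rw [pow_succ 2 n, pow_mul, pow_mul]
    linear_combination 2 * h

theorem nf2_map {R S : Type*} [Ring R] [Ring S] (φ : R →+* S) (n : ℕ) (y : R) :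
    φ ((fun t : R => t ^ 2 - 2)^[n] y) = (fun t : S => t ^ 2 - 2)^[n] (φ y) := by
  induction n generalizing y with
  | zero => rfl
  | succ n ih =>
    rw [Function.iterate_succ_apply, Function.iterate_succ_apply, ih]
    congr 1
    rw [map_sub, map_pow, map_ofNat]

theorem nf2_core {K : Type*} [Field K] (hK2 : (2 : K) ≠ 0) {z : K} (hz : z ≠ 0)
    (h : ((fun t : K => t ^ 2 - 2)^[12]) (z ^ 2 + (z ^ 2)⁻¹) = 0) :
    z ^ 2 ^ 14 = -1 ∧ orderOf z = 2 ^ 15 := by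
  have hz2 : z ^ 2 ≠ 0 := pow_ne_zero 2 hz
  rw [nf2_iter hz2] at h
  have h1 : z ^ 2 ^ 14 = -1 := by
    have h2 : (z ^ 2) ^ 2 ^ 12 * ((z ^ 2)⁻¹) ^ 2 ^ 12 = 1 := by
      rw [← mul_pow, mul_inv_cancel₀ hz2, one_pow]
    have h3 : z ^ 2 ^ 14 = (z ^ 2) ^ 2 ^ 12 * (z ^ 2) ^ 2 ^ 12 := by
      rw [← pow_mul, ← pow_add]
      congr 1
    rw [h3]
    linear_combination (z ^ 2) ^ 2 ^ 12 * h - h2
  refine ⟨h1, ?_⟩
  apply orderOf_eq_prime_pow (p := 2)
  · rw [h1]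
    intro h4
    apply hK2
    linear_combination -h4
  · have e : (2 : ℕ) ^ (14 + 1) = 2 ^ 14 * 2 := by norm_num
    rw [e, pow_mul, h1]
    ring

/-- the common part: `z - e / z = c` with `e = ±1` -/
theorem nf2_gen {k : Type} [Field k] [Finite k] {p : ℕ} (hp : p.Prime) {f : ℕ} (_hf : Odd f)
    (hc : Nat.card k = p ^ f) (h14 : 2 ^ 14 ∣ p + 1) (c : k) (e : ℤ) (he : e = 1 ∨ e = -1)
    (h : (fun t : k => t ^ 2 - 2)^[12] (c ^ 2 - 2 * (e : k)) = 0) :
    ∃ (K : Type) (_ : Field K) (z : K), z ≠ 0 ∧ z ^ 2 ^ 14 = -1 ∧ orderOf z = 2 ^ 15 ∧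
      (z ^ (p ^ f + 1) = (e : K) ∨ z ^ (p ^ f - 1) = 1) := by
  classical
  have : Fintype k := Fintype.ofFinite k
  have : Fact p.Prime := ⟨hp⟩
  have hodd : p % 2 = 1 := by omega
  have hp2 : p ≠ 2 := by omega
  have hcf : Fintype.card k = p ^ f := by rw [← Nat.card_eq_fintype_card, hc]
  have hchk : CharP k p := by
    obtain ⟨q, hq⟩ := CharP.exists k
    obtain ⟨n, hqp, hn⟩ := FiniteField.card k q
    have : q = p := by
      have h1 : q ∣ p ^ f := by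
        rw [← hcf, hn]
        exact dvd_pow_self q n.pos.ne'
      exact (Nat.prime_dvd_prime_iff_eq hqp hp).1 (hqp.dvd_of_dvd_pow h1)
    rw [← this]
    exact hq
  set K := AlgebraicClosure k with hK
  set φ := algebraMap k K with hφ
  have : CharP K p := charP_of_injective_algebraMap φ.injective p
  have hK2 : (2 : K) ≠ 0 := by
    intro h2
    have h3 : p ∣ 2 := (CharP.cast_eq_zero_iff K p 2).1 (by exact_mod_cast h2)
    exact hp2 ((Nat.prime_dvd_prime_iff_eq hp Nat.prime_two).1 h3)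
  have hee : (e : K) * (e : K) = 1 := by
    rcases he with rfl | rfl <;> norm_num
  have he0 : (e : K) ≠ 0 := left_ne_zero_of_mul_eq_one hee
  -- a root of `z² - c z + e`
  obtain ⟨d, hd⟩ : ∃ d : K, d ^ 2 = φ c ^ 2 - 4 * (e : K) :=
    IsAlgClosed.exists_pow_nat_eq _ two_pos
  set z : K := (φ c + d) / 2 with hz
  have hzq : z ^ 2 - φ c * z + (e : K) = 0 := by
    have h22 : (2 : K) * 2⁻¹ = 1 := mul_inv_cancel₀ hK2
    have e0 : z = (φ c + d) * 2⁻¹ := by rw [hz, div_eq_mul_inv]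
    have e1 : (4 : K) * (z ^ 2 - φ c * z + (e : K)) = 0 := by
      rw [e0]
      linear_combination (((φ c + d) ^ 2 * (2 * 2⁻¹ + 1)) - 2 * φ c * (φ c + d)) * h22 + hd
    have h4 : (4 : K) ≠ 0 := by
      have : (4 : K) = 2 * 2 := by norm_num
      rw [this]
      exact mul_ne_zero hK2 hK2
    exact (mul_eq_zero.1 e1).resolve_left h4
  have hz0 : z ≠ 0 := by
    intro h0
    rw [h0] at hzq
    apply he0
    linear_combination hzq
  have hzi : z * z⁻¹ = 1 := mul_inv_cancel₀ hz0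
  have hzc : z + (e : K) * z⁻¹ = φ c := by
    have h1 : (z + (e : K) * z⁻¹ - φ c) * z = 0 := by
      linear_combination hzq + (e : K) * hzi
    rcases mul_eq_zero.1 h1 with h2 | h2
    · linear_combination h2
    · exact absurd h2 hz0
  have hiter : ((fun t : K => t ^ 2 - 2)^[12]) (z ^ 2 + (z ^ 2)⁻¹) = 0 := by
    have e1 : z ^ 2 + (z ^ 2)⁻¹ = φ (c ^ 2 - 2 * (e : k)) := by
      rw [map_sub, map_pow, map_mul, map_intCast, map_ofNat, ← hzc, ← inv_pow]
      linear_combination (-(z⁻¹) ^ 2) * hee - 2 * (e : K) * hzi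
    rw [e1, ← nf2_map, h, map_zero]
  obtain ⟨hz14, hord⟩ := nf2_core hK2 hz0 hiter
  refine ⟨K, inferInstance, z, hz0, hz14, hord, ?_⟩
  have hpos : 1 ≤ p ^ f := Nat.one_le_pow _ _ hp.pos
  have hoddq : (p ^ f) % 2 = 1 := by rw [Nat.pow_mod, hodd, Nat.one_pow]
  have heq : (e : K) ^ (p ^ f) = (e : K) := by
    rcases he with rfl | rfl
    · simp
    · push_cast
      exact (Nat.odd_iff.2 hoddq).neg_one_pow
  have hfr : z ^ (p ^ f) + (e : K) * (z⁻¹) ^ (p ^ f) = z + (e : K) * z⁻¹ := by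
    have e1 : (z + (e : K) * z⁻¹) ^ (p ^ f) = z ^ (p ^ f) + ((e : K) * z⁻¹) ^ (p ^ f) :=
      add_pow_char_pow _ _ _ _
    rw [mul_pow, heq] at e1
    rw [← e1, hzc, ← map_pow, ← hcf, FiniteField.pow_card]
  have e2 : z ^ (p ^ f) * (z⁻¹) ^ (p ^ f) = 1 := by
    rw [← mul_pow, hzi, one_pow]
  have e1 : (z ^ (p ^ f + 1) - (e : K)) * (z ^ (p ^ f) - z) = 0 := by
    rw [pow_succ]
    linear_combination z ^ (p ^ f) * z * hfr - (e : K) * z * e2 + (e : K) * z ^ (p ^ f) * hzi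
  rcases mul_eq_zero.1 e1 with h1 | h1
  · left
    linear_combination h1
  · right
    have e4 : z ^ (p ^ f) = z ^ (p ^ f - 1) * z := by
      rw [← pow_succ, Nat.sub_add_cancel hpos]
    have e5 : (z ^ (p ^ f - 1) - 1) * z = 0 := by
      rw [sub_mul, ← e4]
      linear_combination h1
    rcases mul_eq_zero.1 e5 with e6 | e6
    · linear_combination e6
    · exact absurd e6 hz0

/-- **NF2** (module Pool.Agent.E8G.NF2, Mathlib only). -/
theorem nf2 {k : Type} [Field k] [Finite k] {p : ℕ} (hp : p.Prime) {f : ℕ} (hf : Odd f)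
    (hc : Nat.card k = p ^ f) (h14 : 2 ^ 14 ∣ p + 1) (c : k) :
    ((fun t : k => t ^ 2 - 2)^[12] (c ^ 2 - 2) = 0 → 2 ^ 15 ∣ p + 1) ∧
    ((fun t : k => t ^ 2 - 2)^[12] (c ^ 2 + 2) = 0 → ¬ 2 ^ 15 ∣ p + 1) := by
  have hodd : p % 2 = 1 := by omega
  obtain ⟨t, ht, hpt⟩ := nf2_pow_add hodd hf
  have hpos : 1 ≤ p ^ f := Nat.one_le_pow _ _ hp.pos
  have hq14 : 2 ^ 14 ∣ p ^ f + 1 := by
    rw [hpt]
    exact h14.mul_right t
  have hno : ¬ 2 ^ 15 ∣ p ^ f - 1 := by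
    intro h
    omega
  constructor
  · intro h
    obtain ⟨K, _, z, hz0, hz14, hord, hcase⟩ := nf2_gen hp hf hc h14 c 1 (Or.inl rfl) (by
      rw [← h]
      congr 1
      push_cast
      ring)
    rcases hcase with h1 | h1
    · have h2 : 2 ^ 15 ∣ p ^ f + 1 := by
        rw [← hord]
        exact orderOf_dvd_of_pow_eq_one (by rw [h1]; simp)
      rw [hpt] at h2
      exact Nat.Coprime.dvd_of_dvd_mul_right (Nat.Coprime.pow_left 15
        ((Nat.coprime_two_left).2 ht)) h2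
    · exact absurd (hord ▸ orderOf_dvd_of_pow_eq_one h1) hno
  · intro h h15
    obtain ⟨K, _, z, hz0, hz14, hord, hcase⟩ := nf2_gen hp hf hc h14 c (-1) (Or.inr rfl) (by
      rw [← h]
      congr 1
      push_cast
      ring)
    rcases hcase with h1 | h1
    · have h2 : 2 ^ 15 ∣ p ^ f + 1 := by
        rw [hpt]
        exact h15.mul_right t
      have h3 : z ^ (p ^ f + 1) = 1 := by
        rw [← orderOf_dvd_iff_pow_eq_one, hord]
        exact h2
      rw [h3] at h1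
      have h4 : z ^ 2 ^ 14 = 1 := by
        rw [hz14]
        push_cast at h1
        exact h1.symm
      have h5 : orderOf z ∣ 2 ^ 14 := orderOf_dvd_of_pow_eq_one h4
      rw [hord] at h5
      norm_num at h5
    · exact absurd (hord ▸ orderOf_dvd_of_pow_eq_one h1) hno

end E8G
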