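import Pool.Agent.E8G.P
import Pool.Agent.E8G.E3
import Pool.Agent.E8G.E3L

/-!
# [E8G] NF3: squares in extensions of odd degree
-/

set_option autoImplicit false

namespace E8G

theorem nf3_pow_sub {p f : ℕ} (hp : p % 2 = 1) (hf : Odd f) :
    ∃ t : ℕ, Odd t ∧ p ^ f - 1 = (p - 1) * t := by
  refine ⟨∑ i ∈ Finset.range f, p ^ i, ?_, ?_⟩
  · have hodd : ∀ n : ℕ, (∑ i ∈ Finset.range n, p ^ i) % 2 = n % 2 := by
      intro n
      induction n with
      | zero => simp
      | succ n ih =>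
        rw [Finset.sum_range_succ, Nat.add_mod, ih, Nat.pow_mod, hp, Nat.one_pow]
        omega
    rw [Nat.odd_iff, hodd f, ← Nat.odd_iff]
    exact hf
  · have hp1 : 1 ≤ p := by omega
    zify [Nat.one_le_pow f p hp1, hp1]
    rw [mul_geom_sum]

/-- A square of an extension of odd degree is a square. -/
theorem nf3_sq {k : Type*} [Field k] [Finite k] {p : ℕ} [Fact p.Prime] [Algebra (ZMod p) k]
    (hp2 : p ≠ 2) {f : ℕ} (hf : Odd f) (hc : Nat.card k = p ^ f) {a : ZMod p}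
    (h : IsSquare (algebraMap (ZMod p) k a)) : IsSquare a := by
  classical
  have : Fintype k := Fintype.ofFinite k
  rw [Nat.card_eq_fintype_card] at hc
  have hodd : p % 2 = 1 := (Nat.Prime.eq_two_or_odd (Fact.out : p.Prime)).resolve_left hp2
  by_cases ha : a = 0
  · subst ha
    exact IsSquare.zero
  obtain ⟨b, hb⟩ := h
  have ha' : algebraMap (ZMod p) k a ≠ 0 := by
    intro h0
    exact ha ((map_eq_zero _).1 h0)
  have hb0 : b ≠ 0 := by
    rintro rfl
    exact ha' (by rw [hb]; ring)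
  obtain ⟨t, ht, he⟩ := nf3_pow_sub hodd hf
  have h1 : b ^ ((p - 1) * t) = 1 := by
    rw [← he, ← hc]
    exact FiniteField.pow_card_sub_one_eq_one b hb0
  have h3 : a ^ (p / 2 * t) = 1 := by
    apply (algebraMap (ZMod p) k).injective
    rw [map_pow, hb, map_one, ← sq, ← pow_mul, ← h1]
    congr 1
    have h5 : p - 1 = 2 * (p / 2) := by omega
    rw [h5]
    ring
  rw [ZMod.euler_criterion p ha]
  rcases ZMod.pow_div_two_eq_neg_one_or_one p ha with h4 | h4
  · exact h4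
  · exfalso
    rw [pow_mul, h4, ht.neg_one_pow] at h3
    have h5 : (-1 : ZMod p) ≠ 1 := by
      have : Fact (2 < p) := ⟨by
        have := (Fact.out : p.Prime).two_le
        omega⟩
      exact ZMod.neg_one_ne_one
    exact h5 h3

theorem nf3_core {k : Type*} [Field k] [Finite k] {p : ℕ} [Fact p.Prime] [Algebra (ZMod p) k]
    {f : ℕ} (hf : Odd f) (hc : Nat.card k = p ^ f) (h16 : 16 ∣ p + 1) {e : ZMod p}
    (he : e ^ 2 = 1) {x : k} (hx : ((x ^ 2 + algebraMap (ZMod p) k e) ^ 2 + 1) ^ 2 = 2) :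
    ∃ s τ b : ZMod p, s ^ 2 = 2 ∧ IsSquare (1 + s) ∧ τ ^ 2 = 2 - s ∧ b ^ 2 = s - 1 ∧
      IsSquare (b - e) ∧ 1 + τ ≠ 0 ∧ 1 - e * b ≠ 0 ∧
      (1 + τ) * (1 - e * b) * 2 = (1 + τ - e * b) ^ 2 := by
  have hp2 : p ≠ 2 := by rintro rfl; omega
  set ι := algebraMap (ZMod p) k with hι
  have hinj : Function.Injective ι := ι.injective
  have h2 : (2 : ZMod p) ≠ 0 := by
    intro h
    have h4 : ((2 : ℕ) : ZMod p) = 0 := by exact_mod_cast h
    rw [ZMod.natCast_eq_zero_iff] at h4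
    have h5 := Nat.le_of_dvd (by norm_num) h4
    have h6 : 2 ≤ p := (Fact.out : p.Prime).two_le
    omega
  -- an element of `k` with square in the image of a square is in the image
  have hlift : ∀ (y : k) (a : ZMod p), y ^ 2 = ι a → ∃ b : ZMod p, b ^ 2 = a ∧ y = ι b := by
    intro y a hy
    obtain ⟨b, hb⟩ := nf3_sq (k := k) hp2 hf hc (a := a) ⟨y, by rw [← hι, ← hy]; ring⟩
    have h5 : y ^ 2 = (ι b) ^ 2 := by rw [hy, hb, map_mul]; ring
    rcases sq_eq_sq_iff_eq_or_eq_neg.1 h5 with h | h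
    · exact ⟨b, by rw [hb]; ring, h⟩
    · exact ⟨-b, by rw [hb]; ring, by rw [h, map_neg]⟩
  obtain ⟨s, hs, hsx⟩ := hlift ((x ^ 2 + ι e) ^ 2 + 1) 2 (by rw [hx, map_ofNat])
  obtain ⟨b, hb, hbx⟩ := hlift (x ^ 2 + ι e) (s - 1) (by
    rw [map_sub, map_one, ← hsx]
    ring)
  have hbe : IsSquare (b - e) := by
    obtain ⟨c, hc1, -⟩ := hlift x (b - e) (by rw [map_sub, ← hbx]; ring)
    exact ⟨c, by rw [← hc1]; ring⟩
  have hs1 : s - 1 ≠ 0 := by
    intro h
    have h3 : s = 1 := by linear_combination h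
    rw [h3] at hs
    exact one_ne_zero (α := ZMod p) (by linear_combination -hs)
  have hb0 : b ≠ 0 := by
    rintro rfl
    exact hs1 (by rw [← hb]; ring)
  have h1s : IsSquare (1 + s) := by
    refine ⟨1 / b, ?_⟩
    field_simp
    rw [hb]
    linear_combination hs
  obtain ⟨τ, hτ⟩ := e3l_16 (p := p) h16 (s := -s) (by rw [neg_sq]; exact hs)
  have hτ2 : τ ^ 2 = 2 - s := by rw [sq, ← hτ]; ring
  refine ⟨s, τ, b, hs, h1s, hτ2, hb, hbe, ?_, ?_, ?_⟩
  · intro h
    have h3 : τ = -1 := by linear_combination h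
    rw [h3] at hτ2
    exact hs1 (by linear_combination hτ2)
  · intro h
    have h3 : (e * b) ^ 2 = 1 := by
      have : e * b = 1 := by linear_combination -h
      rw [this]
      ring
    rw [mul_pow, he, hb] at h3
    have h4 : s = 2 := by linear_combination h3
    rw [h4] at hs
    exact h2 (by linear_combination hs)
  · linear_combination -hτ2 - e ^ 2 * hb + (1 - s) * he

theorem nf3_minus_one {p : ℕ} [Fact p.Prime] (h16 : 16 ∣ p + 1) : ¬ IsSquare (-1 : ZMod p) := by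
  rw [ZMod.exists_sq_eq_neg_one_iff]
  omega

/-- **NF3.** -/
theorem nf3 {k : Type} [Field k] [Finite k] {p : ℕ} [Fact p.Prime] {f : ℕ} (hf : Odd f)
    (hc : Nat.card k = p ^ f) (h16 : 16 ∣ p + 1) (x : k) :
    (((x ^ 2 + 1) ^ 2 + 1) ^ 2 = 2 →
      (Finset.univ.filter fun x : ZMod p => ((x ^ 2 - 1) ^ 2 - 2) ^ 2 - 2 = 0).card = 2) ∧
    (((x ^ 2 - 1) ^ 2 + 1) ^ 2 = 2 →
      (Finset.univ.filter fun x : ZMod p => ((x ^ 2 - 1) ^ 2 - 2) ^ 2 - 2 = 0).card = 6) := by
  have hp2 : p ≠ 2 := by rintro rfl; omega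
  have hchar : CharP k p := by
    have : Fintype k := Fintype.ofFinite k
    obtain ⟨q, hq⟩ := CharP.exists k
    obtain ⟨n, hqp, hn⟩ := FiniteField.card k q
    rw [← Nat.card_eq_fintype_card, hc] at hn
    have h1 : q ∣ p ^ f := by
      rw [hn]
      exact dvd_pow_self q n.ne_zero
    have h2 := (Nat.prime_dvd_prime_iff_eq hqp (Fact.out : p.Prime)).1 (hqp.dvd_of_dvd_pow h1)
    rwa [h2] at hq
  let _ : Algebra (ZMod p) k := ZMod.algebra k p
  obtain ⟨t, ht⟩ : IsSquare (2 : ZMod p) := by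
    rw [ZMod.exists_sq_eq_two_iff hp2]
    omega
  have h2 : (2 : ZMod p) ≠ 0 := by
    intro h
    have h4 : ((2 : ℕ) : ZMod p) = 0 := by exact_mod_cast h
    rw [ZMod.natCast_eq_zero_iff] at h4
    have h5 := Nat.le_of_dvd (by norm_num) h4
    have h6 : 2 ≤ p := (Fact.out : p.Prime).two_le
    omega
  have ht0 : t ≠ 0 := by rintro rfl; exact h2 (by rw [ht]; ring)
  constructor
  · intro hx
    obtain ⟨s, τ, b, hs, h1s, hτ, hb, hbe, h1, h3, h5⟩ :=
      nf3_core (k := k) hf hc h16 (e := 1) (by ring) (x := x) (by rw [map_one]; exact hx)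
    apply (roots_of h16 hs h1s hτ).2
    intro h6
    have h7 : IsSquare (1 - 1 * b) := (e3_iff (c := 1 + τ - 1 * b) h1 h3 ht0
      (by rw [sq t, ← ht]; exact h5)).1 h6
    obtain ⟨u, hu⟩ := h7
    obtain ⟨v, hv⟩ := hbe
    have hv0 : v ≠ 0 := by
      rintro rfl
      exact h3 (by linear_combination -hv)
    apply nf3_minus_one h16
    refine ⟨u / v, ?_⟩
    field_simp
    linear_combination hu + hv
  · intro hx
    obtain ⟨s, τ, b, hs, h1s, hτ, hb, hbe, h1, h3, h5⟩ :=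
      nf3_core (k := k) hf hc h16 (e := -1) (by ring) (x := x)
        (by rw [map_neg, map_one, ← sub_eq_add_neg]; exact hx)
    apply (roots_of h16 hs h1s hτ).1
    refine (e3_iff (c := 1 + τ - -1 * b) h1 h3 ht0 (by rw [sq t, ← ht]; exact h5)).2 ?_
    have : 1 - -1 * b = b - -1 := by ring
    rw [this]
    exact hbe

end E8G
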