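import Pool.Agent.E8G.FD
import Pool.Agent.E8G.NF1
import Pool.Agent.E8G.NF2
import Pool.Agent.E8G.NF3

/-!
# [E8G-NF4] norms from number fields: shells which are no `8`-designs
-/

set_option autoImplicit false

namespace E8G

theorem nf4_sq {M : Type} [Field M] {t : M} (h : IsIntegral ℤ (t ^ 2)) : IsIntegral ℤ t :=
  IsIntegral.of_pow (by norm_num : 0 < 2) h

theorem nf4_int {M : Type} [Field M] (n : ℤ) : IsIntegral ℤ (n : M) := by
  have := isIntegral_algebraMap (R := ℤ) (A := M) (x := n)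
  simpa using this

theorem nf4_it {M : Type} [Field M] (n : ℕ) : ∀ y : M,
    IsIntegral ℤ ((fun t : M => t ^ 2 - 2)^[n] y) → IsIntegral ℤ y := by
  induction n with
  | zero => intro y h; exact h
  | succ n ih =>
    intro y h
    rw [Function.iterate_succ_apply] at h
    have h1 := ih _ h
    have h2 : IsIntegral ℤ (y ^ 2) := by
      have := h1.add (nf4_int (M := M) 2)
      have e : (fun t : M => t ^ 2 - 2) y + ((2 : ℤ) : M) = y ^ 2 := by push_cast; ring
      rwa [e] at this
    exact nf4_sq h2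

theorem nf4_map {A B : Type} [CommRing A] [CommRing B] (φ : A →+* B) (n : ℕ) (y : A) :
    φ ((fun t : A => t ^ 2 - 2)^[n] y) = (fun t : B => t ^ 2 - 2)^[n] (φ y) := by
  induction n generalizing y with
  | zero => rfl
  | succ n ih =>
    rw [Function.iterate_succ_apply, Function.iterate_succ_apply, ih]
    congr 1
    simp only [map_sub, map_pow, map_ofNat]

/-- An integral element comes from the ring of integers. -/
theorem nf4_lift {M : Type} [Field M] [NumberField M] {c : M} (h : IsIntegral ℤ c) :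
    ∃ d : NumberField.RingOfIntegers M, algebraMap (NumberField.RingOfIntegers M) M d = c :=
  ⟨⟨c, h⟩, rfl⟩

theorem not_design_norm {M : Type} [Field M] [NumberField M] (c x : M)
    (h : ((fun t : M => t ^ 2 - 2)^[12] (c ^ 2 - 2) = 0 ∧ ((x ^ 2 + 1) ^ 2 + 1) ^ 2 = 2) ∨
      ((fun t : M => t ^ 2 - 2)^[12] (c ^ 2 + 2) = 0 ∧ ((x ^ 2 - 1) ^ 2 + 1) ^ 2 = 2))
    {a : NumberField.RingOfIntegers M} (ha : a ≠ 0) {k : ℕ} (hk : 0 < k)
    (hq : ∀ q : ℕ, q.Prime → 2 ^ 14 ∣ q + 1 → Even (k.factorization q)) :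
    ¬ Pool.Agent.MP130199.IsDesign ((Algebra.norm ℤ a).natAbs * k) 8 := by
  intro hD
  have hn : (Algebra.norm ℤ a).natAbs ≠ 0 := by
    rw [Ne, Int.natAbs_eq_zero, Algebra.norm_eq_zero_iff]
    exact ha
  obtain ⟨p, hp, ho, h0⟩ := E8X.tau_zero_prime (Nat.mul_pos (Nat.pos_of_ne_zero hn) hk)
    (E8X.tau_eq_zero hD)
  have : Fact p.Prime := ⟨hp⟩
  obtain ⟨u, hu, -, h2, h6⟩ := prime_first h0
  have hkp := hq p hp ⟨u, hu⟩
  rw [Nat.factorization_mul hn hk.ne', Finsupp.add_apply] at ho
  have ho' : Odd ((Algebra.norm ℤ a).natAbs.factorization p) := by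
    by_contra hc
    rw [Nat.not_odd_iff_even] at hc
    exact (Nat.not_odd_iff_even.2 (hc.add hkp)) ho
  obtain ⟨P, hP, f, hf, hcard⟩ := nf1 ha ho'
  let κ := NumberField.RingOfIntegers M ⧸ P
  let _ : Field κ := Ideal.Quotient.field P
  have hfin : Finite κ := by
    refine Nat.finite_of_card_ne_zero ?_
    rw [hcard]
    exact pow_ne_zero _ hp.ne_zero
  have hcard' : Nat.card κ = p ^ f := hcard
  let φ : NumberField.RingOfIntegers M →+* κ := Ideal.Quotient.mk P
  have hinj : Function.Injective (algebraMap (NumberField.RingOfIntegers M) M) :=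
    FaithfulSMul.algebraMap_injective _ _
  have hc : ∃ d : NumberField.RingOfIntegers M, algebraMap _ M d = c := by
    refine nf4_lift (nf4_sq ?_)
    rcases h with ⟨h, -⟩ | ⟨h, -⟩
    · have h1 := nf4_it (M := M) 12 (c ^ 2 - 2) (by rw [h]; exact isIntegral_zero)
      have h3 := h1.add (nf4_int (M := M) 2)
      have e : c ^ 2 - 2 + ((2 : ℤ) : M) = c ^ 2 := by push_cast; ring
      rwa [e] at h3
    · have h1 := nf4_it (M := M) 12 (c ^ 2 + 2) (by rw [h]; exact isIntegral_zero)
      have h3 := h1.sub (nf4_int (M := M) 2)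
      have e : c ^ 2 + 2 - ((2 : ℤ) : M) = c ^ 2 := by push_cast; ring
      rwa [e] at h3
  have hx : ∃ y : NumberField.RingOfIntegers M, algebraMap _ M y = x := by
    refine nf4_lift (nf4_sq ?_)
    have i2 : IsIntegral ℤ (2 : M) := by simpa using nf4_int (M := M) 2
    rcases h with ⟨-, h⟩ | ⟨-, h⟩
    · have h1 := nf4_sq (by rw [h]; exact i2)
      have h3 : IsIntegral ℤ ((x ^ 2 + 1) ^ 2) := by simpa using h1.sub isIntegral_one
      simpa using (nf4_sq h3).sub isIntegral_one
    · have h1 := nf4_sq (by rw [h]; exact i2)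
      have h3 : IsIntegral ℤ ((x ^ 2 - 1) ^ 2) := by simpa using h1.sub isIntegral_one
      simpa using (nf4_sq h3).add isIntegral_one
  obtain ⟨d, rfl⟩ := hc
  obtain ⟨y, rfl⟩ := hx
  rcases h with ⟨hc1, hx1⟩ | ⟨hc1, hx1⟩
  · have e1 : (fun t : NumberField.RingOfIntegers M => t ^ 2 - 2)^[12] (d ^ 2 - 2) = 0 := by
      apply hinj
      rw [nf4_map, map_zero, ← hc1]
      simp only [map_sub, map_pow, map_ofNat]
    have e2 : ((y ^ 2 + 1) ^ 2 + 1) ^ 2 = (2 : NumberField.RingOfIntegers M) := by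
      apply hinj
      simpa only [map_pow, map_add, map_one, map_ofNat] using hx1
    have e3 : (fun t : κ => t ^ 2 - 2)^[12] (φ d ^ 2 - 2) = 0 := by
      have h3 := congrArg φ e1
      rw [nf4_map, map_zero] at h3
      simpa only [map_sub, map_pow, map_ofNat] using h3
    have e4 : ((φ y ^ 2 + 1) ^ 2 + 1) ^ 2 = (2 : κ) := by
      have h3 := congrArg φ e2
      simpa only [map_pow, map_add, map_one, map_ofNat] using h3
    have r := (nf3 (k := κ) hf hcard' (by omega) (φ y)).1 e4
    have q15 := (nf2 (k := κ) hp hf hcard' ⟨u, hu⟩ (φ d)).1 e3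
    have he : Even u := by
      rw [even_iff_two_dvd]
      omega
    have h7 := h6 he
    rw [nr, r] at h7
    omega
  · have e1 : (fun t : NumberField.RingOfIntegers M => t ^ 2 - 2)^[12] (d ^ 2 + 2) = 0 := by
      apply hinj
      rw [nf4_map, map_zero, ← hc1]
      simp only [map_add, map_pow, map_ofNat]
    have e2 : ((y ^ 2 - 1) ^ 2 + 1) ^ 2 = (2 : NumberField.RingOfIntegers M) := by
      apply hinj
      simpa only [map_pow, map_add, map_sub, map_one, map_ofNat] using hx1
    have e3 : (fun t : κ => t ^ 2 - 2)^[12] (φ d ^ 2 + 2) = 0 := by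
      have h3 := congrArg φ e1
      rw [nf4_map, map_zero] at h3
      simpa only [map_add, map_pow, map_ofNat] using h3
    have e4 : ((φ y ^ 2 - 1) ^ 2 + 1) ^ 2 = (2 : κ) := by
      have h3 := congrArg φ e2
      simpa only [map_pow, map_add, map_sub, map_one, map_ofNat] using h3
    have r := (nf3 (k := κ) hf hcard' (by omega) (φ y)).2 e4
    have q15 := (nf2 (k := κ) hp hf hcard' ⟨u, hu⟩ (φ d)).2 e3
    have ho : Odd u := by
      by_contra hc
      rw [Nat.not_odd_iff_even] at hc
      obtain ⟨j, rfl⟩ := hc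
      exact q15 ⟨j, by omega⟩
    have h7 := h2 ho
    rw [nr, r] at h7
    omega

end E8G
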