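import Mathlib

/-!
# [E8G-NF5] the number fields of the norm clause exist
-/

set_option autoImplicit false

namespace E8G

theorem nf5_it (n : ℕ) : ∃ y : AlgebraicClosure ℚ,
    (fun t : AlgebraicClosure ℚ => t ^ 2 - 2)^[n] y = 0 := by
  induction n with
  | zero => exact ⟨0, rfl⟩
  | succ n ih =>
    obtain ⟨y, hy⟩ := ih
    obtain ⟨z, hz⟩ := IsAlgClosed.exists_pow_nat_eq (y + 2) (n := 2) (by norm_num)
    refine ⟨z, ?_⟩
    rw [Function.iterate_succ_apply]
    have e : z ^ 2 - 2 = y := by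
      rw [hz]
      ring
    rw [e]
    exact hy

theorem nf5_coe (K : IntermediateField ℚ (AlgebraicClosure ℚ)) (n : ℕ) (y : K) :
    (((fun t : K => t ^ 2 - 2)^[n] y : K) : AlgebraicClosure ℚ) =
      (fun t : AlgebraicClosure ℚ => t ^ 2 - 2)^[n] (y : AlgebraicClosure ℚ) := by
  induction n generalizing y with
  | zero => rfl
  | succ n ih =>
    rw [Function.iterate_succ_apply, Function.iterate_succ_apply, ih]
    congr 1

theorem nf_exists (e : ℤ) : ∃ (M : Type) (_ : Field M) (_ : NumberField M) (c x : M),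
    (fun t : M => t ^ 2 - 2)^[12] (c ^ 2 - 2 * (e : M)) = 0 ∧
      ((x ^ 2 + (e : M)) ^ 2 + 1) ^ 2 = 2 := by
  obtain ⟨y, hy⟩ := nf5_it 12
  obtain ⟨c, hc⟩ := IsAlgClosed.exists_pow_nat_eq (y + 2 * (e : AlgebraicClosure ℚ)) (n := 2) (by norm_num)
  obtain ⟨s, hs⟩ := IsAlgClosed.exists_pow_nat_eq (2 : AlgebraicClosure ℚ) (n := 2) (by norm_num)
  obtain ⟨b, hb⟩ := IsAlgClosed.exists_pow_nat_eq (s - 1) (n := 2) (by norm_num)
  obtain ⟨x, hx⟩ := IsAlgClosed.exists_pow_nat_eq (b - (e : AlgebraicClosure ℚ)) (n := 2) (by norm_num)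
  let K : IntermediateField ℚ (AlgebraicClosure ℚ) := IntermediateField.adjoin ℚ {c, x}
  have hf : FiniteDimensional ℚ K := by
    refine IntermediateField.finiteDimensional_adjoin (S := {c, x}) fun z _ => ?_
    exact (AlgebraicClosure.isAlgebraic ℚ).isIntegral.isIntegral z
  have hc' : c ∈ K := IntermediateField.subset_adjoin ℚ _ (Set.mem_insert _ _)
  have hx' : x ∈ K := IntermediateField.subset_adjoin ℚ _ (Set.mem_insert_of_mem _ rfl)
  have hn : NumberField K := ⟨⟩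
  have h2 : ((2 : K) : AlgebraicClosure ℚ) = 2 := rfl
  refine ⟨K, inferInstance, hn, ⟨c, hc'⟩, ⟨x, hx'⟩, ?_, ?_⟩
  · apply Subtype.ext
    rw [nf5_coe]
    have e1 : (((⟨c, hc'⟩ : K) ^ 2 - 2 * (e : K) : K) : AlgebraicClosure ℚ) = y := by
      push_cast
      rw [h2, hc]
      ring
    rw [e1, hy]
    rfl
  · apply Subtype.ext
    push_cast
    rw [h2, hx]
    linear_combination (b ^ 2 + s + 1) * hb + hs
end E8G
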