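import Pool.Agent.E8G.Fin
import Pool.Agent.E8G.T16
import Pool.Agent.E8G.W2b

/-!
# [E8G] SD8: the third digit

`s(n) = r(n) + 2 w(n) + 4 w5(n)` modulo 8 for all `n = 15 mod 16`, hence `τ(p)` modulo `2^17` for all
primes `p = 15 mod 16`.
-/

set_option autoImplicit false

open PowerSeries
open N19 (ex psi phs)
open E8X

namespace E8G

/-- `∑_{a,b,c,d odd > 0} X^(a² + 2 b² + 4 c² + 32 d²)` -/
noncomputable def W5 : PowerSeries ℤ :=
  (X * ex 8 psi) * (X ^ 2 * ex 16 psi) * (X ^ 4 * ex 32 psi) * (X ^ 32 * ex 256 psi)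

/-- The representations `n = a² + 2 b² + 4 c² + 32 d²` with odd positive integers. -/
noncomputable def reps5 (n : ℕ) : Finset (Fin 4 → ℤ) :=
  (Fintype.piFinset (fun _ : Fin 4 => Finset.Icc (-(n : ℤ)) (n : ℤ))).filter
    (fun v : Fin 4 → ℤ => (∀ i : Fin 4, 0 < v i ∧ v i % 2 = 1) ∧
      v 0 ^ 2 + 2 * v 1 ^ 2 + 4 * v 2 ^ 2 + 32 * v 3 ^ 2 = (n : ℤ))

theorem sd8_ts {k : ℕ} (hk : 0 < k) : X ^ k * ex (k * 8) psi = ts k od := by
  have h := congrArg (ex k) X_Cc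
  rw [ex_ts hk (by norm_num), ex_mul hk, ex_X hk, Cc, ex_ex hk (by norm_num), mul_one] at h
  exact h

theorem reps5_card (n : ℕ) : coeff n W5 = ((reps5 n).card : ℤ) := by
  have h1 := X_Cc
  have h2 := sd8_ts (k := 2) (by norm_num)
  have h4 := sd8_ts (k := 4) (by norm_num)
  have h32 := sd8_ts (k := 32) (by norm_num)
  norm_num at h2 h4 h32
  have hp : W5 = ∏ i : Fin 4, ts ((![1, 2, 4, 32] : Fin 4 → ℕ) i)
      ((![od, od, od, od] : Fin 4 → ℤ → ℤ) i) := by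
    rw [Fin.prod_univ_four, W5, h2, h4, h32, ← Cc, h1]
    simp only [Matrix.cons_val]
  rw [hp, ts_prod _ _ _ (le_refl n), reps5, Finset.card_filter]
  · push_cast
    refine Finset.sum_congr rfl fun v _ => ?_
    rw [Fin.sum_univ_four, Fin.prod_univ_four]
    simp only [Matrix.cons_val]
    push_cast
    have e : (1 * v 0 ^ 2 + 2 * v 1 ^ 2 + 4 * v 2 ^ 2 + 32 * v 3 ^ 2 = (n : ℤ)) ↔
        (v 0 ^ 2 + 2 * v 1 ^ 2 + 4 * v 2 ^ 2 + 32 * v 3 ^ 2 = (n : ℤ)) := by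
      rw [one_mul]
    by_cases hn : v 0 ^ 2 + 2 * v 1 ^ 2 + 4 * v 2 ^ 2 + 32 * v 3 ^ 2 = (n : ℤ)
    · rw [if_pos (e.2 hn)]
      by_cases hv : ∀ i : Fin 4, 0 < v i ∧ v i % 2 = 1
      · rw [if_pos ⟨hv, hn⟩]
        simp only [od, if_pos (hv 0), if_pos (hv 1), if_pos (hv 2), if_pos (hv 3)]
        norm_num
      · rw [if_neg (fun h => hv h.1)]
        push Not at hv
        obtain ⟨i, hv⟩ := hv
        have hod : od (v i) = 0 := by
          rw [od, if_neg]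
          rintro ⟨ha, hb⟩
          exact hv ha hb
        fin_cases i
        · simp only [Fin.zero_eta, Fin.isValue] at hod
          simp [hod]
        · simp only [Fin.mk_one, Fin.isValue] at hod
          simp [hod]
        · simp only [Fin.reduceFinMk, Fin.isValue] at hod
          simp [hod]
        · simp only [Fin.reduceFinMk, Fin.isValue] at hod
          simp [hod]
    · rw [if_neg (fun h => hn (e.1 h)), if_neg (fun h => hn h.2)]
  · intro i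
    fin_cases i <;> simp

theorem sd8_RT : R * (X ^ 8 * ex 64 psi) = W4 * (1 + 2 * ex 64 s4_h) := by
  have hp := s4_psi (k := 64) (by norm_num)
  norm_num at hp
  rw [s4_exphs (k := 64) (by norm_num)] at hp
  unfold R W4
  linear_combination (X * ex 8 psi) * (X ^ 2 * ex 16 psi) * (X ^ 4 * ex 32 psi) * X ^ 16 * hp

theorem sd8_WT : W4 * (X ^ 16 * ex 128 psi) = W5 * (1 + 2 * ex 128 s4_h) := by
  have hp := s4_psi (k := 128) (by norm_num)
  norm_num at hp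
  rw [s4_exphs (k := 128) (by norm_num)] at hp
  unfold W4 W5
  linear_combination (X * ex 8 psi) * (X ^ 2 * ex 16 psi) * (X ^ 4 * ex 32 psi) * X ^ 32 * hp

/-- The exact remainder of `Ss - R + 2 W4 + 4 W4 (a + c)`, divided by `8`. -/
noncomputable def sd8_g (a c : PowerSeries ℤ) : PowerSeries ℤ :=
  R * (a + 3 * a ^ 2 + 4 * a ^ 3 + 2 * a ^ 4) -
    W4 * (a + 3 * a ^ 2 + 2 * a ^ 3 + 3 * a * c + 6 * a ^ 2 * c + 4 * a ^ 3 * c)

theorem sd8_Ss : Ss = R - 2 * W4 - 4 * (W4 * (ex 8 s4_h + ex 64 s4_h)) +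
    8 * sd8_g (ex 8 s4_h) (ex 64 s4_h) := by
  have hs := Ss_eq
  have h8 := s4_exphs (k := 8) (by norm_num)
  have h32 := s4_exphs (k := 32) (by norm_num)
  have hr : ex 32 s4_h = ex 8 s4_h - X ^ 8 * ex 64 psi := by
    rw [s4_h8]
    ring
  have hRT := sd8_RT
  rw [h8, h32, hr] at hs
  unfold sd8_g
  linear_combination hs - 2 * (1 + 2 * ex 8 s4_h) ^ 3 * hRT

/-- Twisting by the even and the odd part. -/
theorem sd8_tw {g : PowerSeries ℤ} (hg : F3Cl 16 0 g) {n : ℕ} (hn : n % 16 = 15) :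
    coeff n (X * ex 8 (ng psi) * (w2 * Bb) * g) = -coeff n (w * (w2 * Bb) * g) := by
  have h := ((w2b_even.mul w2b_cls).mul hg) n (by omega)
  have e1 : w = X * ex 8 psi := rfl
  have e : X * ex 8 (psi + ng psi) * (w2 * Bb) * g =
      w * (w2 * Bb) * g + X * ex 8 (ng psi) * (w2 * Bb) * g := by
    rw [ex_add, e1]
    ring
  rw [e, map_add] at h
  linarith

theorem sd8_h16 : ex 16 s4_h = ex 64 s4_h + X ^ 16 * ex 128 psi := by
  have h := congrArg (ex 16) s4_hrec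
  rwa [E8X.ex_add, E8X.ex_mul (by norm_num), E8X.ex_ex (by norm_num) (by norm_num),
    E8X.ex_ex (by norm_num) (by norm_num), E8X.ex_X (by norm_num)] at h

theorem sd8_8 : ex 8 phm = 1 + 2 * ex 32 s4_h - 2 * (X ^ 8 * ex 64 psi) := by
  have h := w2b_a
  rw [s4_exphs (k := 8) (by norm_num), s4_h8] at h
  linear_combination -h

theorem sd8_16 : ex 16 phm = 1 + 2 * ex 64 s4_h - 2 * (X ^ 16 * ex 128 psi) := by
  have h := w2b_b
  rw [s4_exphs (k := 16) (by norm_num), sd8_h16] at h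
  linear_combination -h

theorem sd8_cls {g : PowerSeries ℤ} {k j : ℕ} (hk : 16 ∣ k) (hj : j = 16) :
    F3Cl 16 0 (X ^ j * ex k g) := by
  subst hj
  have h := (f3_X 16 16).mul (f3_ex (M := 16) (k := k) hk g)
  exact h

theorem sd8_add {f g : PowerSeries ℤ} (hf : F3Cl 16 0 f) (hg : F3Cl 16 0 g) :
    F3Cl 16 0 (f + g) := by
  intro n hn
  rw [map_add, hf n hn, hg n hn, add_zero]

theorem sd8_smul {f : PowerSeries ℤ} (a : ℤ) (hf : F3Cl 16 0 f) : F3Cl 16 0 (C a * f) := by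
  intro n hn
  rw [coeff_C_mul, hf n hn, mul_zero]

theorem sd8_one : F3Cl 16 0 (1 : PowerSeries ℤ) := by
  intro n hn
  rw [coeff_one, if_neg]
  rintro rfl
  exact hn rfl

theorem sd8_gcls : F3Cl 16 0 (X ^ 16 * ex 128 psi *
    (1 + 2 * ex 64 s4_h - 2 * (X ^ 16 * ex 128 psi))) := by
  have h1 : F3Cl 16 0 (X ^ 16 * ex 128 psi) := sd8_cls (by norm_num) rfl
  have h2 : F3Cl 16 0 (1 + C 2 * ex 64 s4_h + C (-2) * (X ^ 16 * ex 128 psi)) :=
    sd8_add (sd8_add sd8_one (sd8_smul 2 (f3_ex (by norm_num) _))) (sd8_smul (-2) h1)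
  have e : (1 + 2 * ex 64 s4_h - 2 * (X ^ 16 * ex 128 psi) : PowerSeries ℤ) =
      1 + C 2 * ex 64 s4_h + C (-2) * (X ^ 16 * ex 128 psi) := by
    have e2 : (C (-2) : PowerSeries ℤ) = -2 := by simp
    rw [← s4_two, e2]
    ring
  rw [e]
  exact h1.mul h2

/-- **The parity.** -/
theorem sd8_par {n : ℕ} (hn : n % 16 = 15) :
    coeff n (W4 * (1 + ex 32 s4_h + ex 64 s4_h - X ^ 8 * ex 64 psi - X ^ 16 * ex 128 psi)) = 0 := by
  have h := w2b_w
  rw [sd8_8, sd8_16] at h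
  have h2 := sd8_tw sd8_gcls hn
  have e : X * ex 8 (ng psi) * (w2 * Bb) *
      (X ^ 16 * ex 128 psi * (1 + 2 * ex 64 s4_h - 2 * (X ^ 16 * ex 128 psi))) =
      W4 * (1 + 2 * ex 32 s4_h - 2 * (X ^ 8 * ex 64 psi)) := by
    rw [w2b_W]
    linear_combination (-(w2 * Bb * (X ^ 16 * ex 128 psi))) * h
  have e' : w * (w2 * Bb) *
      (X ^ 16 * ex 128 psi * (1 + 2 * ex 64 s4_h - 2 * (X ^ 16 * ex 128 psi))) =
      W4 * (1 + 2 * ex 64 s4_h - 2 * (X ^ 16 * ex 128 psi)) := by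
    rw [w2b_W]
    ring
  rw [e, e'] at h2
  have e3 : W4 * (1 + 2 * ex 32 s4_h - 2 * (X ^ 8 * ex 64 psi)) +
      W4 * (1 + 2 * ex 64 s4_h - 2 * (X ^ 16 * ex 128 psi)) =
      C 2 * (W4 * (1 + ex 32 s4_h + ex 64 s4_h - X ^ 8 * ex 64 psi - X ^ 16 * ex 128 psi)) := by
    rw [← s4_two]
    ring
  have h3 := congrArg (coeff n) e3
  rw [map_add, h2, coeff_C_mul] at h3
  linarith

/-- **`s(n) = r(n) + 2 w(n) + 4 w5(n)` modulo 8 for `n = 15 mod 16`.** -/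
theorem Ss_mod8 {n : ℕ} (hn : n % 16 = 15) :
    (8 : ℤ) ∣ coeff n Ss - coeff n R - 2 * coeff n W4 - 4 * coeff n W5 := by
  have h := sd8_par hn
  have e : Ss = R + C 2 * W4 - C 4 * W5 - C 8 * (W4 * (X ^ 8 * ex 64 psi)) -
      C 8 * (W5 * ex 128 s4_h) + C 8 * sd8_g (ex 8 s4_h) (ex 64 s4_h) -
      C 4 * (W4 * (1 + ex 32 s4_h + ex 64 s4_h - X ^ 8 * ex 64 psi - X ^ 16 * ex 128 psi)) := by
    have h1 := sd8_Ss
    have h2 := sd8_WT
    have h3 := s4_h8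
    have c2 : (C 2 : PowerSeries ℤ) = 2 := by simp
    have c4 : (C 4 : PowerSeries ℤ) = 4 := by simp
    have c8 : (C 8 : PowerSeries ℤ) = 8 := by simp
    rw [c2, c4, c8]
    linear_combination h1 - 4 * h2 - 4 * W4 * h3
  have h1 := congrArg (coeff n) e
  rw [map_sub, map_add, map_sub, map_sub, map_sub, map_add, coeff_C_mul, coeff_C_mul, coeff_C_mul,
    coeff_C_mul, coeff_C_mul, coeff_C_mul, h] at h1
  refine ⟨coeff n (sd8_g (ex 8 s4_h) (ex 64 s4_h)) - coeff n (W4 * (X ^ 8 * ex 64 psi)) -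
    coeff n (W5 * ex 128 s4_h) - coeff n W5, ?_⟩
  linarith

theorem t17_of {p : ℕ} [Fact p.Prime] (h16 : p % 16 = 15) {r w v : ℤ}
    (hS : (8 : ℤ) ∣ coeff p Ss - r - 2 * w - 4 * v) (hW : 16 * (r + w) = (p : ℤ) + 1)
    (hR : 32 * r = (p : ℤ) + 1 + 2 * ap p) :
    (131072 : ℤ) ∣ tau p - (705 * (1 + (p : ℤ) ^ 11) + 4096 * (1 + (p : ℤ) ^ 3) -
      1536 * ((p : ℤ) + 1) + 1024 * ap p + 65536 * v) := by
  have hp : p.Prime := Fact.out
  have h := tau_seven (n := p) (by omega)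
  rw [g2_sigma hp, g2_sigma hp] at h
  obtain ⟨k, hk⟩ := h
  obtain ⟨l, hl⟩ := hS
  refine ⟨2 * k - l - v, ?_⟩
  linear_combination hk - 16384 * hl - 2048 * hW + 512 * hR

/-- **`τ(p)` modulo `2^17` for the primes `p = 15 mod 16`.** -/
theorem tau17 {p : ℕ} [Fact p.Prime] (h : p % 16 = 15) :
    (131072 : ℤ) ∣ tau p - (705 * (1 + (p : ℤ) ^ 11) + 4096 * (1 + (p : ℤ) ^ 3) -
      1536 * ((p : ℤ) + 1) + 1024 * ap p + 65536 * ((reps5 p).card : ℤ)) := by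
  rw [← reps5_card]
  exact t17_of h (Ss_mod8 h) (rw_sum Fact.out h) (R_eq (by omega))

/-- `τ(p) = 11 (p + 1) + 1024 a_p + 65536 w5(p) mod 2^17` for `p + 1 = 2^14 u`. -/
theorem tau17_14 {p : ℕ} [Fact p.Prime] {u : ℤ} (hu : (p : ℤ) + 1 = 16384 * u) :
    (131072 : ℤ) ∣ tau p - (11 * ((p : ℤ) + 1) + 1024 * ap p +
      65536 * ((reps5 p).card : ℤ)) := by
  obtain ⟨k, hk⟩ := tau17 (p := p) (by omega)
  have hp' : (p : ℤ) = 16384 * u - 1 := by linarith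
  have e11 : ∃ m : ℤ, 1 + (p : ℤ) ^ 11 = 11 * (16384 * u) + 131072 * m := by
    rw [hp']
    refine ⟨-55 * 2048 * u ^ 2 + 165 * 2048 * 16384 * u ^ 3 - 330 * 2048 * 16384 ^ 2 * u ^ 4 +
      462 * 2048 * 16384 ^ 3 * u ^ 5 - 462 * 2048 * 16384 ^ 4 * u ^ 6 +
      330 * 2048 * 16384 ^ 5 * u ^ 7 - 165 * 2048 * 16384 ^ 6 * u ^ 8 +
      55 * 2048 * 16384 ^ 7 * u ^ 9 - 11 * 2048 * 16384 ^ 8 * u ^ 10 +
      2048 * 16384 ^ 9 * u ^ 11, ?_⟩
    ring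
  have e3 : ∃ m : ℤ, 4096 * (1 + (p : ℤ) ^ 3) = 131072 * m := by
    rw [hp']
    refine ⟨512 * (3 * u - 3 * 16384 * u ^ 2 + 16384 ^ 2 * u ^ 3), ?_⟩
    ring
  obtain ⟨m, hm⟩ := e11
  obtain ⟨m', hm'⟩ := e3
  refine ⟨k + 705 * m + m' + 11 * 8 * 11 * u - 192 * u, ?_⟩
  rw [hu] at hk ⊢
  linear_combination hk + 705 * hm + hm'

/-- `2^17 ∣ τ(p)` iff `a_p = 80 u + 64 w5(p) mod 128`, for `p + 1 = 2^14 u`. -/
theorem tau17_iff {p : ℕ} [Fact p.Prime] {u : ℤ} (hu : (p : ℤ) + 1 = 16384 * u) :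
    (131072 : ℤ) ∣ tau p ↔ (128 : ℤ) ∣ ap p - 80 * u - 64 * ((reps5 p).card : ℤ) := by
  have h := tau17_14 hu
  rw [hu] at h
  omega

end E8G
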