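import Pool.Agent.E8G.Ua

/-!
# [E8G] the quaternary form `x² + 2 (s² + t² + u²)` with odd entries: exact value at primes
-/

set_option autoImplicit false

open PowerSeries
open N19 (ex psi phs)
open E8X

namespace E8G

theorem u_low {ν : PowerSeries ℤ} (h0 : constantCoeff ν = 0) {k n : ℕ} (h : n < k) (f : PowerSeries ℤ) :
    coeff n (ν ^ k * f) = 0 := by
  have h1 : X ∣ ν := X_dvd_iff.2 h0
  obtain ⟨g, hg⟩ := h1
  have h2 : ν ^ k * f = X ^ k * (g ^ k * f) := by
    rw [hg, mul_pow]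
    ring
  rw [h2, coeff_X_pow_mul', if_neg (by omega)]

/-- The partial sums of the geometric series. -/
theorem u_geom {ν : PowerSeries ℤ} (h : U * (1 - 16 * ν ^ 8) = ν ^ 6 * D ν) (J : ℕ) :
    U = ∑ j ∈ Finset.range J, (16 : PowerSeries ℤ) ^ j * (ν ^ (8 * j + 6) * D ν) +
      (16 : PowerSeries ℤ) ^ J * (ν ^ (8 * J) * U) := by
  induction J with
  | zero => simp
  | succ J ih =>
    rw [Finset.sum_range_succ]
    have e : (16 : PowerSeries ℤ) ^ J * (ν ^ (8 * J) * U) =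
        (16 : PowerSeries ℤ) ^ J * (ν ^ (8 * J + 6) * D ν) +
          (16 : PowerSeries ℤ) ^ (J + 1) * (ν ^ (8 * (J + 1)) * U) := by
      have e1 : ν ^ (8 * J + 6) = ν ^ (8 * J) * ν ^ 6 := pow_add _ _ _
      have e2 : ν ^ (8 * (J + 1)) = ν ^ (8 * J) * ν ^ 8 := by
        rw [← pow_add]
        congr 1
      rw [e1, e2, pow_succ]
      linear_combination ((16 : PowerSeries ℤ) ^ J * ν ^ (8 * J)) * h
    nth_rewrite 1 [ih]
    rw [e]
    ring

theorem u_coeff16 (j n : ℕ) (f : PowerSeries ℤ) :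
    coeff n ((16 : PowerSeries ℤ) ^ j * f) = 16 ^ j * coeff n f := by
  have h : (16 : PowerSeries ℤ) ^ j = C (16 ^ j) := by
    rw [map_pow]
    congr 1
  rw [h, coeff_C_mul]

/-- **The value modulo `p`.** -/
theorem U_mod {p : ℕ} (hp : p.Prime) (hp7 : p % 8 = 7) : (p : ℤ) ∣ 8 * coeff p U - 1 := by
  have : Fact p.Prime := ⟨hp⟩
  obtain ⟨ν, h0, h1, h⟩ := u_param
  obtain ⟨m, hm⟩ : ∃ m, p = 8 * m + 7 := ⟨p / 8, by omega⟩
  have e1 := congrArg (coeff p) (u_geom h (m + 1))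
  rw [map_add, map_sum, u_coeff16, u_low h0 (by omega), mul_zero, add_zero,
    Finset.sum_range_succ] at e1
  have e2 : (p : ℤ) ∣ ∑ j ∈ Finset.range m, coeff p ((16 : PowerSeries ℤ) ^ j * (ν ^ (8 * j + 6) * D ν)) := by
    refine Finset.dvd_sum fun j hj => ?_
    rw [Finset.mem_range] at hj
    rw [u_coeff16]
    refine Dvd.dvd.mul_left ?_ _
    have h3 := B_other hp ν (k := 8 * j + 6) (fun hc => by
      have := Nat.le_of_dvd (by omega) hc
      omega) 1
    rw [mul_one] at h3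
    exact h3
  have e3 : coeff p ((16 : PowerSeries ℤ) ^ m * (ν ^ (8 * m + 6) * D ν)) = 16 ^ m * coeff p (ν ^ (p - 1) * D ν) := by
    rw [u_coeff16, hm]
    rfl
  have e4 : (p : ℤ) ∣ coeff p (ν ^ (p - 1) * D ν) - 1 := by
    have h3 := B_same hp ν 1
    rw [mul_one, B_coeff_D, h1] at h3
    simpa using h3
  have e5 : (p : ℤ) ∣ 8 * 16 ^ m - 1 := by
    rw [← ZMod.intCast_zmod_eq_zero_iff_dvd]
    push_cast
    have h3 : IsSquare (2 : ZMod p) := (ZMod.exists_sq_eq_two_iff (p := p) (by omega)).2 (Or.inr hp7)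
    have h2 : (2 : ZMod p) ≠ 0 := by
      intro hc
      have h3 : ((2 : ℕ) : ZMod p) = 0 := by exact_mod_cast hc
      rw [ZMod.natCast_eq_zero_iff] at h3
      have h4 := Nat.le_of_dvd (by norm_num) h3
      omega
    have h4 := (ZMod.euler_criterion p h2).1 h3
    have h5 : p / 2 = 4 * m + 3 := by omega
    rw [h5] at h4
    have h6 : (2 : ZMod p) ^ (4 * m + 3) = 8 * 16 ^ m := by
      rw [pow_add, pow_mul]
      norm_num
      ring
    rw [← h6, h4, sub_self]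
  rw [e3] at e1
  have e6 : 8 * coeff p U - 1 = 8 * (∑ j ∈ Finset.range m, coeff p ((16 : PowerSeries ℤ) ^ j *
      (ν ^ (8 * j + 6) * D ν))) + 8 * 16 ^ m * (coeff p (ν ^ (p - 1) * D ν) - 1) + (8 * 16 ^ m - 1) := by
    rw [e1]
    ring
  rw [e6]
  exact dvd_add (dvd_add (Dvd.dvd.mul_left e2 _) (Dvd.dvd.mul_left e4 _)) e5

theorem U_nonneg (p : ℕ) : 0 ≤ coeff p U := by
  have h := u_card p
  have h1 : (0 : ℤ) ≤ ((uS p).card : ℤ) := Nat.cast_nonneg _
  linarith

/-- **The exact value.** -/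
theorem U_prime {p : ℕ} (hp : p.Prime) (hp7 : p % 8 = 7) :
    8 * coeff p ((X * ex 8 psi) * (X ^ 2 * ex 16 psi) ^ 3) = (p : ℤ) + 1 := by
  show 8 * coeff p U = (p : ℤ) + 1
  have h1 := U_le hp hp7
  have h2 := U_nonneg p
  obtain ⟨k, hk⟩ := U_mod hp hp7
  have hp2 : (7 : ℤ) ≤ p := by
    have := hp.two_le
    have : 7 ≤ p := by omega
    exact_mod_cast this
  have hk1 : k ≤ 1 := by
    by_contra hc
    push Not at hc
    nlinarith
  have hk0 : 0 ≤ k := by
    by_contra hc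
    push Not at hc
    nlinarith
  have hkk : k = 0 ∨ k = 1 := by omega
  rcases hkk with rfl | rfl
  · exfalso
    omega
  · linarith

end E8G
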