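import Pool.Agent.E8G.Defs

/-!
# [E8G] the quaternary form `x² + 2 (s² + t² + u²)` with odd entries: the upper bound
-/

set_option autoImplicit false

open PowerSeries
open N19 (ex psi phs)
open E8X (ts od F2b_oi)

namespace E8G

/-- `∑_{x,s,t,u odd > 0} X^(x² + 2 s² + 2 t² + 2 u²)` -/
noncomputable def U : PowerSeries ℤ := (X * ex 8 psi) * (X ^ 2 * ex 16 psi) ^ 3

theorem u_G : X ^ 2 * ex 16 psi = ts 2 od := by
  have h : ex 2 (X * E8X.Cc) = ex 2 (ts 1 od) := by rw [E8X.X_Cc]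
  unfold E8X.Cc at h
  rw [E8X.ex_mul (by norm_num), E8X.ex_X (by norm_num), E8X.ex_ex (by norm_num) (by norm_num),
    E8X.ex_ts (by norm_num) (by norm_num)] at h
  exact h

theorem u_oi : ts 2 F2b_oi = 2 * ts 2 od := by
  have h : ex 2 (ts 1 F2b_oi) = ex 2 (2 * ts 1 od) := by rw [E8X.F2b_oi_ts]
  rw [E8X.ex_mul (by norm_num), E8X.ex_ts (by norm_num) (by norm_num),
    E8X.ex_ts (by norm_num) (by norm_num), E8X.F2c_ex2] at h
  exact h

/-- The weights `1, 2, 2, 2`. -/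
def uw : Fin 4 → ℕ := ![1, 2, 2, 2]

/-- The coefficients: `x` odd positive, `s, t, u` odd. -/
def uc : Fin 4 → ℤ → ℤ := ![od, F2b_oi, F2b_oi, F2b_oi]

theorem u_prod : 8 * U = ∏ i, ts (uw i) (uc i) := by
  rw [Fin.prod_univ_four]
  show 8 * U = ts 1 od * ts 2 F2b_oi * ts 2 F2b_oi * ts 2 F2b_oi
  have h1 : X * ex 8 psi = ts 1 od := E8X.X_Cc
  unfold U
  rw [u_oi, u_G, h1]
  ring

/-- The solutions with `x > 0`. -/
noncomputable def uS (p : ℕ) : Finset (Fin 4 → ℤ) :=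
  (Fintype.piFinset (fun _ : Fin 4 => Finset.Icc (-(p : ℤ)) p)).filter fun v =>
    v 0 ^ 2 + 2 * v 1 ^ 2 + 2 * v 2 ^ 2 + 2 * v 3 ^ 2 = p ∧ 0 < v 0 ∧ v 0 % 2 = 1 ∧ v 1 % 2 = 1 ∧
      v 2 % 2 = 1 ∧ v 3 % 2 = 1

theorem u_card (p : ℕ) : 8 * coeff p U = (uS p).card := by
  have h : coeff p (8 * U) = coeff p (∏ i, ts (uw i) (uc i)) := by rw [u_prod]
  have h8 : coeff p (8 * U) = 8 * coeff p U := by
    have : (8 : PowerSeries ℤ) * U = (8 : ℤ) • U := by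
      rw [zsmul_eq_mul]; norm_num
    rw [this, map_zsmul]
    simp
  rw [← h8, h, E8X.ts_prod uw (by intro i; fin_cases i <;> decide) uc (le_refl p)]
  unfold uS
  rw [Finset.card_filter]
  push_cast
  refine Finset.sum_congr rfl fun v _ => ?_
  rw [Fin.sum_univ_four, Fin.prod_univ_four]
  show (if ((1 : ℕ) : ℤ) * v 0 ^ 2 + ((2 : ℕ) : ℤ) * v 1 ^ 2 + ((2 : ℕ) : ℤ) * v 2 ^ 2 +
    ((2 : ℕ) : ℤ) * v 3 ^ 2 = (p : ℤ) then od (v 0) * F2b_oi (v 1) * F2b_oi (v 2) * F2b_oi (v 3) else 0) = _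
  push_cast
  rw [one_mul]
  unfold od F2b_oi
  by_cases h1 : v 0 ^ 2 + 2 * v 1 ^ 2 + 2 * v 2 ^ 2 + 2 * v 3 ^ 2 = (p : ℤ)
  · by_cases h2 : 0 < v 0
    · by_cases h2' : v 0 % 2 = 1
      · by_cases h3 : v 1 % 2 = 1
        · by_cases h4 : v 2 % 2 = 1
          · by_cases h5 : v 3 % 2 = 1
            · simp only [h1, h2, h2', h3, h4, h5, and_self, if_true, mul_one]
            · simp only [h1, h2, h2', h3, h4, h5, and_self, and_false, if_true, if_false, mul_zero]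
          · simp only [h1, h2, h2', h3, h4, and_self, and_false, false_and, if_true, if_false,
              mul_zero, zero_mul]
        · simp only [h1, h2, h2', h3, and_self, and_false, false_and, if_true, if_false,
              mul_zero, zero_mul]
      · simp only [h1, h2, h2', and_self, and_false, false_and, if_true, if_false,
              mul_zero, zero_mul]
    · simp only [h1, h2, and_self, and_false, false_and, if_true, if_false,
              mul_zero, zero_mul]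
  · simp only [h1, and_false, false_and, if_false]

/-- Two solutions with an inner product divisible by `p` agree. -/
theorem u_eq {p : ℕ} (hp2 : p % 2 = 1) {v w : Fin 4 → ℤ} (hv : v ∈ uS p) (hw : w ∈ uS p)
    (h : (p : ℤ) ∣ v 0 * w 0 + 2 * (v 1 * w 1 + v 2 * w 2 + v 3 * w 3)) : v = w := by
  obtain ⟨-, a1, a2, a3, a4, a5, a6⟩ := Finset.mem_filter.1 hv
  obtain ⟨-, b1, b2, b3, b4, b5, b6⟩ := Finset.mem_filter.1 hw
  obtain ⟨k, hk⟩ := h
  have hp0 : (0 : ℤ) < p := by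
    rw [← a1]
    positivity
  have hB1 : (v 0 * w 0 + 2 * (v 1 * w 1 + v 2 * w 2 + v 3 * w 3)) % 2 = 1 := by
    have h1 : (v 0 * w 0) % 2 = 1 := by
      rw [Int.mul_emod, a3, b3]
      norm_num
    omega
  have hk2 : k ≠ 0 := by
    rintro rfl
    rw [hk] at hB1
    norm_num at hB1
  have hle : (p : ℤ) * k ≤ p := by
    rw [← hk]
    nlinarith [sq_nonneg (v 0 - w 0), sq_nonneg (v 1 - w 1), sq_nonneg (v 2 - w 2),
      sq_nonneg (v 3 - w 3)]
  have hge : -(p : ℤ) ≤ (p : ℤ) * k := by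
    rw [← hk]
    nlinarith [sq_nonneg (v 0 + w 0), sq_nonneg (v 1 + w 1), sq_nonneg (v 2 + w 2),
      sq_nonneg (v 3 + w 3)]
  have hk1 : k ≤ 1 := by
    by_contra hc
    push Not at hc
    nlinarith
  have hk3 : -1 ≤ k := by
    by_contra hc
    push Not at hc
    nlinarith
  have hkk : k = 1 ∨ k = -1 := by omega
  rcases hkk with rfl | rfl
  · have e : (v 0 - w 0) ^ 2 + 2 * (v 1 - w 1) ^ 2 + 2 * (v 2 - w 2) ^ 2 + 2 * (v 3 - w 3) ^ 2 = 0 := by
      linear_combination a1 + b1 - 2 * hk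
    have e0 : v 0 - w 0 = 0 := by
      by_contra hc
      have := pow_pos (abs_pos.2 hc) 2
      rw [sq_abs] at this
      nlinarith [sq_nonneg (v 1 - w 1), sq_nonneg (v 2 - w 2), sq_nonneg (v 3 - w 3)]
    have e1 : v 1 - w 1 = 0 := by
      by_contra hc
      have := pow_pos (abs_pos.2 hc) 2
      rw [sq_abs] at this
      nlinarith [sq_nonneg (v 0 - w 0), sq_nonneg (v 2 - w 2), sq_nonneg (v 3 - w 3)]
    have e2 : v 2 - w 2 = 0 := by
      by_contra hc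
      have := pow_pos (abs_pos.2 hc) 2
      rw [sq_abs] at this
      nlinarith [sq_nonneg (v 0 - w 0), sq_nonneg (v 1 - w 1), sq_nonneg (v 3 - w 3)]
    have e3 : v 3 - w 3 = 0 := by
      by_contra hc
      have := pow_pos (abs_pos.2 hc) 2
      rw [sq_abs] at this
      nlinarith [sq_nonneg (v 0 - w 0), sq_nonneg (v 1 - w 1), sq_nonneg (v 2 - w 2)]
    funext i
    fin_cases i
    · exact sub_eq_zero.1 e0
    · exact sub_eq_zero.1 e1
    · exact sub_eq_zero.1 e2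
    · exact sub_eq_zero.1 e3
  · exfalso
    have e : (v 0 + w 0) ^ 2 + 2 * (v 1 + w 1) ^ 2 + 2 * (v 2 + w 2) ^ 2 + 2 * (v 3 + w 3) ^ 2 = 0 := by
      linear_combination a1 + b1 + 2 * hk
    have := pow_pos (add_pos a2 b2) 2
    nlinarith [sq_nonneg (v 1 + w 1), sq_nonneg (v 2 + w 2), sq_nonneg (v 3 + w 3)]

section line

variable {p : ℕ} [Fact p.Prime] (ρ α β : ZMod p)

/-- The first row of the matrix of `x + √2 (s i + t j + u k)`. -/
def u11 (v : Fin 4 → ℤ) : ZMod p := v 0 + α * (ρ * v 1) - β * (ρ * v 3)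

def u12 (v : Fin 4 → ℤ) : ZMod p := β * (ρ * v 1) + ρ * v 2 + α * (ρ * v 3)

def u21 (v : Fin 4 → ℤ) : ZMod p := β * (ρ * v 1) - ρ * v 2 + α * (ρ * v 3)

def u22 (v : Fin 4 → ℤ) : ZMod p := v 0 - α * (ρ * v 1) + β * (ρ * v 3)

theorem u_det (hρ : ρ ^ 2 = 2) (hαβ : α ^ 2 + β ^ 2 = -1) {v : Fin 4 → ℤ}
    (h : v 0 ^ 2 + 2 * v 1 ^ 2 + 2 * v 2 ^ 2 + 2 * v 3 ^ 2 = (p : ℤ)) :
    u11 ρ α β v * u22 ρ α β v = u12 ρ α β v * u21 ρ α β v := by
  have h1 : ((v 0 ^ 2 + 2 * v 1 ^ 2 + 2 * v 2 ^ 2 + 2 * v 3 ^ 2 : ℤ) : ZMod p) = ((p : ℤ) : ZMod p) := by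
    rw [h]
  push_cast at h1
  rw [ZMod.natCast_self] at h1
  unfold u11 u12 u21 u22
  linear_combination h1 + ((v 1 : ZMod p) ^ 2 + (v 2 : ZMod p) ^ 2 + (v 3 : ZMod p) ^ 2) * hρ -
    (ρ ^ 2 * ((v 1 : ZMod p) ^ 2 + (v 3 : ZMod p) ^ 2)) * hαβ

theorem u_pair (hρ : ρ ^ 2 = 2) (hαβ : α ^ 2 + β ^ 2 = -1) (v w : Fin 4 → ℤ) :
    u22 ρ α β v * u11 ρ α β w - u12 ρ α β v * u21 ρ α β w - u21 ρ α β v * u12 ρ α β w +
      u11 ρ α β v * u22 ρ α β w =
    2 * ((v 0 * w 0 + 2 * (v 1 * w 1 + v 2 * w 2 + v 3 * w 3) : ℤ) : ZMod p) := by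
  unfold u11 u12 u21 u22
  push_cast
  linear_combination (2 * ((v 1 : ZMod p) * w 1 + (v 2 : ZMod p) * w 2 + (v 3 : ZMod p) * w 3)) * hρ -
    (2 * ρ ^ 2 * ((v 1 : ZMod p) * w 1 + (v 3 : ZMod p) * w 3)) * hαβ

open Classical in
/-- The line of a solution. -/
noncomputable def uline (v : Fin 4 → ℤ) : Option (ZMod p) :=
  if u11 ρ α β v = 0 then (if u12 ρ α β v = 0 then none else some (u22 ρ α β v / u12 ρ α β v))
  else some (u21 ρ α β v / u11 ρ α β v)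

theorem uline_none {v : Fin 4 → ℤ} (h : uline ρ α β v = none) :
    u11 ρ α β v = 0 ∧ u12 ρ α β v = 0 := by
  unfold uline at h
  split_ifs at h with h1 h2
  exact ⟨h1, h2⟩

theorem uline_some (hρ : ρ ^ 2 = 2) (hαβ : α ^ 2 + β ^ 2 = -1) {v : Fin 4 → ℤ}
    (hv : v 0 ^ 2 + 2 * v 1 ^ 2 + 2 * v 2 ^ 2 + 2 * v 3 ^ 2 = (p : ℤ)) {c : ZMod p}
    (h : uline ρ α β v = some c) :
    u21 ρ α β v = c * u11 ρ α β v ∧ u22 ρ α β v = c * u12 ρ α β v := by
  have hd := u_det ρ α β hρ hαβ hv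
  unfold uline at h
  split_ifs at h with h1 h2
  · have hc := Option.some_injective _ h
    rw [← hc]
    rw [h1, zero_mul] at hd
    have h3 : u21 ρ α β v = 0 := (mul_eq_zero.1 hd.symm).resolve_left h2
    refine ⟨by rw [h3, h1, mul_zero], ?_⟩
    field_simp
  · have hc := Option.some_injective _ h
    rw [← hc]
    refine ⟨by field_simp, ?_⟩
    field_simp
    linear_combination hd

theorem u_inj (hp2 : p % 2 = 1) (hρ : ρ ^ 2 = 2) (hαβ : α ^ 2 + β ^ 2 = -1) {v w : Fin 4 → ℤ}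
    (hv : v ∈ uS p) (hw : w ∈ uS p) (h : uline ρ α β v = uline ρ α β w) : v = w := by
  have hv1 := (Finset.mem_filter.1 hv).2.1
  have hw1 := (Finset.mem_filter.1 hw).2.1
  have h0 := u_pair ρ α β hρ hαβ v w
  have h2 : (2 : ZMod p) ≠ 0 := by
    intro hc
    have h3 : ((2 : ℕ) : ZMod p) = 0 := by exact_mod_cast hc
    rw [ZMod.natCast_eq_zero_iff] at h3
    have h4 := Nat.le_of_dvd (by norm_num) h3
    have h5 := (Fact.out : p.Prime).two_le
    omega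
  have h3 : ((v 0 * w 0 + 2 * (v 1 * w 1 + v 2 * w 2 + v 3 * w 3) : ℤ) : ZMod p) = 0 := by
    apply (mul_eq_zero.1 _).resolve_left h2
    rw [← h0]
    rcases h4 : uline ρ α β v with _ | c
    · obtain ⟨h5, h6⟩ := uline_none ρ α β h4
      rw [h4] at h
      obtain ⟨h7, h8⟩ := uline_none ρ α β h.symm
      rw [h5, h6, h7, h8]
      ring
    · obtain ⟨h5, h6⟩ := uline_some ρ α β hρ hαβ hv1 h4
      rw [h4] at h
      obtain ⟨h7, h8⟩ := uline_some ρ α β hρ hαβ hw1 h.symm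
      rw [h5, h6, h7, h8]
      ring
  exact u_eq hp2 hv hw ((ZMod.intCast_zmod_eq_zero_iff_dvd _ p).1 h3)

end line

/-- **The upper bound.** -/
theorem U_le {p : ℕ} (hp : p.Prime) (hp7 : p % 8 = 7) : 8 * coeff p U ≤ (p : ℤ) + 1 := by
  have : Fact p.Prime := ⟨hp⟩
  obtain ⟨ρ, hρ⟩ : ∃ ρ : ZMod p, ρ ^ 2 = 2 := by
    have h := (ZMod.exists_sq_eq_two_iff (p := p) (by omega)).2 (Or.inr hp7)
    obtain ⟨ρ, h⟩ := h
    exact ⟨ρ, by rw [h]; ring⟩
  obtain ⟨α, β, hαβ⟩ := ZMod.sq_add_sq p (-1)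
  rw [u_card]
  have h := Finset.card_le_card_of_injOn (s := uS p) (t := (Finset.univ : Finset (Option (ZMod p))))
    (uline ρ α β) (fun _ _ => Finset.mem_coe.2 (Finset.mem_univ _)) (fun v hv w hw h =>
      u_inj ρ α β (by omega) hρ hαβ hv hw h)
  rw [Finset.card_univ, Fintype.card_option, ZMod.card] at h
  exact_mod_cast h

end E8G
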