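import Pool.Agent.E8G.A
import Pool.Agent.E8G.B
import Pool.Agent.E8G.Ub

/-!
# [E8G] the quaternary form `x² + 2 (s² + t² + u²)` with odd entries: its value modulo `p`
-/

set_option autoImplicit false

open PowerSeries
open N19 (ex psi phs)
open E8X

namespace E8G

theorem u_ex_sub (k : ℕ) (f g : PowerSeries ℤ) : ex k (f - g) = ex k f - ex k g := by
  have h := ex_add k (f - g) g
  rw [sub_add_cancel] at h
  exact eq_sub_of_add_eq h.symm

theorem u_Dw2 : D w2 = 2 * ex 2 (D w) := by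
  rw [← A_ex_w, A_D_ex (by norm_num)]
  push_cast
  rfl

theorem u_DP : D (ex 8 phs) = 2 * ex 2 (D Ee) := by
  rw [← A_ex_Ee, A_D_ex (by norm_num)]
  push_cast
  rfl

/-- `D log (w₂ / P) = 2 (P⁴ - 16 w₂⁴)`, `P = φ(X⁸)` -/
theorem u_h2 : ex 8 phs * D w2 - w2 * D (ex 8 phs) =
    2 * (w2 * ex 8 phs * (ex 8 phs ^ 4 - 16 * w2 ^ 4)) := by
  have h := congrArg (ex 2) A_star
  rw [u_ex_sub, ex_mul (by norm_num), ex_mul (by norm_num), ex_mul (by norm_num),
    ex_mul (by norm_num), u_ex_sub, ex_mul (by norm_num), ex_pow (by norm_num),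
    ex_pow (by norm_num), A_ex_w, A_ex_Ee] at h
  have h16 : ex 2 (16 : PowerSeries ℤ) = 16 := by
    have := ex_ofNat (k := 2) (by norm_num) 16
    simpa using this
  rw [h16] at h
  rw [u_Dw2, u_DP]
  linear_combination 2 * h

/-- `D log (w / P) = P⁴ - 16 w₂⁴` -/
theorem u_h1 : ex 8 phs * D w - w * D (ex 8 phs) =
    w * ex 8 phs * (ex 8 phs ^ 4 - 16 * w2 ^ 4) := by
  have e1 := A_h1
  have e2 := congrArg D A_h1
  rw [A_D_sq, A_D_mul] at e2
  have e3 := u_h2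
  have hw : (2 : PowerSeries ℤ) * w ≠ 0 := by
    intro h
    rcases mul_eq_zero.1 h with h1 | h1
    · exact A_two_ne h1
    · have h2 := A_w1
      rw [h1] at h2
      simp at h2
  apply mul_left_cancel₀ hw
  linear_combination (ex 8 phs) * e2 + (ex 8 phs) * e3 -
    (2 * D (ex 8 phs) + 2 * ex 8 phs * (ex 8 phs ^ 4 - 16 * w2 ^ 4)) * e1

/-- The inverse of `P`. -/
theorem u_inv : ∃ Q : PowerSeries ℤ, ex 8 phs * Q = 1 := by
  have h : constantCoeff (ex 8 phs) = 1 := by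
    rw [A_cc_ex, A_cc_phs]
  refine ⟨PowerSeries.invOfUnit (ex 8 phs) 1, ?_⟩
  exact PowerSeries.mul_invOfUnit _ _ (by rw [h]; rfl)

/-- The parameter `ν = w / P`. -/
theorem u_param : ∃ ν : PowerSeries ℤ, constantCoeff ν = 0 ∧ coeff 1 ν = 1 ∧
    U * (1 - 16 * ν ^ 8) = ν ^ 6 * D ν := by
  obtain ⟨Q, hQ⟩ := u_inv
  have hQ0 : constantCoeff Q = 1 := by
    have h := congrArg constantCoeff hQ
    rw [map_mul, A_cc_ex, A_cc_phs, one_mul, map_one] at h
    exact h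
  have hDQ : D Q = -(Q ^ 2 * D (ex 8 phs)) := by
    have h := congrArg D hQ
    rw [A_D_mul] at h
    have h1 : D (1 : PowerSeries ℤ) = 0 := by
      rw [A_D_eq]
      simp
    rw [h1] at h
    linear_combination Q * h - (D Q) * hQ
  have e1 := A_h1
  have e3 := u_h1
  have hU : U = w * w2 ^ 3 := rfl
  refine ⟨w * Q, ?_, ?_, ?_⟩
  · rw [map_mul, A_w0, zero_mul]
  · have h : w = X * ex 8 psi := rfl
    rw [h, mul_assoc, show (1 : ℕ) = 0 + 1 from rfl, coeff_succ_X_mul, coeff_zero_eq_constantCoeff_apply,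
      map_mul, A_ps0, hQ0, one_mul]
  · -- D ν = ν P⁴ (1 - 16 ν⁸), w₂ = w² Q
    have hw2 : w2 = w ^ 2 * Q := by
      linear_combination (-w2) * hQ - Q * e1
    have hD : D (w * Q) = w * Q * (ex 8 phs ^ 4 - 16 * w2 ^ 4) := by
      rw [A_D_mul, hDQ]
      linear_combination (Q ^ 2) * e3 - (Q * D w - w * Q * (ex 8 phs ^ 4 - 16 * w2 ^ 4)) * hQ
    rw [hD, hU, hw2]
    have hQ4 : ex 8 phs ^ 4 * Q ^ 4 = 1 := by
      rw [← mul_pow, hQ, one_pow]
    linear_combination (-(w ^ 7 * Q ^ 3)) * hQ4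

end E8G
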